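import Pool.Agent.R966.CP.Stm

/-!
# MP_de3d19_pr, piece CP-ANIM: the number of connected sets
-/

set_option autoImplicit false

namespace Pool.Agent.R966.CP

open Finset

namespace Anim

variable {V : Type} [DecidableEq V]

/-- the walks of length `n` from `v` (without the starting point) -/
def Wk (near : V → Finset V) : ℕ → V → Finset (List V)
  | 0, _ => {[]}
  | n + 1, v => (near v).biUnion fun u => (Wk near n u).image fun l => u :: l

theorem card_Wk {near : V → Finset V} {Δ : ℕ} (h : ∀ x, (near x).card ≤ Δ) :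
    ∀ n v, (Wk near n v).card ≤ Δ ^ n := by
  intro n
  induction n with
  | zero => intro v; simp [Wk]
  | succ n ih =>
    intro v
    rw [Wk]
    calc _ ≤ ∑ u ∈ near v, ((Wk near n u).image fun l => u :: l).card := card_biUnion_le
      _ ≤ ∑ u ∈ near v, Δ ^ n := sum_le_sum fun u _ => card_image_le.trans (ih u)
      _ = (near v).card * Δ ^ n := by rw [sum_const, smul_eq_mul]
      _ ≤ Δ * Δ ^ n := Nat.mul_le_mul_right _ (h v)
      _ = Δ ^ (n + 1) := by ring

theorem mem_Wk {near : V → Finset V} : ∀ (n : ℕ) (v : V) (l : List V), l.length = n →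
    List.IsChain (fun a b => b ∈ near a) (v :: l) → l ∈ Wk near n v := by
  intro n
  induction n with
  | zero =>
    intro v l hl _
    rw [List.length_eq_zero_iff.1 hl, Wk]
    exact mem_singleton_self _
  | succ n ih =>
    intro v l hl hc
    rcases l with _ | ⟨u, l⟩
    · simp at hl
    · rw [List.isChain_cons_cons] at hc
      rw [Wk, mem_biUnion]
      exact ⟨u, hc.1, mem_image.2 ⟨l, ih u l (by simpa using hl) hc.2, rfl⟩⟩

theorem detour {near : V → Finset V} (hsym : ∀ x y, y ∈ near x ↔ x ∈ near y) {root a b : V}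
    {l : List V} (hc : List.IsChain (fun a b => b ∈ near a) (root :: l)) (ha : a ∈ root :: l)
    (hb : b ∈ near a) : ∃ l' : List V, l'.length = l.length + 2 ∧
      List.IsChain (fun a b => b ∈ near a) (root :: l') ∧
      (root :: l').toFinset = insert b (root :: l).toFinset := by
  obtain ⟨l1, l2, h12⟩ := List.append_of_mem ha
  rw [h12, List.isChain_split] at hc
  have hc2 : List.IsChain (fun a b => b ∈ near a) (l1 ++ a :: b :: a :: l2) := by
    rw [List.isChain_split]
    refine ⟨hc.1, ?_⟩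
    rw [List.isChain_cons_cons, List.isChain_cons_cons]
    exact ⟨hb, (hsym _ _).1 hb, hc.2⟩
  have hfs : (l1 ++ a :: b :: a :: l2).toFinset = insert b (root :: l).toFinset := by
    rw [h12]
    ext x
    simp only [List.mem_toFinset, List.mem_append, List.mem_cons, mem_insert]
    tauto
  have hlen := congrArg List.length h12
  rw [List.length_cons, List.length_append, List.length_cons] at hlen
  rcases l1 with _ | ⟨r, l1⟩
  · rw [List.nil_append] at h12 hc2 hfs
    rw [List.cons.injEq] at h12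
    obtain ⟨h1, h2⟩ := h12
    subst h1
    refine ⟨b :: root :: l2, ?_, hc2, hfs⟩
    rw [h2]
    simp
  · rw [List.cons_append, List.cons.injEq] at h12
    rw [List.cons_append] at hc2 hfs
    obtain ⟨h1, h2⟩ := h12
    subst h1
    refine ⟨l1 ++ a :: b :: a :: l2, ?_, hc2, hfs⟩
    rw [h2]
    simp only [List.length_append, List.length_cons]
    omega

theorem leaves {X Z : Finset V} {near : V → Finset V} {root x : V}
    (hx : Relation.ReflTransGen (fun a b => b ∈ X ∧ b ∈ near a) root x)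
    (hr : root ∈ Z) (hxZ : x ∉ Z) : ∃ a ∈ Z, ∃ b, b ∉ Z ∧ b ∈ X ∧ b ∈ near a := by
  induction hx with
  | refl => exact absurd hr hxZ
  | tail h1 h2 ih =>
    rename_i b c
    by_cases hb : b ∈ Z
    · exact ⟨b, hb, c, hxZ, h2.1, h2.2⟩
    · exact ih hb

theorem exists_walk {near : V → Finset V} (hsym : ∀ x y, y ∈ near x ↔ x ∈ near y) {root : V}
    {X : Finset V} (hX : ∀ x ∈ X, Relation.ReflTransGen (fun a b => b ∈ X ∧ b ∈ near a) root x) :
    ∀ n, n ≤ (X.erase root).card → ∃ l : List V, l.length = 2 * n ∧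
      List.IsChain (fun a b => b ∈ near a) (root :: l) ∧
      ∃ Z ⊆ X.erase root, Z.card = n ∧ (root :: l).toFinset = insert root Z := by
  intro n
  induction n with
  | zero =>
    intro _
    exact ⟨[], rfl, List.isChain_singleton _, ∅, empty_subset _, rfl, by simp⟩
  | succ n ih =>
    intro hn
    obtain ⟨l, hl, hc, Z, hZ, hZn, hlZ⟩ := ih (by omega)
    obtain ⟨x, hx, hxZ⟩ : ∃ x ∈ X.erase root, x ∉ Z := by
      by_contra hcon
      push Not at hcon
      have := card_le_card (show X.erase root ⊆ Z from hcon)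
      omega
    have hx' := mem_erase.1 hx
    obtain ⟨a, ha, b, hbZ, hbX, hb⟩ := leaves (Z := insert root Z) (hX x hx'.2)
      (mem_insert_self _ _) (by
        rw [mem_insert]
        rintro (h | h)
        · exact hx'.1 h
        · exact hxZ h)
    rw [← hlZ, List.mem_toFinset] at ha
    obtain ⟨l', h1, h2, h3⟩ := detour hsym hc ha hb
    rw [mem_insert, not_or] at hbZ
    refine ⟨l', by omega, h2, insert b Z, ?_, ?_, ?_⟩
    · rw [insert_subset_iff]
      exact ⟨mem_erase.2 ⟨hbZ.1, hbX⟩, hZ⟩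
    · rw [card_insert_of_notMem hbZ.2, hZn]
    · rw [h3, hlZ, Finset.insert_comm]

theorem exists_walk' {near : V → Finset V} (hsym : ∀ x y, y ∈ near x ↔ x ∈ near y) {root : V}
    {X : Finset V} (hX : ∀ x ∈ X, Relation.ReflTransGen (fun a b => b ∈ X ∧ b ∈ near a) root x) :
    ∃ l ∈ Wk near (2 * (X.erase root).card) root, (root :: l).toFinset = insert root X := by
  obtain ⟨l, hl, hc, Z, hZ, hZn, hlZ⟩ := exists_walk hsym hX _ le_rfl
  refine ⟨l, mem_Wk _ _ _ hl hc, ?_⟩
  rw [hlZ, eq_of_subset_of_card_le hZ hZn.ge]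
  ext x
  simp only [mem_insert, mem_erase]
  tauto

/-- a family on which the set together with the root determines the set -/
theorem fam {near : V → Finset V} {Δ : ℕ} (h : ∀ x, (near x).card ≤ Δ)
    (hsym : ∀ x y, y ∈ near x ↔ x ∈ near y) (root : V) (F : Finset (Finset V))
    (hF : ∀ X ∈ F, ∀ x ∈ X, Relation.ReflTransGen (fun a b => b ∈ X ∧ b ∈ near a) root x)
    (hinj : ∀ X ∈ F, ∀ Y ∈ F, insert root X = insert root Y → X = Y)
    (t : ℝ) (ht : 0 ≤ t) (ht2 : 2 * (Δ : ℝ) ^ 2 * t ≤ 1) (c : Finset V → ℕ)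
    (hc : ∀ X ∈ F, (X.erase root).card ≤ c X) (ht1 : t ≤ 1) :
    ∑ X ∈ F, t ^ c X ≤ 2 := by
  have h1 : ∑ X ∈ F, t ^ c X ≤ ∑ X ∈ F, t ^ (X.erase root).card :=
    sum_le_sum fun X hX => pow_le_pow_of_le_one ht ht1 (hc X hX)
  refine h1.trans ?_
  set e : Finset V → ℕ := fun X => (X.erase root).card with he
  obtain ⟨N, hN⟩ : ∃ N, ∀ X ∈ F, e X ∈ range N := by
    refine ⟨F.sup e + 1, fun X hX => mem_range.2 ?_⟩
    exact Nat.lt_succ_of_le (le_sup (f := e) hX)
  rw [← sum_fiberwise_of_maps_to hN]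
  have h2 : ∀ n ∈ range N, ∑ X ∈ F with e X = n, t ^ (X.erase root).card ≤ (1 / 2 : ℝ) ^ n := by
    intro n _
    have h3 : ∑ X ∈ F with e X = n, t ^ (X.erase root).card = (F.filter fun X => e X = n).card * t ^ n := by
      rw [sum_congr rfl (g := fun _ => t ^ n), sum_const, nsmul_eq_mul]
      intro X hX
      rw [← (mem_filter.1 hX).2]
    have h4 : (F.filter fun X => e X = n).card ≤ Δ ^ (2 * n) := by
      have h5 : ∀ X ∈ F.filter (fun X => e X = n), ∃ l ∈ Wk near (2 * n) root,
          (root :: l).toFinset = insert root X := by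
        intro X hX
        have := exists_walk' hsym (hF X (mem_filter.1 hX).1)
        have h6 : (X.erase root).card = n := (mem_filter.1 hX).2
        rwa [h6] at this
      choose! φ hφ1 hφ2 using h5
      refine (card_le_card_of_injOn φ hφ1 ?_).trans (card_Wk h _ root)
      intro X hX Y hY hXY
      have hX' := mem_coe.1 hX
      have hY' := mem_coe.1 hY
      refine hinj X (mem_filter.1 hX').1 Y (mem_filter.1 hY').1 ?_
      rw [← hφ2 X hX', ← hφ2 Y hY', hXY]
    rw [h3]
    have h5 : ((F.filter fun X => e X = n).card : ℝ) ≤ (Δ : ℝ) ^ (2 * n) := by exact_mod_cast h4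
    calc ((F.filter fun X => e X = n).card : ℝ) * t ^ n ≤ (Δ : ℝ) ^ (2 * n) * t ^ n :=
          mul_le_mul_of_nonneg_right h5 (pow_nonneg ht n)
      _ = ((Δ : ℝ) ^ 2 * t) ^ n := by rw [pow_mul, mul_pow]
      _ ≤ (1 / 2) ^ n := pow_le_pow_left₀ (by positivity) (by linarith) n
  refine (sum_le_sum h2).trans ?_
  have h3 := geom_sum_eq (show (1 / 2 : ℝ) ≠ 1 by norm_num) N
  rw [h3]
  have h4 : 0 ≤ (1 / 2 : ℝ) ^ N := by positivity
  rw [div_le_iff_of_neg (by norm_num)]
  linarith

end Anim

open Anim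

theorem anim_ : S_ANIM := by
  intro V _ near Δ hΔ h hsym root F hF t ht ht2
  have hΔR : (1 : ℝ) ≤ Δ := by exact_mod_cast hΔ
  have ht1 : t ≤ 1 := by
    have : (1 : ℝ) ≤ (Δ : ℝ) ^ 2 := one_le_pow₀ hΔR
    nlinarith
  rw [← sum_filter_add_sum_filter_not F (fun X => root ∈ X)]
  have h1 : ∑ X ∈ F.filter (fun X => root ∈ X), t ^ X.card ≤ 2 := by
    refine fam h hsym root _ (fun X hX => hF X (mem_filter.1 hX).1) ?_ t ht ht2 (fun X => X.card)
      (fun X _ => card_le_card (erase_subset _ _)) ht1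
    intro X hX Y hY hXY
    rwa [insert_eq_of_mem (mem_filter.1 hX).2, insert_eq_of_mem (mem_filter.1 hY).2] at hXY
  have h2 : ∑ X ∈ F.filter (fun X => ¬ root ∈ X), t ^ X.card ≤ 2 := by
    refine fam h hsym root _ (fun X hX => hF X (mem_filter.1 hX).1) ?_ t ht ht2 (fun X => X.card)
      (fun X _ => card_le_card (erase_subset _ _)) ht1
    intro X hX Y hY hXY
    rw [← erase_insert (mem_filter.1 hX).2, ← erase_insert (mem_filter.1 hY).2, hXY]
  linarith

end Pool.Agent.R966.CP
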