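import Pool.Agent.R966.CP.Stm

set_option autoImplicit false

noncomputable section

namespace Pool.Agent.R966.CP

open Finset MeasureTheory

theorem bad_geom (n : ℕ) : ∑ l ∈ Icc 1 n, ((1 : ℝ) / 2) ^ l = 1 - (1 / 2) ^ n := by
  induction n with
  | zero => simp
  | succ n ih =>
    rw [Finset.sum_Icc_succ_top (by omega), ih]
    ring

theorem bad_ : S_BAD := by
  intro k hk P ρ τ hP hρ hτ
  set q0 : ℝ := min (1 / 2) (τ * ρ * P * (1 / 2) ^ (k + 1) * Real.exp (-(3 * k))) with hq0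
  have hq0pos : 0 < q0 := by
    rw [hq0]
    apply lt_min (by norm_num)
    positivity
  set L : ℝ := Real.exp 2 / q0 with hL
  have hLpos : 0 < L := div_pos (Real.exp_pos _) hq0pos
  have hL1 : 1 ≤ L := by
    rw [hL, le_div_iff₀ hq0pos, one_mul]
    have h1 : q0 ≤ 1 / 2 := min_le_left _ _
    have h2 : (1 : ℝ) ≤ Real.exp 2 := Real.one_le_exp (by norm_num)
    linarith
  have e1 : ∀ᶠ b : ℝ in Filter.atTop, L ^ k / (ρ * P) ≤ Real.exp b :=
    Real.tendsto_exp_atTop.eventually_ge_atTop _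
  have e2 : ∀ᶠ b : ℝ in Filter.atTop, Real.exp (3 * k) / (τ * (1 / 2) ^ k) ≤ Real.exp b :=
    Real.tendsto_exp_atTop.eventually_ge_atTop _
  have e3 : ∀ᶠ b : ℝ in Filter.atTop, 1 ≤ b := Filter.eventually_ge_atTop 1
  obtain ⟨b, hb1, hb2, hb3⟩ := (e1.and (e2.and e3)).exists
  refine ⟨b, by linarith, ?_⟩
  intro g hg hgk hgb hgs Λ hΛ hΛk n
  have hLk : L ^ k ≤ Λ ^ k := by
    rw [← hΛk]
    rw [div_le_iff₀ (by positivity)] at hb1
    calc L ^ k ≤ Real.exp b * (ρ * P) := hb1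
      _ = ρ * (P * Real.exp b) := by ring
      _ ≤ ρ * g k := mul_le_mul_of_nonneg_left hgk hρ.le
  have hLΛ : L ≤ Λ := (pow_le_pow_iff_left₀ hLpos.le hΛ.le (by omega)).1 hLk
  have hΛ1 : 1 ≤ Λ := hL1.trans hLΛ
  have hq : Real.exp 2 / Λ ≤ q0 := by
    rw [div_le_iff₀ hΛ]
    rw [hL, div_le_iff₀ hq0pos] at hLΛ
    linarith
  have hqpos : 0 < Real.exp 2 / Λ := div_pos (Real.exp_pos _) hΛ
  have hq1 : Real.exp 2 / Λ ≤ 1 / 2 := hq.trans (min_le_left _ _)
  have hq2 : Real.exp 2 / Λ ≤ τ * ρ * P * (1 / 2) ^ (k + 1) * Real.exp (-(3 * k)) :=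
    hq.trans (min_le_right _ _)
  have hE : Real.exp (3 * (k : ℝ)) * Real.exp (-(3 * k)) = 1 := by
    rw [← Real.exp_add]
    simp
  have hterm : ∀ l ∈ (Icc 1 n).filter (fun l => l ≠ k),
      Real.exp ((k : ℝ) + 2 * l) * g l / Λ ^ l ≤ τ * (1 / 2) ^ l := by
    intro l hl
    rw [Finset.mem_filter, Finset.mem_Icc] at hl
    obtain ⟨⟨hl1, -⟩, hlk⟩ := hl
    rcases lt_or_gt_of_ne hlk with h | h
    · -- l < k
      have hΛl : 1 ≤ Λ ^ l := one_le_pow₀ hΛ1
      have h1 : Real.exp ((k : ℝ) + 2 * l) * g l / Λ ^ l ≤ Real.exp ((k : ℝ) + 2 * l) * g l :=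
        div_le_self (mul_nonneg (Real.exp_pos _).le (hg l).le) hΛl
      have h2 : Real.exp ((k : ℝ) + 2 * l) ≤ Real.exp (3 * k) := by
        apply Real.exp_le_exp.2
        have : (l : ℝ) ≤ k := by exact_mod_cast h.le
        linarith
      have h3 : g l ≤ Real.exp (-b) := (hgs l hl1 h).trans (Real.exp_le_exp.2 (by linarith))
      have h4 : Real.exp (3 * k) * Real.exp (-b) ≤ τ * (1 / 2) ^ k := by
        rw [div_le_iff₀ (by positivity)] at hb2
        rw [Real.exp_neg, ← div_eq_mul_inv, div_le_iff₀ (Real.exp_pos _)]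
        linarith
      have h5 : (1 / 2 : ℝ) ^ k ≤ (1 / 2) ^ l := pow_le_pow_of_le_one (by norm_num) (by norm_num) h.le
      calc Real.exp ((k : ℝ) + 2 * l) * g l / Λ ^ l ≤ Real.exp ((k : ℝ) + 2 * l) * g l := h1
        _ ≤ Real.exp (3 * k) * Real.exp (-b) :=
          mul_le_mul h2 h3 (hg l).le (Real.exp_pos _).le
        _ ≤ τ * (1 / 2) ^ k := h4
        _ ≤ τ * (1 / 2) ^ l := mul_le_mul_of_nonneg_left h5 hτ.le
    · -- l > k
      obtain ⟨i, rfl⟩ : ∃ i, l = k + (i + 1) := ⟨l - k - 1, by omega⟩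
      have hΛkpos : 0 < Λ ^ k := pow_pos hΛ _
      have h1 : g (k + (i + 1)) / Λ ^ k ≤ 1 / (ρ * P) := by
        rw [div_le_div_iff₀ hΛkpos (by positivity), one_mul, ← hΛk]
        calc g (k + (i + 1)) * (ρ * P) ≤ Real.exp b * (ρ * P) :=
              mul_le_mul_of_nonneg_right (hgb _) (by positivity)
          _ = ρ * (P * Real.exp b) := by ring
          _ ≤ ρ * g k := mul_le_mul_of_nonneg_left hgk hρ.le
      have h2 : Real.exp ((k : ℝ) + 2 * ((k + (i + 1) : ℕ) : ℝ)) =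
          Real.exp (3 * k) * Real.exp 2 ^ (i + 1) := by
        rw [← Real.exp_nat_mul, ← Real.exp_add]
        congr 1
        push_cast
        ring
      have h3 : Real.exp ((k : ℝ) + 2 * ((k + (i + 1) : ℕ) : ℝ)) * g (k + (i + 1)) /
          Λ ^ (k + (i + 1)) = Real.exp (3 * k) * (g (k + (i + 1)) / Λ ^ k) *
            (Real.exp 2 / Λ) ^ (i + 1) := by
        rw [h2, pow_add Λ k (i + 1), div_pow]
        field_simp
      rw [h3]
      have h4 : (Real.exp 2 / Λ) ^ (i + 1) ≤ (Real.exp 2 / Λ) * (1 / 2) ^ i := by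
        rw [pow_succ, mul_comm]
        exact mul_le_mul_of_nonneg_left (pow_le_pow_left₀ hqpos.le hq1 i) hqpos.le
      calc Real.exp (3 * k) * (g (k + (i + 1)) / Λ ^ k) * (Real.exp 2 / Λ) ^ (i + 1)
          ≤ Real.exp (3 * k) * (1 / (ρ * P)) * ((Real.exp 2 / Λ) * (1 / 2) ^ i) := by
            apply mul_le_mul
            · exact mul_le_mul_of_nonneg_left h1 (Real.exp_pos _).le
            · exact h4
            · positivity
            · positivity
        _ ≤ Real.exp (3 * k) * (1 / (ρ * P)) *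
              ((τ * ρ * P * (1 / 2) ^ (k + 1) * Real.exp (-(3 * k))) * (1 / 2) ^ i) := by
            apply mul_le_mul_of_nonneg_left
            · apply mul_le_mul_of_nonneg_right hq2
              positivity
            · positivity
        _ = (Real.exp (3 * k) * Real.exp (-(3 * k))) * (τ * ((1 / 2) ^ (k + 1) * (1 / 2) ^ i)) := by
            field_simp
        _ = τ * (1 / 2) ^ (k + (i + 1)) := by
            rw [hE, one_mul, ← pow_add]
            congr 2
            omega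
  calc ∑ l ∈ (Icc 1 n).filter (fun l => l ≠ k), Real.exp ((k : ℝ) + 2 * l) * g l / Λ ^ l
      ≤ ∑ l ∈ (Icc 1 n).filter (fun l => l ≠ k), τ * (1 / 2) ^ l := Finset.sum_le_sum hterm
    _ ≤ ∑ l ∈ Icc 1 n, τ * (1 / 2) ^ l := by
        apply Finset.sum_le_sum_of_subset_of_nonneg (Finset.filter_subset _ _)
        intro l _ _
        positivity
    _ = τ * (1 - (1 / 2) ^ n) := by rw [← Finset.mul_sum, bad_geom]
    _ ≤ τ := by
        have : 0 ≤ τ * (1 / 2 : ℝ) ^ n := by positivity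
        linarith

end Pool.Agent.R966.CP
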