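import Pool.Agent.R966.CP.Stm

/-!
# CB: the central binomial coefficient
-/

set_option autoImplicit false

namespace Pool.Agent.R966.CP

namespace Cbaux

open Filter Topology

/-- the square of `C(2j,j)/4^j` times `j + 1/3` -/
noncomputable def aa (j : ℕ) : ℝ := (Real.Wallis.W j)⁻¹ * (((j : ℝ) + 1 / 3) / (2 * j + 1))

theorem aa_anti : Antitone aa := by
  refine antitone_nat_of_succ_le fun j => ?_
  unfold aa
  rw [Real.Wallis.W_succ, mul_inv, mul_assoc]
  refine mul_le_mul_of_nonneg_left ?_ (inv_nonneg.2 (Real.Wallis.W_pos j).le)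
  have hj : (0 : ℝ) ≤ j := Nat.cast_nonneg j
  push_cast
  rw [show ((2 * (j : ℝ) + 2) / (2 * j + 1) * ((2 * j + 2) / (2 * j + 3)))⁻¹ *
    (((j : ℝ) + 1 + 1 / 3) / (2 * (j + 1) + 1)) =
      ((2 * (j : ℝ) + 1) * (3 * j + 4)) / (3 * (2 * j + 2) ^ 2) by
        field_simp
        ring,
    show ((j : ℝ) + 1 / 3) / (2 * j + 1) = (3 * j + 1) / (3 * (2 * j + 1)) by
        field_simp]
  rw [div_le_div_iff₀ (by positivity) (by positivity)]
  nlinarith [mul_nonneg hj hj, mul_nonneg hj (mul_nonneg hj hj)]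

theorem aa_lim : Tendsto aa atTop (𝓝 (Real.pi)⁻¹) := by
  have h1 : Tendsto (fun j : ℕ => ((j : ℝ) + 1 / 3) / (2 * j + 1)) atTop (𝓝 (1 / 2)) := by
    have h2 : Tendsto (fun j : ℕ => (1 + 1 / 3 * ((j : ℝ))⁻¹) / (2 + ((j : ℝ))⁻¹)) atTop
        (𝓝 ((1 + 1 / 3 * 0) / (2 + 0))) := by
      refine Tendsto.div ?_ ?_ (by norm_num)
      · exact tendsto_const_nhds.add (tendsto_const_nhds.mul tendsto_inv_atTop_nhds_zero_nat)
      · exact tendsto_const_nhds.add tendsto_inv_atTop_nhds_zero_nat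
    have h3 : (1 + 1 / 3 * 0) / (2 + 0) = (1 / 2 : ℝ) := by norm_num
    rw [h3] at h2
    refine h2.congr' ?_
    filter_upwards [eventually_ge_atTop 1] with j hj
    have hj0 : (j : ℝ) ≠ 0 := by positivity
    field_simp
  have h2 := (Real.Wallis.tendsto_W_nhds_pi_div_two.inv₀ (by positivity)).mul h1
  have h3 : (Real.pi / 2)⁻¹ * (1 / 2) = (Real.pi)⁻¹ := by
    field_simp
  rw [h3] at h2
  exact h2

theorem aa_ge (j : ℕ) : (Real.pi)⁻¹ ≤ aa j := aa_anti.le_of_tendsto aa_lim j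

theorem aa_eq (j : ℕ) : (((2 * j).choose j : ℝ) / 2 ^ (2 * j + 1)) ^ 2 * (4 * ((j : ℝ) + 1 / 3)) =
    aa j := by
  unfold aa
  rw [Real.Wallis.W_eq_factorial_ratio, Nat.choose_eq_factorial_div_factorial (by omega),
    Nat.cast_div (Nat.factorial_mul_factorial_dvd_factorial (by omega)) (by positivity)]
  have h1 : 2 * j - j = j := by omega
  have h2 : (0 : ℝ) < (j.factorial : ℝ) := by exact_mod_cast j.factorial_pos
  have h3 : (0 : ℝ) < ((2 * j).factorial : ℝ) := by exact_mod_cast (2 * j).factorial_pos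
  have h4 : (2 : ℝ) ^ (4 * j) = 2 ^ j * 2 ^ j * 2 ^ j * 2 ^ j := by
    rw [← pow_add, ← pow_add, ← pow_add]
    congr 1
    ring
  have h5 : (2 : ℝ) ^ (2 * j + 1) = 2 ^ j * 2 ^ j * 2 := by
    rw [← pow_add, ← pow_succ]
    congr 1
    ring
  rw [h1, h4, h5]
  push_cast
  field_simp
  norm_num

end Cbaux

open Cbaux

theorem cb_ : S_CB := by
  intro j hj
  have h1 := aa_ge j
  rw [← aa_eq j] at h1
  obtain ⟨x, hx⟩ : ∃ x : ℝ, x = ((2 * j).choose j : ℝ) / 2 ^ (2 * j + 1) := ⟨_, rfl⟩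
  have hx0 : 0 < x := by
    rw [hx]
    have : 0 < (2 * j).choose j := Nat.choose_pos (by omega)
    positivity
  rw [← hx] at h1 ⊢
  obtain ⟨k, hk⟩ : ∃ k : ℝ, k = 2 * j + 1 := ⟨_, rfl⟩
  have hj1 : (1 : ℝ) ≤ j := by exact_mod_cast hj
  have hk3 : 3 ≤ k := by rw [hk]; linarith
  rw [← hk]
  have hpi := Real.pi_pos
  have e1 : 4 * ((j : ℝ) + 1 / 3) = 2 * (k - 1 / 3) := by rw [hk]; ring
  rw [e1] at h1
  have h2 : (2 * Real.pi * k * (1 - 1 / (3 * k)))⁻¹ ≤ x ^ 2 := by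
    have e2 : 2 * Real.pi * k * (1 - 1 / (3 * k)) = Real.pi * (2 * (k - 1 / 3)) := by
      field_simp
    have e3 : (0 : ℝ) < 2 * (k - 1 / 3) := by linarith
    rw [e2, mul_inv, ← div_eq_mul_inv, div_le_iff₀ e3]
    exact h1
  have h3 : 0 < 1 - 1 / (3 * k) := by
    rw [sub_pos, div_lt_one (by positivity)]
    linarith
  have h4 := Real.log_le_log (by positivity) h2
  rw [Real.log_inv, Real.log_mul (by positivity) h3.ne', Real.log_pow] at h4
  have h5 := Real.log_le_sub_one_of_pos h3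
  have h6 : 1 / (6 * k) = 1 / (3 * k) / 2 := by
    field_simp
    norm_num
  push_cast at h4
  linarith

end Pool.Agent.R966.CP
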