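import Pool.Agent.R966.CP.Stm

/-!
# Project CP: the finite sum inequality CONF
-/

set_option autoImplicit false

noncomputable section

namespace Pool.Agent.R966.CP

open Finset MeasureTheory

namespace Conf

/-- double counting -/
lemma dc {d : ℕ} (hcard : ∀ x : Fin d → ℤ, (nb x).card = 2 * d)
    (hsym : ∀ x y : Fin d → ℤ, y ∈ nb x ↔ x ∈ nb y) (S B : Finset (Fin d → ℤ))
    (l : (Fin d → ℤ) → ℕ) :
    ∑ y ∈ S, ∑ x ∈ nb y, (if x ∈ B then l x else 0) ≤ 2 * d * ∑ x ∈ B, l x := by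
  have e1 : ∀ y ∈ S, ∑ x ∈ nb y, (if x ∈ B then l x else 0) =
      ∑ x ∈ B, (if x ∈ nb y then l x else 0) := by
    intro y _
    rw [← Finset.sum_filter, ← Finset.sum_filter]
    apply Finset.sum_congr _ (fun _ _ => rfl)
    ext x
    rw [Finset.mem_filter, Finset.mem_filter, and_comm]
  rw [Finset.sum_congr rfl e1, Finset.sum_comm, Finset.mul_sum]
  apply Finset.sum_le_sum
  intro x _
  rw [← Finset.sum_filter, Finset.sum_const, smul_eq_mul]
  apply Nat.mul_le_mul_right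
  rw [← hcard x]
  apply Finset.card_le_card
  intro y hy
  exact (hsym y x).1 (Finset.mem_filter.1 hy).2

/-- the root contributes at most `2 d` -/
lemma root {d : ℕ} (hcard : ∀ x : Fin d → ℤ, (nb x).card = 2 * d) (S : Finset (Fin d → ℤ)) :
    ∑ y ∈ S, (if y ∈ nb (0 : Fin d → ℤ) then 1 else 0) ≤ 2 * d := by
  rw [← Finset.card_filter, ← hcard 0]
  apply Finset.card_le_card
  intro y hy
  exact (Finset.mem_filter.1 hy).2

/-- the bound for the bad sites -/
lemma bad (hlog : ∀ r : ℕ, 1 ≤ r → lf r ≤ Real.log r) (d l r : ℕ) (hd : 1 ≤ d) :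
    (l : ℝ) * lf r - Real.log (l.factorial : ℝ) - l * Real.log (2 * d) ≤ (r : ℝ) / (2 * d) := by
  have hd' : (1 : ℝ) ≤ d := by exact_mod_cast hd
  have hlf : 0 ≤ Real.log (l.factorial : ℝ) :=
    Real.log_nonneg (by exact_mod_cast Nat.factorial_pos l)
  have hl2 : 0 ≤ (l : ℝ) * Real.log (2 * d) :=
    mul_nonneg (Nat.cast_nonneg _) (Real.log_nonneg (by linarith))
  rcases Nat.eq_zero_or_pos r with h | h
  · subst h
    have : lf 0 = 0 := by simp [lf]
    rw [this]
    simp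
    linarith
  · have h1 : (l : ℝ) * lf r ≤ l * Real.log r :=
      mul_le_mul_of_nonneg_left (hlog r h) (Nat.cast_nonneg _)
    have hr : (0 : ℝ) < r := by exact_mod_cast h
    have h2 := Real.pow_div_factorial_le_exp ((r : ℝ) / (2 * d)) (by positivity) l
    have hf : (0 : ℝ) < l.factorial := by exact_mod_cast Nat.factorial_pos l
    have h3 := Real.log_le_log (by positivity) h2
    rw [Real.log_exp, Real.log_div (by positivity) hf.ne', Real.log_pow,
      Real.log_div hr.ne' (by positivity)] at h3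
    linarith

/-- the bound for the good sites -/
lemma good (hLF : ∀ N : ℕ, 3 ≤ N → ∀ r : ℕ,
    (r ≤ N → lf r ≤ lf N - ((N : ℝ) - r) / (2 * N)) ∧ (N ≤ r → lf r ≤ lf N + ((r : ℝ) - N) / N))
    (d k D a : ℕ) (hd : 1 ≤ d) (hk : 1 ≤ k) (hN : 3 ≤ 2 * d * k) (hD : D ≤ 2 * d) :
    (k : ℝ) * lf (k * D + a) ≤ k * lf (2 * d * k) - k / (4 * d) * (2 * d - D) + a / (2 * d) := by
  have hd' : (1 : ℝ) ≤ d := by exact_mod_cast hd
  have hk' : (1 : ℝ) ≤ k := by exact_mod_cast hk
  have hD' : (D : ℝ) ≤ 2 * d := by exact_mod_cast hD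
  have ha : (0 : ℝ) ≤ a := Nat.cast_nonneg a
  have hk0 : (0 : ℝ) < k := by linarith
  have hd0 : (0 : ℝ) < d := by linarith
  obtain ⟨h1, h2⟩ := hLF (2 * d * k) hN (k * D + a)
  push_cast at h1 h2
  rcases le_total (k * D + a) (2 * d * k) with h | h
  · have h3 := mul_le_mul_of_nonneg_left (h1 h) hk0.le
    have e : (k : ℝ) * (lf (2 * d * k) - (2 * d * k - (k * D + a)) / (2 * (2 * d * k))) =
        k * lf (2 * d * k) - k / (4 * d) * (2 * d - D) + a / (4 * d) := by
      field_simp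
      ring
    rw [e] at h3
    have h4 : (a : ℝ) / (4 * d) ≤ a / (2 * d) := by
      apply div_le_div_of_nonneg_left ha (by positivity)
      linarith
    linarith
  · have h3 := mul_le_mul_of_nonneg_left (h2 h) hk0.le
    have e : (k : ℝ) * (lf (2 * d * k) + ((k * D + a) - 2 * d * k) / (2 * d * k)) =
        k * lf (2 * d * k) - 2 * (k / (4 * d) * (2 * d - D)) + a / (2 * d) := by
      field_simp
      ring
    rw [e] at h3
    have h4 : 0 ≤ (k : ℝ) / (4 * d) * (2 * d - D) :=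
      mul_nonneg (by positivity) (by linarith)
    linarith

end Conf

open Conf in
theorem conf_ (hNB : S_NB) (hLF : S_LF) : S_CONF := by
  intro d k hd hN l R hR G B hG hB
  obtain ⟨hcard, hsym⟩ := hNB d
  obtain ⟨-, hlog, hLF⟩ := hLF
  have hk : 1 ≤ k := by
    rcases Nat.eq_zero_or_pos k with h | h
    · subst h; omega
    · exact h
  have hd' : (1 : ℝ) ≤ d := by exact_mod_cast hd
  have hk' : (1 : ℝ) ≤ k := by exact_mod_cast hk
  have hd0 : (0 : ℝ) < d := by linarith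
  obtain ⟨D, hD⟩ : ∃ D : (Fin d → ℤ) → ℕ, D = fun y => ((nb y).filter (fun x => x ∈ G)).card :=
    ⟨_, rfl⟩
  obtain ⟨a, ha⟩ : ∃ a : (Fin d → ℤ) → ℕ, a = fun y =>
    (∑ x ∈ nb y, (if x ∈ B then l x else 0)) + if y ∈ nb 0 then 1 else 0 := ⟨_, rfl⟩
  have hsplit : ∀ x, l x = (if x ∈ G then k else 0) + (if x ∈ B then l x else 0) := by
    intro x
    rw [hG, hB]
    simp only [Finset.mem_filter, hR]
    by_cases h0 : l x = 0
    · simp [h0]
    · by_cases h1 : l x = k
      · simp [h1]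
      · simp [h0, h1]
  have hr : ∀ y, (∑ x ∈ nb y, l x) + (if y ∈ nb 0 then 1 else 0) = k * D y + a y := by
    intro y
    rw [hD, ha]
    simp only
    rw [Finset.sum_congr rfl (fun x _ => hsplit x), Finset.sum_add_distrib, ← Finset.sum_filter,
      Finset.sum_const, smul_eq_mul]
    ring
  have hD2 : ∀ y, D y ≤ 2 * d := by
    intro y
    rw [hD, ← hcard y]
    exact Finset.card_filter_le _ _
  have hGl : ∀ y ∈ G, l y = k := by
    intro y hy
    rw [hG] at hy
    exact (Finset.mem_filter.1 hy).2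
  -- the good sites
  have h1 : ∑ y ∈ G, ((l y : ℝ) * lf ((∑ x ∈ nb y, l x) + if y ∈ nb 0 then 1 else 0) -
      Real.log ((l y).factorial : ℝ) - l y * Real.log (2 * d)) ≤
      ∑ y ∈ G, ((k * lf (2 * d * k) - Real.log (k.factorial : ℝ) - k * Real.log (2 * d)) -
        k / (4 * d) * (2 * d - D y) + a y / (2 * d)) := by
    apply Finset.sum_le_sum
    intro y hy
    rw [hGl y hy, hr y]
    have := good hLF d k (D y) (a y) hd hk hN (hD2 y)
    linarith
  -- the bad sites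
  have h2 : ∑ y ∈ B, ((l y : ℝ) * lf ((∑ x ∈ nb y, l x) + if y ∈ nb 0 then 1 else 0) -
      Real.log ((l y).factorial : ℝ) - l y * Real.log (2 * d)) ≤
      ∑ y ∈ B, ((k * D y + a y : ℕ) : ℝ) / (2 * d) := by
    apply Finset.sum_le_sum
    intro y _
    rw [hr y]
    exact bad hlog d (l y) _ hd
  have h3 : ∀ S : Finset (Fin d → ℤ), ((∑ y ∈ S, a y : ℕ) : ℝ) ≤
      2 * d * ((∑ x ∈ B, l x : ℕ) : ℝ) + 2 * d := by
    intro S
    have e1 : ∑ y ∈ S, a y ≤ 2 * d * ∑ x ∈ B, l x + 2 * d := by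
      rw [ha, Finset.sum_add_distrib]
      exact Nat.add_le_add (dc hcard hsym S B l) (root hcard S)
    exact_mod_cast e1
  have hbd : (bd nb G : ℝ) = ∑ y ∈ G, ((2 : ℝ) * d - D y) := by
    unfold bd
    rw [Nat.cast_sum]
    apply Finset.sum_congr rfl
    intro y _
    have e1 : ((nb y).filter (fun x => x ∈ G)).card + (nb y \ G).card = 2 * d := by
      rw [← hcard y, Finset.sdiff_eq_filter]
      exact Finset.card_filter_add_card_filter_not _
    have e2 : (D y : ℝ) + ((nb y \ G).card : ℝ) = 2 * d := by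
      rw [hD]
      exact_mod_cast e1
    linarith
  have hsplitR : ∀ f : (Fin d → ℤ) → ℝ, ∑ y ∈ R, f y = ∑ y ∈ G, f y + ∑ y ∈ B, f y := by
    intro f
    rw [hG, hB]
    exact (Finset.sum_filter_add_sum_filter_not R (fun x => l x = k) f).symm
  rw [hsplitR]
  have h1e : ∑ y ∈ G, ((k * lf (2 * d * k) - Real.log (k.factorial : ℝ) - k * Real.log (2 * d)) -
        k / (4 * d) * (2 * d - D y) + (a y : ℝ) / (2 * d)) =
      G.card * (k * lf (2 * d * k) - Real.log (k.factorial : ℝ) - k * Real.log (2 * d)) -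
        (k : ℝ) / (4 * d) * bd nb G + (∑ y ∈ G, (a y : ℝ)) / (2 * d) := by
    rw [Finset.sum_add_distrib, Finset.sum_sub_distrib, Finset.sum_const, nsmul_eq_mul,
      ← Finset.mul_sum, ← hbd, ← Finset.sum_div]
  rw [h1e] at h1
  rw [← Finset.sum_div] at h2
  have h4 : (∑ y ∈ B, ((k * D y + a y : ℕ) : ℝ)) ≤
      (B.card : ℝ) * (k * (2 * d)) + (2 * d * ((∑ x ∈ B, l x : ℕ) : ℝ) + 2 * d) := by
    have e1 : ∑ y ∈ B, ((k * D y + a y : ℕ) : ℝ) =
        ∑ y ∈ B, ((k : ℝ) * D y) + ((∑ y ∈ B, a y : ℕ) : ℝ) := by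
      push_cast
      rw [Finset.sum_add_distrib]
    rw [e1]
    have e2 : ∑ y ∈ B, ((k : ℝ) * D y) ≤ (B.card : ℝ) * (k * (2 * d)) := by
      rw [← nsmul_eq_mul, ← Finset.sum_const]
      apply Finset.sum_le_sum
      intro y _
      apply mul_le_mul_of_nonneg_left _ (by linarith)
      exact_mod_cast hD2 y
    linarith [h3 B]
  have h5 := h3 G
  have h6 : (∑ y ∈ G, (a y : ℝ)) / (2 * d) ≤ ((∑ x ∈ B, l x : ℕ) : ℝ) + 1 := by
    rw [div_le_iff₀ (by positivity)]
    push_cast at h5 ⊢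
    linarith
  have h7 : (∑ y ∈ B, ((k * D y + a y : ℕ) : ℝ)) / (2 * d) ≤
      (B.card : ℝ) * k + ((∑ x ∈ B, l x : ℕ) : ℝ) + 1 := by
    rw [div_le_iff₀ (by positivity)]
    linarith
  have h8 : ∑ x ∈ B, ((k : ℝ) + 2 * l x) =
      (B.card : ℝ) * k + 2 * ((∑ x ∈ B, l x : ℕ) : ℝ) := by
    rw [Finset.sum_add_distrib, Finset.sum_const, nsmul_eq_mul, ← Finset.mul_sum]
    push_cast
    ring
  rw [h8]
  linarith

end Pool.Agent.R966.CP
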