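import Pool.Agent.R966.CP.Stm

/-!
# Project CP: assembly
-/

set_option autoImplicit false

namespace Pool.Agent.R966.CP

open Finset MeasureTheory Filter

/-- the partition function is positive -/
theorem ZZ_pos {d : ℕ} (hd : 1 ≤ d) (g : ℕ → ℝ) (hg : ∀ l, 0 < g l) (n : ℕ) : 0 < ZZ d g n := by
  unfold ZZ
  have : Nonempty (Fin d × Bool) := ⟨(⟨0, hd⟩, true)⟩
  have h0 : 0 < ∑ w : Fin n → Fin d × Bool, ∏ x ∈ vis w, g (loc w x) :=
    Finset.sum_pos (fun w _ => Finset.prod_pos fun x _ => hg _) Finset.univ_nonempty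
  have hd' : (0 : ℝ) < d := by exact_mod_cast hd
  positivity

/-- the free energy for general weights -/
noncomputable def FF (d : ℕ) (g : ℕ → ℝ) : EReal :=
  limsup (fun n : ℕ => ((Real.log (ZZ d g n) / n : ℝ) : EReal)) atTop

theorem FF_le {d : ℕ} (hd : 1 ≤ d) (g : ℕ → ℝ) (hg : ∀ l, 0 < g l) (Λ C : ℝ) (hΛ : 0 < Λ)
    (hC : 0 < C) (h : ∀ n : ℕ, 1 ≤ n → ZZ d g n ≤ C * n * Λ ^ n) (B : ℝ) (hB : Real.log Λ < B) :
    FF d g ≤ (B : EReal) := by
  unfold FF
  apply limsup_le_of_le (by isBoundedDefault)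
  have hlim : Tendsto (fun n : ℕ => Real.log C / n + Real.log n / n + Real.log Λ) atTop
      (nhds (0 + 0 + Real.log Λ)) := by
    refine Tendsto.add (Tendsto.add ?_ ?_) tendsto_const_nhds
    · exact tendsto_const_nhds.div_atTop tendsto_natCast_atTop_atTop
    · have h1 := Real.isLittleO_log_id_atTop.tendsto_div_nhds_zero
      exact h1.comp tendsto_natCast_atTop_atTop
  rw [zero_add, zero_add] at hlim
  have hev := hlim.eventually (gt_mem_nhds hB)
  filter_upwards [hev, eventually_ge_atTop 1] with n hn hn1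
  rw [EReal.coe_le_coe_iff]
  refine le_trans ?_ hn.le
  have hn0 : (0 : ℝ) < n := by exact_mod_cast hn1
  have h2 : Real.log (ZZ d g n) ≤ Real.log (C * n * Λ ^ n) :=
    Real.log_le_log (ZZ_pos hd g hg n) (h n hn1)
  rw [Real.log_mul (by positivity) (by positivity), Real.log_mul hC.ne' hn0.ne', Real.log_pow] at h2
  calc Real.log (ZZ d g n) / n ≤ (Real.log C + Real.log n + n * Real.log Λ) / n := by
        gcongr
    _ = Real.log C / n + Real.log n / n + Real.log Λ := by field_simp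

theorem le_FF (g : ℕ → ℝ) (hg : ∀ l, 0 < g l) (k : ℕ) (hk : 1 ≤ k) (c q : ℝ) (hc : 0 < c)
    (hq : 0 < q) (h : ∀ m : ℕ, 1 ≤ m → c * q ^ (m - 1) / 2 ^ (k * m) ≤ ZZ 1 g (k * m)) (A : ℝ)
    (hA : A < Real.log (q / 2 ^ k) / k) : (A : EReal) ≤ FF 1 g := by
  unfold FF
  apply le_limsup_of_frequently_le _ (by isBoundedDefault)
  have hk0 : (0 : ℝ) < k := by exact_mod_cast hk
  have hlim : Tendsto (fun m : ℕ => (Real.log c - Real.log q) / k / m + Real.log (q / 2 ^ k) / k)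
      atTop (nhds (0 + Real.log (q / 2 ^ k) / k)) := by
    refine Tendsto.add ?_ tendsto_const_nhds
    exact tendsto_const_nhds.div_atTop tendsto_natCast_atTop_atTop
  rw [zero_add] at hlim
  have hev := (hlim.eventually (lt_mem_nhds hA)).and (eventually_ge_atTop 1)
  rw [Filter.eventually_atTop] at hev
  obtain ⟨m0, hm0⟩ := hev
  rw [Filter.frequently_atTop]
  intro N
  refine ⟨k * (max m0 N), ?_, ?_⟩
  · calc N ≤ max m0 N := le_max_right _ _
      _ ≤ k * max m0 N := Nat.le_mul_of_pos_left _ hk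
  set m := max m0 N with hm
  obtain ⟨h1, h2⟩ := hm0 m (le_max_left _ _)
  rw [EReal.coe_le_coe_iff]
  refine h1.le.trans ?_
  have hmr : (0 : ℝ) < m := by exact_mod_cast h2
  have h3 := h m h2
  have h4 : Real.log (c * q ^ (m - 1) / 2 ^ (k * m)) ≤ Real.log (ZZ 1 g (k * m)) :=
    Real.log_le_log (by positivity) h3
  rw [Real.log_div (by positivity) (by positivity), Real.log_mul hc.ne' (by positivity),
    Real.log_pow, Real.log_pow] at h4
  have h5 : ((m - 1 : ℕ) : ℝ) = m - 1 := by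
    rw [Nat.cast_sub h2, Nat.cast_one]
  rw [h5] at h4
  push_cast at h4 ⊢
  rw [le_div_iff₀ (by positivity), Real.log_div hq.ne' (by positivity), Real.log_pow]
  refine le_trans (le_of_eq ?_) h4
  field_simp
  ring

/-- a function that is larger at `1` than at `N` has a descent -/
theorem exists_descent (F : ℕ → EReal) (N : ℕ) (hN : 1 ≤ N) (h : F N < F 1) :
    ∃ d, 1 ≤ d ∧ d < N ∧ F (d + 1) < F d := by
  by_contra hcon
  push Not at hcon
  have : ∀ m, 1 ≤ m → m ≤ N → F 1 ≤ F m := by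
    intro m hm
    induction m, hm using Nat.le_induction with
    | base => intro _; exact le_rfl
    | succ m hm ih =>
      intro hmN
      exact (ih (by omega)).trans (hcon m hm (by omega))
  exact absurd (this N hN le_rfl) (not_le.2 h)

/-- the core: weights for which dimension one beats dimension `N` -/
theorem core (hUP : S_UP) (hLOW : S_LOW) (hRHO : S_RHO) (hCB : S_CB) (hBAD : S_BAD)
    (N H k j : ℕ) (hj : 1 ≤ j) (hk : k = 2 * j + 1) (hH : 1 ≤ H) (hN : N = H * H)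
    (n1 : 16 * LL N ≤ k) (n2 : LL N * (2 / (H : ℝ) + 28 / (H : ℝ)) ≤ 1 / (12 * k))
    (n3 : (1 + Real.log (2 * (N : ℝ) * (k : ℝ)) / 2) / (2 * (N : ℝ)) ≤ 1 / (48 * k))
    (P : ℝ) (hP : 0 < P) : ∃ b : ℝ, 0 < b ∧ ∀ g : ℕ → ℝ, g 0 = 1 → (∀ l, 0 < g l) →
      P * Real.exp b ≤ g k → (∀ l, g l ≤ Real.exp b) →
      (∀ l, 1 ≤ l → l < k → g l ≤ Real.exp (-8 * b)) → FF N g < FF 1 g := by
  have hk2 : 2 ≤ k := by omega
  have hk1 : 1 ≤ k := by omega
  have hkr : (0 : ℝ) < k := by exact_mod_cast hk1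
  have hN1 : 1 ≤ N := by rw [hN]; exact Nat.mul_pos hH hH
  set lρ : ℝ := k * lf (2 * N * k) - Real.log (k.factorial : ℝ) - k * Real.log (2 * N) with hlρ
  set η : ℝ := 1 / (12 * k) with hη
  obtain ⟨b, hb, hbad⟩ := hBAD k hk2 P (Real.exp (lρ + η)) (Real.exp (-LL N)) hP (Real.exp_pos _)
    (Real.exp_pos _)
  refine ⟨b, hb, ?_⟩
  intro g g0 gpos gk gle gsm
  have hgk := gpos k
  set Λ : ℝ := Real.exp ((lρ + η + Real.log (g k)) / k) with hΛ
  have hΛ0 : 0 < Λ := Real.exp_pos _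
  have hΛk : Real.exp (lρ + η) * g k = Λ ^ k := by
    rw [hΛ, ← Real.exp_nat_mul, mul_div_cancel₀ _ hkr.ne', Real.exp_add (lρ + η), Real.exp_log hgk]
  have hb2 := hbad g gpos gk gle gsm Λ hΛ0 hΛk
  have h32 : 3 ≤ 2 * N * k := by nlinarith
  have hup := hUP N H H k hH hH hN hk1 h32 n1 η Λ n2 hΛ0 g (fun l => (gpos l).le) g0
    (by rw [← hΛk]) hb2
  have hlow : ∀ m : ℕ, 1 ≤ m → g j * g (j + 1) * (g k * ((2 * j).choose j : ℝ)) ^ (m - 1) /
      2 ^ (k * m) ≤ ZZ 1 g (k * m) := by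
    intro m hm
    rw [hk]
    exact hLOW g (fun l => (gpos l).le) j m hj hm
  have hch : (0 : ℝ) < ((2 * j).choose j : ℝ) := by
    exact_mod_cast Nat.choose_pos (by omega)
  -- the two rates
  have hr := hRHO N k hN1 hk1
  have hc := hCB j hj
  have e1 : Real.log (g k * ((2 * j).choose j : ℝ) / 2 ^ k) =
      Real.log (g k) + Real.log (((2 * j).choose j : ℝ) / 2 ^ (2 * j + 1)) := by
    rw [mul_div_assoc, Real.log_mul hgk.ne' (by positivity), hk]
  have e2 : (2 * (j : ℝ) + 1) = k := by rw [hk]; push_cast; ring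
  rw [e2] at hc
  have hlogΛ : Real.log Λ = (lρ + η + Real.log (g k)) / k := by rw [hΛ, Real.log_exp]
  have hgap : Real.log Λ + 1 / (48 * k) / k <
      Real.log (g k * ((2 * j).choose j : ℝ) / 2 ^ k) / k := by
    rw [hlogΛ, e1, ← add_div, div_lt_div_iff_of_pos_right hkr]
    have h1 : lρ ≤ -(Real.log (2 * Real.pi * k) / 2) + 1 / (48 * k) := by
      refine hr.trans ?_
      gcongr
    have h2 : (1 : ℝ) / (48 * k) + 1 / (12 * k) + 1 / (48 * k) < 1 / (6 * k) := by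
      rw [← sub_pos]
      have : (1 : ℝ) / (6 * k) - (1 / (48 * k) + 1 / (12 * k) + 1 / (48 * k)) = 1 / (24 * k) := by
        field_simp
        norm_num
      rw [this]
      positivity
    rw [hη]
    linarith
  set x : ℝ := Real.log Λ + 1 / (48 * k) / k / 2 with hx
  have hpos : (0 : ℝ) < 1 / (48 * k) / k := by positivity
  have hF1 : FF N g ≤ (x : EReal) :=
    FF_le hN1 g gpos Λ (Real.exp 2 * 4) hΛ0 (by positivity) hup x (by rw [hx]; linarith)
  have hF2 : ((x + 1 / (48 * k) / k / 4 : ℝ) : EReal) ≤ FF 1 g := by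
    refine le_FF g gpos k hk1 (g j * g (j + 1)) (g k * ((2 * j).choose j : ℝ)) ?_ ?_ hlow _ ?_
    · exact mul_pos (gpos _) (gpos _)
    · exact mul_pos hgk hch
    · rw [hx]; linarith
  refine lt_of_le_of_lt hF1 (lt_of_lt_of_le ?_ hF2)
  rw [EReal.coe_lt_coe_iff]
  linarith

theorem main (hUP : S_UP) (hLOW : S_LOW) (hRHO : S_RHO) (hCB : S_CB) (hBAD : S_BAD)
    (hNUM : S_NUM) (hLAW : S_LAW) :
    ∃ (μ : Measure ℝ) (δ β : ℝ), Adm μ ∧ 0 ≤ δ ∧ 0 < β ∧
      FF (2 ^ 1000) (gst μ δ β) < FF 1 (gst μ δ β) ∧ gst μ δ β 0 = 1 := by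
  obtain ⟨n1, n2, n3⟩ := hNUM
  obtain ⟨H, hH⟩ : ∃ H : ℕ, H = 2 ^ 500 := ⟨_, rfl⟩
  obtain ⟨N, hN⟩ : ∃ N : ℕ, N = 2 ^ 1000 := ⟨_, rfl⟩
  have hNH : N = H * H := by rw [hN, hH, ← pow_add]
  have hH1 : 1 ≤ H := by rw [hH]; exact Nat.one_le_two_pow
  rw [← hN] at n1 n2 n3
  rw [← hH] at n2
  rw [← hN]
  obtain ⟨k, hk⟩ : ∃ k : ℕ, k = 100001 := ⟨_, rfl⟩
  have hkr : (100001 : ℝ) = (k : ℝ) := by rw [hk]; norm_num
  rw [← hk] at n3
  rw [hkr] at n1 n2 n3
  obtain ⟨μ, c, P, hadm, hc, hP, hlaw⟩ := hLAW k (by omega)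
  obtain ⟨b, hb, hcore⟩ := core hUP hLOW hRHO hCB hBAD N H k 50000 (by norm_num)
    (by rw [hk]) hH1 hNH n1 n2 n3 P hP
  obtain ⟨g0, gpos, gk, gle, gsm⟩ := hlaw b hb _ rfl
  exact ⟨μ, 2 * b / c, b / c ^ 2, hadm, by positivity, by positivity,
    hcore _ g0 gpos gk gle gsm, g0⟩

end Pool.Agent.R966.CP
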