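import Pool.Agent.R966.CP.Stm

/-!
# Project CP, LAW: the two point law of the charges
-/

set_option autoImplicit false

noncomputable section

namespace Pool.Agent.R966.CP

open Finset MeasureTheory

namespace Law

/-- the two point law -/
def mu (p q x y : ℝ) : Measure ℝ :=
  ENNReal.ofReal p • Measure.dirac x + ENNReal.ofReal q • Measure.dirac y

lemma int_dirac (f : ℝ → ℝ) (x p : ℝ) :
    Integrable f (ENNReal.ofReal p • Measure.dirac x) :=
  (integrable_dirac (by simp)).smul_measure ENNReal.ofReal_ne_top

lemma integrable_mu (f : ℝ → ℝ) (p q x y : ℝ) : Integrable f (mu p q x y) :=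
  (int_dirac f x p).add_measure (int_dirac f y q)

lemma integral_mu (f : ℝ → ℝ) {p q : ℝ} (hp : 0 ≤ p) (hq : 0 ≤ q) (x y : ℝ) :
    ∫ t, f t ∂(mu p q x y) = p * f x + q * f y := by
  unfold mu
  rw [integral_add_measure (int_dirac f x p) (int_dirac f y q), integral_smul_measure,
    integral_smul_measure, integral_dirac, integral_dirac, ENNReal.toReal_ofReal hp,
    ENNReal.toReal_ofReal hq, smul_eq_mul, smul_eq_mul]

lemma prob_mu {p q : ℝ} (hp : 0 ≤ p) (hq : 0 ≤ q) (h : p + q = 1) (x y : ℝ) :
    IsProbabilityMeasure (mu p q x y) := by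
  constructor
  unfold mu
  rw [Measure.add_apply, Measure.smul_apply, Measure.smul_apply, measure_univ, measure_univ,
    smul_eq_mul, smul_eq_mul, mul_one, mul_one, ← ENNReal.ofReal_add hp hq, h,
    ENNReal.ofReal_one]

lemma ae_mu (p q x y : ℝ) : ∀ᵐ t ∂(mu p q x y), t = x ∨ t = y := by
  unfold mu
  rw [ae_add_measure_iff]
  constructor
  · refine Measure.ae_smul_measure ?_ _
    rw [ae_dirac_eq]
    exact Or.inl rfl
  · refine Measure.ae_smul_measure ?_ _
    rw [ae_dirac_eq]
    exact Or.inr rfl

lemma mu_singleton_left (p q x y : ℝ) : ENNReal.ofReal p ≤ mu p q x y {x} := by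
  unfold mu
  rw [Measure.add_apply, Measure.smul_apply, Measure.dirac_apply_of_mem (Set.mem_singleton x),
    smul_eq_mul, mul_one]
  exact le_self_add

lemma mu_singleton_right (p q x y : ℝ) : ENNReal.ofReal q ≤ mu p q x y {y} := by
  unfold mu
  rw [Measure.add_apply, Measure.smul_apply, Measure.smul_apply,
    Measure.dirac_apply_of_mem (Set.mem_singleton y), smul_eq_mul, smul_eq_mul, mul_one]
  exact le_add_self

end Law

open Law in
theorem law_ : S_LAW := by
  intro k hk
  have hk' : (2 : ℝ) ≤ k := by exact_mod_cast hk
  set u : ℝ := 3 * k - 2 with hu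
  have hu0 : 0 < u := by linarith
  set c : ℝ := 1 / Real.sqrt (3 * u) with hc
  have hs0 : 0 < Real.sqrt (3 * u) := Real.sqrt_pos.2 (by linarith)
  have hc0 : 0 < c := by positivity
  have hc2 : c ^ 2 * (3 * u) = 1 := by
    rw [hc, div_pow, Real.sq_sqrt (by linarith), one_pow]
    field_simp
  set p : ℝ := 3 / (3 * k + 1) with hp
  set q : ℝ := u / (3 * k + 1) with hq
  have hp0 : 0 < p := by positivity
  have hq0 : 0 < q := by positivity
  have hpq : p + q = 1 := by
    rw [hp, hq, hu]
    field_simp
    ring
  have hpu : p * u = 3 * q := by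
    rw [hp, hq]
    ring
  haveI hprob : IsProbabilityMeasure (mu p q (c * u) (-(3 * c))) :=
    prob_mu hp0.le hq0.le hpq _ _
  refine ⟨mu p q (c * u) (-(3 * c)), c, p * q ^ (k - 1), ?_, hc0, by positivity, ?_⟩
  · refine ⟨hprob, fun δ => integrable_mu _ _ _ _ _, ?_, ?_⟩
    · rw [integral_mu _ hp0.le hq0.le]
      linear_combination c * hpu
    · rw [integral_mu _ hp0.le hq0.le]
      have h1 : p * u * u + q * 9 = 3 * u := by
        rw [hpu]
        have h2 : q * (u + 3) = u := by
          rw [hq, hu]
          field_simp
          ring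
        linear_combination 3 * h2
      linear_combination c ^ 2 * h1 + hc2
  · intro b hb g hg
    -- the exponent
    have hexp : ∀ s : ℝ, 2 * b / c * s - b / c ^ 2 * s ^ 2 = b * (1 - (s / c - 1) ^ 2) := by
      intro s
      field_simp
      ring
    have hgl : ∀ l, g l = ∫ ω : Fin l → ℝ, Real.exp (b * (1 - ((∑ i, ω i) / c - 1) ^ 2))
        ∂(Measure.pi fun _ => mu p q (c * u) (-(3 * c))) := by
      intro l
      rw [hg]
      unfold gst
      refine integral_congr_ae (Filter.Eventually.of_forall fun ω => ?_)
      change Real.exp _ = Real.exp _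
      rw [hexp]
    have hle : ∀ s : ℝ, Real.exp (b * (1 - (s / c - 1) ^ 2)) ≤ Real.exp b := by
      intro s
      refine Real.exp_le_exp.2 ?_
      nlinarith [sq_nonneg (s / c - 1)]
    have hint : ∀ l, Integrable (fun ω : Fin l → ℝ =>
        Real.exp (b * (1 - ((∑ i, ω i) / c - 1) ^ 2)))
        (Measure.pi fun _ => mu p q (c * u) (-(3 * c))) := by
      intro l
      refine Integrable.of_bound (Continuous.aestronglyMeasurable (by fun_prop)) (Real.exp b)
        (Filter.Eventually.of_forall fun ω => ?_)
      rw [Real.norm_eq_abs, abs_of_pos (Real.exp_pos _)]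
      exact hle _
    have hconst : ∀ (l : ℕ) (a : ℝ), ∫ _ω : Fin l → ℝ, a
        ∂(Measure.pi fun _ => mu p q (c * u) (-(3 * c))) = a := by
      intro l a
      rw [integral_const]
      simp
    have hae : ∀ l, ∀ᵐ ω ∂(Measure.pi fun _ : Fin l => mu p q (c * u) (-(3 * c))),
        ∀ i, ω i = c * u ∨ ω i = -(3 * c) := by
      intro l
      rw [ae_all_iff]
      intro i
      exact (measurePreserving_eval (fun _ : Fin l => mu p q (c * u) (-(3 * c))) i
        ).quasiMeasurePreserving.ae (ae_mu p q (c * u) (-(3 * c)))
    refine ⟨?_, ?_, ?_, ?_, ?_⟩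
    · rw [hgl]
      have : ∀ ω : Fin 0 → ℝ, Real.exp (b * (1 - ((∑ i, ω i) / c - 1) ^ 2)) = 1 := by
        intro ω
        simp
      simp only [this]
      exact hconst 0 1
    · intro l
      rw [hgl]
      exact integral_exp_pos (hint l)
    · -- the lower bound
      rw [hgl]
      obtain ⟨k', rfl⟩ : ∃ k', k = k' + 1 := ⟨k - 1, by omega⟩
      let ω0 : Fin (k' + 1) → ℝ := fun i => if i = 0 then c * u else -(3 * c)
      have hsum : (∑ i, ω0 i) / c = 1 := by
        have h1 : ∑ i, ω0 i = c * u + k' * (-(3 * c)) := by
          rw [Fin.sum_univ_succ]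
          have h2 : ∀ i : Fin k', ω0 i.succ = -(3 * c) := fun i => if_neg (Fin.succ_ne_zero i)
          have h3 : ω0 0 = c * u := if_pos rfl
          simp only [h2, h3, sum_const, card_univ, Fintype.card_fin, nsmul_eq_mul]
        rw [h1, hu]
        push_cast
        field_simp
        ring
      have hm : ENNReal.ofReal (p * q ^ k') ≤
          (Measure.pi fun _ : Fin (k' + 1) => mu p q (c * u) (-(3 * c))) {ω0} := by
        rw [← Set.univ_pi_singleton, Measure.pi_pi, Fin.prod_univ_succ,
          ENNReal.ofReal_mul hp0.le, ENNReal.ofReal_pow hq0.le]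
        have h2 : ∀ i : Fin k', ω0 i.succ = -(3 * c) := fun i => if_neg (Fin.succ_ne_zero i)
        have h3 : ω0 0 = c * u := if_pos rfl
        refine mul_le_mul' ?_ ?_
        · rw [h3]
          exact mu_singleton_left _ _ _ _
        · calc ENNReal.ofReal q ^ k' = ∏ _i : Fin k', ENNReal.ofReal q := by
                rw [prod_const, card_univ, Fintype.card_fin]
            _ ≤ _ := by
                refine prod_le_prod' fun i _ => ?_
                rw [h2]
                exact mu_singleton_right _ _ _ _
      have hm' : p * q ^ k' ≤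
          (Measure.pi fun _ : Fin (k' + 1) => mu p q (c * u) (-(3 * c))).real {ω0} := by
        rw [Measure.real]
        exact (ENNReal.ofReal_le_iff_le_toReal (measure_ne_top _ _)).1 hm
      calc p * q ^ (k' + 1 - 1) * Real.exp b = p * q ^ k' * Real.exp b := by
            rw [Nat.add_sub_cancel]
        _ ≤ (Measure.pi fun _ : Fin (k' + 1) => mu p q (c * u) (-(3 * c))).real {ω0} *
            Real.exp b := mul_le_mul_of_nonneg_right hm' (Real.exp_pos _).le
        _ = ∫ ω in {ω0}, Real.exp (b * (1 - ((∑ i, ω i) / c - 1) ^ 2))
            ∂(Measure.pi fun _ : Fin (k' + 1) => mu p q (c * u) (-(3 * c))) := by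
            rw [integral_singleton, hsum, smul_eq_mul]
            norm_num
        _ ≤ _ := setIntegral_le_integral (hint (k' + 1))
            (Filter.Eventually.of_forall fun ω => (Real.exp_pos _).le)
    · intro l
      rw [hgl]
      calc _ ≤ ∫ _ω : Fin l → ℝ, Real.exp b
            ∂(Measure.pi fun _ => mu p q (c * u) (-(3 * c))) :=
            integral_mono (hint l) (integrable_const _) fun ω => hle _
        _ = _ := hconst l _
    · intro l hl1 hlk
      rw [hgl]
      calc _ ≤ ∫ _ω : Fin l → ℝ, Real.exp (-8 * b)
            ∂(Measure.pi fun _ => mu p q (c * u) (-(3 * c))) := by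
            refine integral_mono_ae (hint l) (integrable_const _) ?_
            filter_upwards [hae l] with ω hω
            refine Real.exp_le_exp.2 ?_
            -- the number of ups
            set a : ℕ := (univ.filter fun i => ω i = c * u).card with ha
            have h1 : ∑ i, ω i = c * ((a : ℝ) * (3 * k + 1) - 3 * l) := by
              have h2 : ∀ i, ω i = (if ω i = c * u then c * (3 * k + 1) else 0) - 3 * c := by
                intro i
                by_cases h : ω i = c * u
                · rw [if_pos h, h, hu]
                  ring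
                · rw [if_neg h]
                  rcases hω i with h' | h'
                  · exact absurd h' h
                  · rw [h']
                    ring
              rw [sum_congr rfl fun i _ => h2 i, sum_sub_distrib, ← sum_filter, sum_const,
                sum_const, card_univ, Fintype.card_fin, nsmul_eq_mul, nsmul_eq_mul, ← ha]
              ring
            have h3 : (∑ i, ω i) / c = (a : ℝ) * (3 * k + 1) - 3 * l := by
              rw [h1]
              field_simp
            rw [h3]
            have hl1' : (1 : ℝ) ≤ l := by exact_mod_cast hl1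
            have hlk' : (l : ℝ) + 1 ≤ k := by exact_mod_cast hlk
            have h4 : 9 ≤ ((a : ℝ) * (3 * k + 1) - 3 * l - 1) ^ 2 := by
              rcases Nat.eq_zero_or_pos a with h | h
              · rw [h]
                push_cast
                nlinarith
              · have h5 : (1 : ℝ) ≤ a := by exact_mod_cast h
                have h6 : 3 ≤ (a : ℝ) * (3 * k + 1) - 3 * l - 1 := by nlinarith
                nlinarith
            nlinarith
        _ = _ := hconst l _

end Pool.Agent.R966.CP
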