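import Pool.Agent.R966.CP.Stm

/-!
CP-LF (MP_de3d19_pr)
-/

set_option autoImplicit false

namespace Pool.Agent.R966.CP

open Finset

namespace LfAux

theorem log_fac_succ (r : ℕ) :
    Real.log ((r + 1).factorial : ℝ) = Real.log (r.factorial : ℝ) + Real.log (r + 1) := by
  rw [Nat.factorial_succ, Nat.cast_mul, Real.log_mul (by positivity) (by positivity), add_comm]
  push_cast
  rfl

theorem up (r : ℕ) : Real.log (r.factorial : ℝ) ≤ r * Real.log ((r + 1) / 2) := by
  induction r with
  | zero => simp
  | succ r ih =>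
    rw [log_fac_succ]
    have hr : (0 : ℝ) < (r : ℝ) + 1 := by positivity
    have hb : (2 : ℝ) ≤ (1 + 1 / ((r : ℝ) + 1)) ^ (r + 1) := by
      have h := one_add_mul_le_pow (a := 1 / ((r : ℝ) + 1)) (by
        have : 0 < 1 / ((r : ℝ) + 1) := by positivity
        linarith) (r + 1)
      refine le_trans (le_of_eq ?_) h
      push_cast
      field_simp
      norm_num
    have hl : Real.log 2 ≤ ((r : ℝ) + 1) * Real.log (1 + 1 / ((r : ℝ) + 1)) := by
      have h := Real.log_le_log (by norm_num) hb
      rw [Real.log_pow] at h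
      push_cast at h
      exact h
    have e1 : (1 : ℝ) + 1 / ((r : ℝ) + 1) = ((r : ℝ) + 2) / ((r : ℝ) + 1) := by
      field_simp
      ring
    rw [e1, Real.log_div (by positivity) (by positivity)] at hl
    rw [Real.log_div (by positivity) (by norm_num)] at ih
    push_cast
    rw [show (r : ℝ) + 1 + 1 = (r : ℝ) + 2 by ring, Real.log_div (by positivity) (by norm_num)]
    nlinarith

theorem low (r : ℕ) : (r : ℝ) * Real.log r - r ≤ Real.log (r.factorial : ℝ) := by
  induction r with
  | zero => simp
  | succ r ih =>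
    rw [log_fac_succ]
    rcases Nat.eq_zero_or_pos r with rfl | hr
    · simp
    · have hr0 : (0 : ℝ) < r := by exact_mod_cast hr
      have h1 : Real.log (((r : ℝ) + 1) / r) ≤ 1 / r := by
        have h := Real.log_le_sub_one_of_pos (x := ((r : ℝ) + 1) / r) (by positivity)
        refine h.trans (le_of_eq ?_)
        field_simp
        ring
      rw [Real.log_div (by positivity) hr0.ne', le_div_iff₀ hr0] at h1
      push_cast
      nlinarith

theorem succ_mul (r : ℕ) : ((r : ℝ) + 1) * lf (r + 1) = Real.log (r.factorial : ℝ) + Real.log (r + 1) := by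
  unfold lf
  rw [log_fac_succ]
  push_cast
  field_simp

theorem self_mul (r : ℕ) (hr : 1 ≤ r) : (r : ℝ) * lf r = Real.log (r.factorial : ℝ) := by
  unfold lf
  have : (r : ℝ) ≠ 0 := by
    have : (0 : ℝ) < r := by exact_mod_cast hr
    exact this.ne'
  field_simp

theorem lf_le (r : ℕ) (hr : 1 ≤ r) : lf r ≤ Real.log ((r + 1) / 2) := by
  have h := up r
  rw [← self_mul r hr] at h
  exact le_of_mul_le_mul_left h (by exact_mod_cast hr)

theorem le_lf (r : ℕ) (hr : 1 ≤ r) : Real.log r - 1 ≤ lf r := by
  have h := low r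
  rw [← self_mul r hr] at h
  have hr0 : (0 : ℝ) < r := by exact_mod_cast hr
  refine le_of_mul_le_mul_left (le_trans (le_of_eq ?_) h) hr0
  ring

theorem step_low (r : ℕ) (hr : 1 ≤ r) : lf r + 1 / (2 * ((r : ℝ) + 1)) ≤ lf (r + 1) := by
  have h1 := succ_mul r
  rw [← self_mul r hr] at h1
  have h2 := lf_le r hr
  rw [Real.log_div (by positivity) (by norm_num)] at h2
  have h3 := Real.log_two_gt_d9
  have hr0 : (0 : ℝ) < (r : ℝ) + 1 := by positivity
  have h4 : ((r : ℝ) + 1) * (lf r + 1 / (2 * ((r : ℝ) + 1))) ≤ ((r : ℝ) + 1) * lf (r + 1) := by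
    have e : ((r : ℝ) + 1) * (lf r + 1 / (2 * ((r : ℝ) + 1))) = r * lf r + lf r + 1 / 2 := by
      field_simp
    rw [e, h1]
    linarith
  exact le_of_mul_le_mul_left h4 hr0

theorem step_up (r : ℕ) (hr : 1 ≤ r) : lf (r + 1) ≤ lf r + 1 / (r : ℝ) := by
  have h1 := succ_mul r
  rw [← self_mul r hr] at h1
  have h2 := le_lf r hr
  have hr0 : (0 : ℝ) < r := by exact_mod_cast hr
  have h3 : Real.log (((r : ℝ) + 1) / r) ≤ 1 / r := by
    have h := Real.log_le_sub_one_of_pos (x := ((r : ℝ) + 1) / r) (by positivity)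
    refine h.trans (le_of_eq ?_)
    field_simp
    ring
  rw [Real.log_div (by positivity) hr0.ne'] at h3
  have hr1 : (0 : ℝ) < (r : ℝ) + 1 := by positivity
  have h4 : ((r : ℝ) + 1) * lf (r + 1) ≤ ((r : ℝ) + 1) * (lf r + 1 / (r : ℝ)) := by
    have e : ((r : ℝ) + 1) * (lf r + 1 / (r : ℝ)) = r * lf r + lf r + 1 + 1 / r := by
      field_simp
      ring
    rw [e, h1]
    linarith
  exact le_of_mul_le_mul_left h4 hr1

theorem mono : Monotone lf := by
  refine monotone_nat_of_le_succ fun r => ?_
  rcases Nat.eq_zero_or_pos r with rfl | hr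
  · simp [lf]
  · have h := step_low r hr
    have : 0 < 1 / (2 * ((r : ℝ) + 1)) := by positivity
    linarith

theorem lf_three : 1 / 2 ≤ lf 3 := by
  have h6 : Real.log (6 : ℝ) = 2 * Real.log 2 + Real.log (3 / 2) := by
    rw [show (2 : ℝ) * Real.log 2 = Real.log 2 + Real.log 2 by ring,
      ← Real.log_mul (by norm_num) (by norm_num), ← Real.log_mul (by norm_num) (by norm_num)]
    norm_num
  have h1 : (1 : ℝ) / 3 ≤ Real.log (3 / 2) := by
    have h := Real.one_sub_inv_le_log_of_pos (x := (3 / 2 : ℝ)) (by norm_num)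
    norm_num at h ⊢
    exact h
  have h3 := Real.log_two_gt_d9
  unfold lf
  have : ((Nat.factorial 3 : ℕ) : ℝ) = 6 := by norm_num [Nat.factorial]
  rw [this, h6]
  push_cast
  linarith

end LfAux

open LfAux in
theorem lf_ : S_LF := by
  refine ⟨mono, fun r hr => ?_, fun N hN r => ⟨fun hr => ?_, fun hr => ?_⟩⟩
  · refine (lf_le r hr).trans (Real.log_le_log (by positivity) ?_)
    have : (1 : ℝ) ≤ r := by exact_mod_cast hr
    linarith
  · rcases Nat.eq_zero_or_pos r with rfl | hr0
    · have h1 := mono hN
      have h2 := lf_three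
      have hN0 : (0 : ℝ) < N := by
        have : (3 : ℝ) ≤ N := by exact_mod_cast hN
        linarith
      have e : ((N : ℝ) - (0 : ℕ)) / (2 * N) = 1 / 2 := by
        push_cast
        field_simp
        ring
      rw [e]
      have e0 : lf 0 = 0 := by simp [lf]
      rw [e0]
      linarith
    · have key : ∀ M : ℕ, r ≤ M → lf r ≤ lf M - ((M : ℝ) - r) / (2 * M) := by
        intro M hM
        induction M, hM using Nat.le_induction with
        | base => simp
        | succ M hM ih =>
          have hM0 : (0 : ℝ) < M := by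
            have : 0 < M := lt_of_lt_of_le hr0 hM
            exact_mod_cast this
          have h1 := step_low M (le_trans hr0 hM)
          have h2 : (((M + 1 : ℕ) : ℝ) - r) / (2 * ((M + 1 : ℕ) : ℝ)) =
              ((M : ℝ) - r) / (2 * ((M : ℝ) + 1)) + 1 / (2 * ((M : ℝ) + 1)) := by
            push_cast
            rw [← add_div]
            congr 1
            ring
          have h3 : ((M : ℝ) - r) / (2 * ((M : ℝ) + 1)) ≤ ((M : ℝ) - r) / (2 * M) := by
            have h4 : (0 : ℝ) ≤ (M : ℝ) - r := by
              have : (r : ℝ) ≤ M := by exact_mod_cast hM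
              linarith
            exact div_le_div_of_nonneg_left h4 (by positivity) (by linarith)
          rw [h2]
          linarith
      exact key N hr
  · have hN0 : (0 : ℝ) < N := by
      have : (3 : ℝ) ≤ N := by exact_mod_cast hN
      linarith
    induction r, hr using Nat.le_induction with
    | base => simp
    | succ r hr ih =>
      have hr1 : 1 ≤ r := by omega
      have h1 := step_up r hr1
      have h2 : 1 / (r : ℝ) ≤ 1 / (N : ℝ) := by
        apply one_div_le_one_div_of_le hN0
        exact_mod_cast hr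
      have e : (((r + 1 : ℕ) : ℝ) - N) / N = ((r : ℝ) - N) / N + 1 / N := by
        push_cast
        rw [← add_div]
        congr 1
        ring
      rw [e]
      linarith

end Pool.Agent.R966.CP
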