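import Mathlib

/-!
# Project CP (helper966): the charged polymer, dimension monotonicity (MP_de3d19_pr)

Definitions and the statements of the parts.
-/

set_option autoImplicit false

noncomputable section

namespace Pool.Agent.R966.CP

open Finset MeasureTheory

/-! ### The walk -/

/-- the vector of a step -/
def st {d : ℕ} (s : Fin d × Bool) : Fin d → ℤ := Pi.single s.1 (if s.2 then 1 else -1)

/-- the position after `i` steps of the walk that starts at `0` -/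
def pos {d n : ℕ} (w : Fin n → Fin d × Bool) (i : ℕ) : Fin d → ℤ :=
  ∑ j : Fin n, if (j : ℕ) < i then st (w j) else 0

/-- the number of visits to `x` at the times `1, ..., n` -/
def loc {d n : ℕ} (w : Fin n → Fin d × Bool) (x : Fin d → ℤ) : ℕ :=
  (univ.filter fun i : Fin n => pos w ((i : ℕ) + 1) = x).card

/-- the sites visited at the times `1, ..., n` -/
def vis {d n : ℕ} (w : Fin n → Fin d × Bool) : Finset (Fin d → ℤ) :=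
  univ.image fun i : Fin n => pos w ((i : ℕ) + 1)

/-- the partition function of simple random walk with the weight `∏ g (local time)` -/
def ZZ (d : ℕ) (g : ℕ → ℝ) (n : ℕ) : ℝ :=
  (∑ w : Fin n → Fin d × Bool, ∏ x ∈ vis w, g (loc w x)) / (2 * d : ℝ) ^ n

/-- the neighbours of a site -/
def nb {d : ℕ} (x : Fin d → ℤ) : Finset (Fin d → ℤ) :=
  univ.image fun s : Fin d × Bool => x + st s

/-- `log (r!) / r` -/
def lf (r : ℕ) : ℝ := Real.log (r.factorial : ℝ) / r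

/-! ### The law of the charges -/

/-- the weight of a local time -/
def gst (μ : Measure ℝ) (δ β : ℝ) (l : ℕ) : ℝ :=
  ∫ ω : Fin l → ℝ, Real.exp (δ * ∑ i, ω i - β * (∑ i, ω i) ^ 2) ∂(Measure.pi fun _ => μ)

/-- admissible laws -/
structure Adm (μ : Measure ℝ) : Prop where
  prob : IsProbabilityMeasure μ
  expo : ∀ δ : ℝ, Integrable (fun x : ℝ => Real.exp (δ * x)) μ
  mean : ∫ x : ℝ, x ∂μ = 0
  var : ∫ x : ℝ, x ^ 2 ∂μ = 1

/-- LAW: a law for which `g` prefers the local time `k`. -/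
def S_LAW : Prop := ∀ k : ℕ, 2 ≤ k → ∃ (μ : Measure ℝ) (c P : ℝ), Adm μ ∧ 0 < c ∧ 0 < P ∧
  ∀ b : ℝ, 0 < b → ∀ g : ℕ → ℝ, g = gst μ (2 * b / c) (b / c ^ 2) →
    g 0 = 1 ∧ (∀ l, 0 < g l) ∧ P * Real.exp b ≤ g k ∧ (∀ l, g l ≤ Real.exp b) ∧
      ∀ l, 1 ≤ l → l < k → g l ≤ Real.exp (-8 * b)

/-! ### Elementary parts -/

/-- NB: neighbours. -/
def S_NB : Prop := ∀ d : ℕ, (∀ x : Fin d → ℤ, (nb x).card = 2 * d) ∧
  (∀ x y : Fin d → ℤ, y ∈ nb x ↔ x ∈ nb y)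

/-- LF: the function `log (r!) / r`. -/
def S_LF : Prop := Monotone lf ∧ (∀ r : ℕ, 1 ≤ r → lf r ≤ Real.log r) ∧ ∀ N : ℕ, 3 ≤ N → ∀ r : ℕ,
  (r ≤ N → lf r ≤ lf N - ((N : ℝ) - r) / (2 * N)) ∧ (N ≤ r → lf r ≤ lf N + ((r : ℝ) - N) / N)

/-- WALK: the number of walks with given local times (from the inequality of Brègman). -/
def S_WALK : Prop := ∀ d n : ℕ, 1 ≤ d → 1 ≤ n → ∀ (l : (Fin d → ℤ) → ℕ) (R : Finset (Fin d → ℤ)),
  (∀ x, x ∈ R ↔ l x ≠ 0) →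
  open Classical in
  ((univ.filter fun w : Fin n → Fin d × Bool => ∀ x, loc w x = l x).card : ℝ) *
      ∏ y ∈ R, ((l y).factorial : ℝ) ≤
    R.card * Real.exp (∑ y ∈ R, l y * lf ((∑ x ∈ nb y, l x) + if y ∈ nb 0 then 1 else 0))

/-- number of boundary edges -/
def bd {V : Type} [DecidableEq V] (nbr : V → Finset V) (G : Finset V) : ℕ :=
  ∑ x ∈ G, (nbr x \ G).card

/-- CONF: the bound of WALK in terms of the sites visited exactly `k` times. -/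
def S_CONF : Prop := ∀ d k : ℕ, 1 ≤ d → 3 ≤ 2 * d * k →
  ∀ (l : (Fin d → ℤ) → ℕ) (R : Finset (Fin d → ℤ)), (∀ x, x ∈ R ↔ l x ≠ 0) →
  ∀ G B : Finset (Fin d → ℤ), G = R.filter (fun x => l x = k) → B = R.filter (fun x => l x ≠ k) →
  ∑ y ∈ R, (l y * lf ((∑ x ∈ nb y, l x) + if y ∈ nb 0 then 1 else 0) -
      Real.log ((l y).factorial : ℝ) - l y * Real.log (2 * d)) ≤
    2 + G.card * (k * lf (2 * d * k) - Real.log (k.factorial : ℝ) - k * Real.log (2 * d)) -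
      (k : ℝ) / (4 * d) * bd nb G + ∑ x ∈ B, ((k : ℝ) + 2 * l x)

/-- SAMP: a sparse subset of `G` from which `G` can be recovered up to few errors. -/
def S_SAMP : Prop := ∀ (V : Type) [DecidableEq V] (nbr : V → Finset V) (D M h : ℕ),
  (∀ x y, y ∈ nbr x ↔ x ∈ nbr y) → 1 ≤ M → 1 ≤ h → D = h * M → (∀ x, (nbr x).card = 2 * D) →
  ∀ G : Finset V, ∃ Q ⊆ G, ∃ E : Finset V,
    (∀ x ∈ G, 3 * D < 2 * (nbr x ∩ G).card → (nbr x ∩ Q).card ≤ h → x ∈ E) ∧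
    (∀ x, x ∉ G → 2 * (nbr x ∩ G).card < D → h < (nbr x ∩ Q).card → x ∈ E) ∧
    (M : ℝ) * Q.card + (h : ℝ) / 14 * E.card ≤ 2 * G.card

/-- ANIM: the number of connected sets. -/
def S_ANIM : Prop := ∀ (V : Type) [DecidableEq V] (near : V → Finset V) (Δ : ℕ), 1 ≤ Δ →
  (∀ x, (near x).card ≤ Δ) → (∀ x y, y ∈ near x ↔ x ∈ near y) → ∀ (root : V)
  (F : Finset (Finset V)),
  (∀ X ∈ F, ∀ x ∈ X, Relation.ReflTransGen (fun a b => b ∈ X ∧ b ∈ near a) root x) →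
  ∀ t : ℝ, 0 ≤ t → 2 * (Δ : ℝ) ^ 2 * t ≤ 1 → ∑ X ∈ F, t ^ X.card ≤ 4

/-- the constant in LM -/
def LL (D : ℕ) : ℝ := Real.log (16 * (2 * D + 1 : ℝ) ^ 6)

/-- LM: sum over pairs of sets with connected union. -/
def S_LM : Prop := ∀ (V : Type) [DecidableEq V] (nbr : V → Finset V) (D M h : ℕ),
  (∀ x y, y ∈ nbr x ↔ x ∈ nbr y) → 1 ≤ M → 1 ≤ h → D = h * M → (∀ x, (nbr x).card = 2 * D) →
  ∀ (η pen ε : ℝ), LL D * (2 / M + 28 / h) ≤ η → 4 * LL D ≤ pen * D → 0 ≤ ε →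
    ε ≤ Real.exp (-LL D) →
  ∀ (root : V) (P : Finset (Finset V × Finset V)),
  (∀ p ∈ P, Disjoint p.1 p.2 ∧
    ∀ x ∈ p.1 ∪ p.2, Relation.ReflTransGen (fun a b => b ∈ p.1 ∪ p.2 ∧ b ∈ nbr a) root x) →
  ∑ p ∈ P, Real.exp (-(η * p.1.card) - pen * bd nbr p.1) * ε ^ p.2.card ≤ 4

/-- UP: the upper bound in high dimension. -/
def S_UP : Prop := ∀ (D M h k : ℕ), 1 ≤ M → 1 ≤ h → D = h * M → 1 ≤ k → 3 ≤ 2 * D * k →
  16 * LL D ≤ k → ∀ (η Λ : ℝ), LL D * (2 / M + 28 / h) ≤ η → 0 < Λ →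
  ∀ g : ℕ → ℝ, (∀ l, 0 ≤ g l) → g 0 = 1 →
  Real.exp (k * lf (2 * D * k) - Real.log (k.factorial : ℝ) - k * Real.log (2 * D) + η) * g k =
    Λ ^ k →
  (∀ n : ℕ, ∑ l ∈ (Icc 1 n).filter (fun l => l ≠ k), Real.exp ((k : ℝ) + 2 * l) * g l / Λ ^ l ≤
    Real.exp (-LL D)) →
  ∀ n : ℕ, 1 ≤ n → ZZ D g n ≤ Real.exp 2 * 4 * n * Λ ^ n

/-- LOW: the lower bound in dimension one. -/
def S_LOW : Prop := ∀ (g : ℕ → ℝ), (∀ l, 0 ≤ g l) → ∀ j m : ℕ, 1 ≤ j → 1 ≤ m →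
  g j * g (j + 1) * (g (2 * j + 1) * ((2 * j).choose j : ℝ)) ^ (m - 1) / 2 ^ ((2 * j + 1) * m) ≤
    ZZ 1 g ((2 * j + 1) * m)

/-- RHO: from the formula of Stirling. -/
def S_RHO : Prop := ∀ D k : ℕ, 1 ≤ D → 1 ≤ k →
  k * lf (2 * D * k) - Real.log (k.factorial : ℝ) - k * Real.log (2 * D) ≤
    -(Real.log (2 * Real.pi * k) / 2) + (1 + Real.log (2 * D * k) / 2) / (2 * D)

/-- CB: the central binomial coefficient. -/
def S_CB : Prop := ∀ j : ℕ, 1 ≤ j →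
  -(Real.log (2 * Real.pi * (2 * j + 1)) / 2) + 1 / (6 * (2 * j + 1)) ≤
    Real.log (((2 * j).choose j : ℝ) / 2 ^ (2 * j + 1))

/-- NUM: the numbers. -/
def S_NUM : Prop := 16 * LL (2 ^ 1000) ≤ 100001 ∧
  LL (2 ^ 1000) * (2 / ((2 ^ 500 : ℕ) : ℝ) + 28 / ((2 ^ 500 : ℕ) : ℝ)) ≤ 1 / (12 * 100001) ∧
  (1 + Real.log (2 * ((2 ^ 1000 : ℕ) : ℝ) * (100001 : ℕ)) / 2) / (2 * ((2 ^ 1000 : ℕ) : ℝ)) ≤
    1 / (48 * 100001)

/-- BAD: the sum over the other local times is small. -/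
def S_BAD : Prop := ∀ k : ℕ, 2 ≤ k → ∀ P ρ τ : ℝ, 0 < P → 0 < ρ → 0 < τ → ∃ b : ℝ, 0 < b ∧
  ∀ g : ℕ → ℝ, (∀ l, 0 < g l) → P * Real.exp b ≤ g k → (∀ l, g l ≤ Real.exp b) →
    (∀ l, 1 ≤ l → l < k → g l ≤ Real.exp (-8 * b)) → ∀ Λ : ℝ, 0 < Λ → ρ * g k = Λ ^ k →
    ∀ n : ℕ, ∑ l ∈ (Icc 1 n).filter (fun l => l ≠ k), Real.exp ((k : ℝ) + 2 * l) * g l / Λ ^ l ≤ τ

end Pool.Agent.R966.CP
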