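import Mathlib
import Pool.Agent.R966.CP.Stm

/-!
# Project CP, part LM: sum over pairs of sets with connected union
-/

set_option autoImplicit false

noncomputable section

namespace Pool.Agent.R966.CP

open Finset

namespace Lm

variable {V : Type} [DecidableEq V]

/-- closed neighbourhood -/
def N1 (nbr : V → Finset V) (x : V) : Finset V := insert x (nbr x)

/-- points at distance at most 3 -/
def near (nbr : V → Finset V) (x : V) : Finset V :=
  (N1 nbr x).biUnion fun y => (N1 nbr y).biUnion (N1 nbr)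

/-- the reconstruction -/
def Gh (nbr : V → Finset V) (h : ℕ) (Q : Finset V) : Finset V :=
  (Q.biUnion nbr).filter fun x => h < (nbr x ∩ Q).card

/-- the errors of the reconstruction -/
def Corr (nbr : V → Finset V) (h : ℕ) (Q G : Finset V) : Finset V :=
  (G \ Gh nbr h Q) ∪ (Gh nbr h Q \ G)

theorem mem_Gh {nbr : V → Finset V} (hsym : ∀ x y, y ∈ nbr x ↔ x ∈ nbr y) {h : ℕ} {Q : Finset V}
    {x : V} : x ∈ Gh nbr h Q ↔ h < (nbr x ∩ Q).card := by
  unfold Gh
  rw [mem_filter, and_iff_right_iff_imp]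
  intro hx
  obtain ⟨q, hq⟩ := card_pos.1 (lt_of_le_of_lt (Nat.zero_le h) hx)
  rw [mem_inter] at hq
  exact mem_biUnion.2 ⟨q, hq.2, (hsym x q).1 hq.1⟩

theorem mem_Corr {nbr : V → Finset V} {h : ℕ} {Q G : Finset V} {x : V} :
    x ∈ Corr nbr h Q G ↔ (x ∈ G ∧ x ∉ Gh nbr h Q) ∨ (x ∈ Gh nbr h Q ∧ x ∉ G) := by
  unfold Corr
  rw [mem_union, mem_sdiff, mem_sdiff]

theorem N1_symm {nbr : V → Finset V} (hsym : ∀ x y, y ∈ nbr x ↔ x ∈ nbr y) (x y : V) :
    y ∈ N1 nbr x ↔ x ∈ N1 nbr y := by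
  unfold N1
  rw [mem_insert, mem_insert, hsym x y, eq_comm]

theorem mem_near {nbr : V → Finset V} {x z : V} :
    z ∈ near nbr x ↔ ∃ y ∈ N1 nbr x, ∃ y' ∈ N1 nbr y, z ∈ N1 nbr y' := by
  unfold near
  simp only [mem_biUnion]

theorem near_symm {nbr : V → Finset V} (hsym : ∀ x y, y ∈ nbr x ↔ x ∈ nbr y) (x z : V) :
    z ∈ near nbr x ↔ x ∈ near nbr z := by
  rw [mem_near, mem_near]
  constructor
  · rintro ⟨y, hy, y', hy', hz⟩
    exact ⟨y', (N1_symm hsym _ _).1 hz, y, (N1_symm hsym _ _).1 hy', (N1_symm hsym _ _).1 hy⟩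
  · rintro ⟨y, hy, y', hy', hz⟩
    exact ⟨y', (N1_symm hsym _ _).1 hz, y, (N1_symm hsym _ _).1 hy', (N1_symm hsym _ _).1 hy⟩

theorem self_N1 (nbr : V → Finset V) (x : V) : x ∈ N1 nbr x := mem_insert_self _ _

theorem N1_card {nbr : V → Finset V} {D : ℕ} (hcard : ∀ x, (nbr x).card = 2 * D) (x : V) :
    (N1 nbr x).card ≤ 2 * D + 1 := by
  unfold N1
  rw [← hcard x]
  exact card_insert_le _ _

theorem near_card {nbr : V → Finset V} {D : ℕ} (hcard : ∀ x, (nbr x).card = 2 * D) (x : V) :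
    (near nbr x).card ≤ (2 * D + 1) ^ 3 := by
  unfold near
  have h1 : ∀ y, ((N1 nbr y).biUnion (N1 nbr)).card ≤ (2 * D + 1) * (2 * D + 1) := fun y =>
    (card_biUnion_le_card_mul _ _ _ fun z _ => N1_card hcard z).trans
      (Nat.mul_le_mul_right _ (N1_card hcard y))
  have h2 := (card_biUnion_le_card_mul (N1 nbr x) (fun y => (N1 nbr y).biUnion (N1 nbr)) _
    fun y _ => h1 y).trans (Nat.mul_le_mul_right _ (N1_card hcard x))
  calc _ ≤ (2 * D + 1) * ((2 * D + 1) * (2 * D + 1)) := h2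
    _ = (2 * D + 1) ^ 3 := by ring

/-- points of `G` with many neighbours outside -/
def A1 (nbr : V → Finset V) (D : ℕ) (G : Finset V) : Finset V :=
  G.filter fun x => 2 * (nbr x ∩ G).card ≤ 3 * D

/-- points outside of `G` with many neighbours in `G` -/
def A2 (nbr : V → Finset V) (D : ℕ) (G : Finset V) : Finset V :=
  (G.biUnion nbr \ G).filter fun x => D ≤ 2 * (nbr x ∩ G).card

theorem A1_card {nbr : V → Finset V} {D : ℕ} (hcard : ∀ x, (nbr x).card = 2 * D) (G : Finset V) :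
    (A1 nbr D G).card * D ≤ 2 * bd nbr G := by
  have h1 : (A1 nbr D G).card * D ≤ ∑ x ∈ A1 nbr D G, 2 * (nbr x \ G).card := by
    rw [← smul_eq_mul, ← sum_const]
    apply sum_le_sum
    intro x hx
    have h2 := (mem_filter.1 hx).2
    have h3 := card_sdiff_add_card_inter (nbr x) G
    rw [hcard] at h3
    omega
  refine h1.trans ?_
  rw [← mul_sum]
  unfold bd
  refine Nat.mul_le_mul_left _ (sum_le_sum_of_subset (filter_subset _ _))

theorem A2_card {nbr : V → Finset V} (hsym : ∀ x y, y ∈ nbr x ↔ x ∈ nbr y) {D : ℕ}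
    (G : Finset V) : (A2 nbr D G).card * D ≤ 2 * bd nbr G := by
  have h1 : (A2 nbr D G).card * D ≤ ∑ x ∈ A2 nbr D G, 2 * (nbr x ∩ G).card := by
    rw [← smul_eq_mul, ← sum_const]
    exact sum_le_sum fun x hx => (mem_filter.1 hx).2
  refine h1.trans ?_
  rw [← mul_sum]
  refine Nat.mul_le_mul_left _ ?_
  have h2 : ∀ x, (nbr x ∩ G).card = ∑ y ∈ G, if y ∈ nbr x then 1 else 0 := by
    intro x
    rw [← card_filter]
    congr 1
    ext y
    rw [mem_inter, mem_filter, and_comm]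
  simp only [h2]
  rw [sum_comm]
  unfold bd
  apply sum_le_sum
  intro y _
  rw [← card_filter]
  apply card_le_card
  intro x hx
  rw [mem_filter] at hx
  rw [mem_sdiff]
  exact ⟨(hsym x y).1 hx.2, (mem_sdiff.1 (mem_filter.1 hx.1).1).2⟩

theorem Corr_sub {nbr : V → Finset V} (hsym : ∀ x y, y ∈ nbr x ↔ x ∈ nbr y) {D h : ℕ} (hD : 1 ≤ D)
    {G Q E : Finset V}
    (h1 : ∀ x ∈ G, 3 * D < 2 * (nbr x ∩ G).card → (nbr x ∩ Q).card ≤ h → x ∈ E)
    (h2 : ∀ x, x ∉ G → 2 * (nbr x ∩ G).card < D → h < (nbr x ∩ Q).card → x ∈ E) :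
    Corr nbr h Q G ⊆ (A1 nbr D G ∪ A2 nbr D G) ∪ E := by
  intro x hx
  rw [mem_Corr] at hx
  rw [mem_union, mem_union]
  rcases hx with ⟨h3, h4⟩ | ⟨h3, h4⟩
  · rw [mem_Gh hsym, not_lt] at h4
    by_cases h5 : 3 * D < 2 * (nbr x ∩ G).card
    · exact Or.inr (h1 x h3 h5 h4)
    · exact Or.inl (Or.inl (mem_filter.2 ⟨h3, not_lt.1 h5⟩))
  · rw [mem_Gh hsym] at h3
    by_cases h5 : 2 * (nbr x ∩ G).card < D
    · exact Or.inr (h2 x h4 h5 h3)
    · refine Or.inl (Or.inr (mem_filter.2 ⟨?_, not_lt.1 h5⟩))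
      rw [mem_sdiff]
      refine ⟨?_, h4⟩
      have h6 : 0 < (nbr x ∩ G).card := by omega
      obtain ⟨q, hq⟩ := card_pos.1 h6
      rw [mem_inter] at hq
      exact mem_biUnion.2 ⟨q, hq.2, (hsym x q).1 hq.1⟩

theorem LL_nonneg (D : ℕ) : 0 ≤ LL D := by
  unfold LL
  apply Real.log_nonneg
  have h1 : (1 : ℝ) ≤ 2 * D + 1 := by
    have : (0 : ℝ) ≤ D := Nat.cast_nonneg _
    linarith
  have h2 : (1 : ℝ) ≤ (2 * D + 1) ^ 6 := one_le_pow₀ h1
  linarith

theorem exp_LL (D : ℕ) : Real.exp (-LL D) = 1 / (16 * (2 * D + 1 : ℝ) ^ 6) := by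
  unfold LL
  rw [Real.exp_neg, Real.exp_log (by positivity), one_div]

theorem conn {nbr : V → Finset V} (hsym : ∀ x y, y ∈ nbr x ↔ x ∈ nbr y) {h : ℕ} (root : V)
    (G B Q : Finset V) (hQ : Q ⊆ G)
    (hc : ∀ x ∈ G ∪ B, Relation.ReflTransGen (fun a b => b ∈ G ∪ B ∧ b ∈ nbr a) root x) :
    ∀ x ∈ Q ∪ Corr nbr h Q G ∪ B, Relation.ReflTransGen
      (fun a b => b ∈ Q ∪ Corr nbr h Q G ∪ B ∧ b ∈ near nbr a) root x := by
  have hxi : ∀ z ∈ G ∪ B, ∃ y ∈ Q ∪ Corr nbr h Q G ∪ B, y ∈ N1 nbr z := by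
    intro z hz
    by_cases hzB : z ∈ B
    · exact ⟨z, mem_union_right _ hzB, self_N1 _ _⟩
    have hzG : z ∈ G := (mem_union.1 hz).resolve_right hzB
    by_cases hzC : z ∈ Gh nbr h Q
    · rw [mem_Gh hsym] at hzC
      obtain ⟨q, hq⟩ := card_pos.1 (lt_of_le_of_lt (Nat.zero_le h) hzC)
      rw [mem_inter] at hq
      exact ⟨q, mem_union_left _ (mem_union_left _ hq.2), mem_insert_of_mem hq.1⟩
    · exact ⟨z, mem_union_left _ (mem_union_right _ (mem_Corr.2 (Or.inl ⟨hzG, hzC⟩))),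
        self_N1 _ _⟩
  have hC : ∀ z, Relation.ReflTransGen (fun a b => b ∈ G ∪ B ∧ b ∈ nbr a) root z →
      ∃ y, Relation.ReflTransGen
        (fun a b => b ∈ Q ∪ Corr nbr h Q G ∪ B ∧ b ∈ near nbr a) root y ∧ z ∈ N1 nbr y := by
    intro z hz
    induction hz with
    | refl => exact ⟨root, Relation.ReflTransGen.refl, self_N1 _ _⟩
    | tail _ hbc ih =>
      rename_i b c _
      obtain ⟨y, hy, hby⟩ := ih
      obtain ⟨y', hy', hcy'⟩ := hxi c hbc.1
      refine ⟨y', hy.tail ⟨hy', ?_⟩, (N1_symm hsym _ _).1 hcy'⟩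
      exact mem_near.2 ⟨b, hby, c, mem_insert_of_mem hbc.2, hcy'⟩
  intro x hx
  by_cases hxGB : x ∈ G ∪ B
  · obtain ⟨y, hy, hxy⟩ := hC x (hc x hxGB)
    exact hy.tail ⟨hx, mem_near.2 ⟨x, hxy, x, self_N1 _ _, self_N1 _ _⟩⟩
  · rw [mem_union, not_or] at hxGB
    have hxC : x ∈ Corr nbr h Q G := by
      rcases mem_union.1 hx with h1 | h1
      · rcases mem_union.1 h1 with h2 | h2
        · exact absurd (hQ h2) hxGB.1
        · exact h2
      · exact absurd h1 hxGB.2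
    rcases mem_Corr.1 hxC with h1 | h1
    · exact absurd h1.1 hxGB.1
    · have h2 := h1.1
      rw [mem_Gh hsym] at h2
      obtain ⟨q, hq⟩ := card_pos.1 (lt_of_le_of_lt (Nat.zero_le h) h2)
      rw [mem_inter] at hq
      obtain ⟨y, hy, hqy⟩ := hC q (hc q (mem_union_left _ (hQ hq.2)))
      refine hy.tail ⟨hx, mem_near.2 ⟨q, hqy, x, ?_, self_N1 _ _⟩⟩
      exact mem_insert_of_mem ((hsym x q).1 hq.1)

theorem weight {nbr : V → Finset V} (hsym : ∀ x y, y ∈ nbr x ↔ x ∈ nbr y) {D M h : ℕ}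
    (hM : 1 ≤ M) (hh : 1 ≤ h) (hDM : D = h * M) (hcard : ∀ x, (nbr x).card = 2 * D)
    {η pen ε : ℝ} (hη : LL D * (2 / M + 28 / h) ≤ η) (hpen : 4 * LL D ≤ pen * D) (hε : 0 ≤ ε)
    (hε2 : ε ≤ Real.exp (-LL D)) (G B Q E : Finset V)
    (h1 : ∀ x ∈ G, 3 * D < 2 * (nbr x ∩ G).card → (nbr x ∩ Q).card ≤ h → x ∈ E)
    (h2 : ∀ x, x ∉ G → 2 * (nbr x ∩ G).card < D → h < (nbr x ∩ Q).card → x ∈ E)
    (h3 : (M : ℝ) * Q.card + (h : ℝ) / 14 * E.card ≤ 2 * G.card) :
    Real.exp (-(η * G.card) - pen * bd nbr G) * ε ^ B.card ≤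
      Real.exp (-LL D) ^ (Q ∪ Corr nbr h Q G ∪ B).card := by
  have hD : 1 ≤ D := by rw [hDM]; exact Nat.mul_pos hh hM
  have hDr : (0 : ℝ) < D := by exact_mod_cast hD
  have hMr : (0 : ℝ) < M := by exact_mod_cast hM
  have hhr : (0 : ℝ) < h := by exact_mod_cast hh
  have hLL := LL_nonneg D
  -- cardinality of X
  have hX : (Q ∪ Corr nbr h Q G ∪ B).card ≤
      Q.card + ((A1 nbr D G).card + (A2 nbr D G).card + E.card) + B.card := by
    refine (card_union_le _ _).trans (Nat.add_le_add_right ?_ _)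
    refine (card_union_le _ _).trans (Nat.add_le_add_left ?_ _)
    refine (card_le_card (Corr_sub hsym hD h1 h2)).trans ?_
    refine (card_union_le _ _).trans (Nat.add_le_add_right (card_union_le _ _) _)
  have hXr : ((Q ∪ Corr nbr h Q G ∪ B).card : ℝ) ≤
      Q.card + (((A1 nbr D G).card : ℝ) + (A2 nbr D G).card + E.card) + B.card := by
    exact_mod_cast hX
  have hA1 : ((A1 nbr D G).card : ℝ) * D ≤ 2 * bd nbr G := by exact_mod_cast A1_card hcard G
  have hA2 : ((A2 nbr D G).card : ℝ) * D ≤ 2 * bd nbr G := by exact_mod_cast A2_card hsym G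
  generalize ((A1 nbr D G).card : ℝ) = a1 at hXr hA1
  generalize ((A2 nbr D G).card : ℝ) = a2 at hXr hA2
  have hq0 : (0 : ℝ) ≤ Q.card := Nat.cast_nonneg _
  have he0 : (0 : ℝ) ≤ E.card := Nat.cast_nonneg _
  have hg0 : (0 : ℝ) ≤ G.card := Nat.cast_nonneg _
  have hb0 : (0 : ℝ) ≤ bd nbr G := Nat.cast_nonneg _
  -- Q and E
  have hQ1 : (Q.card : ℝ) ≤ 2 / M * G.card := by
    rw [div_mul_eq_mul_div, le_div_iff₀ hMr]
    have : 0 ≤ (h : ℝ) / 14 * E.card := by positivity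
    linarith
  have hE1 : (E.card : ℝ) ≤ 28 / h * G.card := by
    rw [div_mul_eq_mul_div, le_div_iff₀ hhr]
    have : 0 ≤ (M : ℝ) * Q.card := by positivity
    linarith
  have hQE : LL D * (Q.card + E.card) ≤ η * G.card := by
    calc LL D * (Q.card + E.card) ≤ LL D * ((2 / M + 28 / h) * G.card) := by
          apply mul_le_mul_of_nonneg_left _ hLL
          linarith
      _ = LL D * (2 / M + 28 / h) * G.card := by ring
      _ ≤ η * G.card := mul_le_mul_of_nonneg_right hη hg0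
  have hAA : LL D * (a1 + a2) ≤ pen * bd nbr G := by
    have h4 : LL D * (a1 + a2) * D ≤ pen * bd nbr G * D := by
      calc LL D * (a1 + a2) * D = LL D * (a1 * D + a2 * D) := by ring
        _ ≤ LL D * (4 * bd nbr G) := by
          apply mul_le_mul_of_nonneg_left _ hLL
          linarith
        _ = 4 * LL D * bd nbr G := by ring
        _ ≤ pen * D * bd nbr G := mul_le_mul_of_nonneg_right hpen hb0
        _ = pen * bd nbr G * D := by ring
    exact le_of_mul_le_mul_right h4 hDr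
  have h5 : ε ^ B.card ≤ Real.exp (-(LL D * B.card)) := by
    calc ε ^ B.card ≤ Real.exp (-LL D) ^ B.card := pow_le_pow_left₀ hε hε2 _
      _ = Real.exp (-(LL D * B.card)) := by rw [← Real.exp_nat_mul]; congr 1; ring
  calc Real.exp (-(η * G.card) - pen * bd nbr G) * ε ^ B.card
      ≤ Real.exp (-(η * G.card) - pen * bd nbr G) * Real.exp (-(LL D * B.card)) :=
        mul_le_mul_of_nonneg_left h5 (Real.exp_pos _).le
    _ = Real.exp (-(η * G.card) - pen * bd nbr G - LL D * B.card) := by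
        rw [← Real.exp_add]; rfl
    _ ≤ Real.exp (-(LL D * (Q ∪ Corr nbr h Q G ∪ B).card)) := by
        apply Real.exp_le_exp.2
        have h6 : LL D * (Q ∪ Corr nbr h Q G ∪ B).card ≤
            LL D * (Q.card + (a1 + a2 + E.card) + B.card) := mul_le_mul_of_nonneg_left hXr hLL
        linarith
    _ = Real.exp (-LL D) ^ (Q ∪ Corr nbr h Q G ∪ B).card := by
        rw [← Real.exp_nat_mul]; congr 1; ring

end Lm

open Lm

theorem lm_ (hS : S_SAMP) (hA : S_ANIM) : S_LM := by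
  intro V _ nbr D M h hsym hM hh hDM hcard η pen ε hη hpen hε hε2 root P hP
  choose Q hQ E h1 h2 h3 using hS V nbr D M h hsym hM hh hDM hcard
  have hD : 1 ≤ D := by rw [hDM]; exact Nat.mul_pos hh hM
  let X : Finset V × Finset V → Finset V := fun p => Q p.1 ∪ Corr nbr h (Q p.1) p.1 ∪ p.2
  have hw : ∑ p ∈ P, Real.exp (-(η * p.1.card) - pen * bd nbr p.1) * ε ^ p.2.card ≤
      ∑ p ∈ P, Real.exp (-LL D) ^ (X p).card :=
    sum_le_sum fun p _ => weight hsym hM hh hDM hcard hη hpen hε hε2 p.1 p.2 (Q p.1) (E p.1)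
      (h1 p.1) (h2 p.1) (h3 p.1)
  refine hw.trans ?_
  have hfib : ∑ p ∈ P, Real.exp (-LL D) ^ (X p).card =
      ∑ Y ∈ P.image X, ∑ p ∈ P.filter (fun p => X p = Y), Real.exp (-LL D) ^ (X p).card :=
    (sum_fiberwise_of_maps_to (fun p hp => mem_image_of_mem X hp) _).symm
  rw [hfib]
  have hterm : ∀ Y ∈ P.image X, ∑ p ∈ P.filter (fun p => X p = Y), Real.exp (-LL D) ^ (X p).card ≤
      (8 * Real.exp (-LL D)) ^ Y.card := by
    intro Y _
    have e1 : ∑ p ∈ P.filter (fun p => X p = Y), Real.exp (-LL D) ^ (X p).card =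
        ((P.filter (fun p => X p = Y)).card : ℝ) * Real.exp (-LL D) ^ Y.card := by
      rw [sum_congr rfl (g := fun _ => Real.exp (-LL D) ^ Y.card)]
      · rw [sum_const, nsmul_eq_mul]
      · intro p hp
        rw [(mem_filter.1 hp).2]
    rw [e1, mul_pow]
    refine mul_le_mul_of_nonneg_right ?_ (by positivity)
    have e2 : (P.filter (fun p => X p = Y)).card ≤
        (Y.powerset ×ˢ (Y.powerset ×ˢ Y.powerset)).card := by
      apply card_le_card_of_injOn (fun p => (Q p.1, Corr nbr h (Q p.1) p.1, p.2))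
      · intro p hp
        have hpY : X p = Y := (mem_filter.1 hp).2
        simp only [coe_product, coe_powerset, Set.mem_prod, Set.mem_preimage, Set.mem_powerset_iff,
          coe_subset]
        rw [← hpY]
        exact ⟨subset_union_left.trans subset_union_left,
          subset_union_right.trans subset_union_left, subset_union_right⟩
      · rintro ⟨G, B⟩ _ ⟨G', B'⟩ _ heq
        simp only [Prod.mk.injEq] at heq
        obtain ⟨e3, e4, e5⟩ := heq
        rw [e3] at e4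
        have e6 : G = G' := by
          ext x
          have e7 : x ∈ Corr nbr h (Q G') G ↔ x ∈ Corr nbr h (Q G') G' := by rw [e4]
          rw [mem_Corr, mem_Corr] at e7
          tauto
        rw [e6, e5]
    have e3 : (Y.powerset ×ˢ (Y.powerset ×ˢ Y.powerset)).card = 8 ^ Y.card := by
      rw [card_product, card_product, card_powerset, ← mul_pow, ← mul_pow]
      norm_num
    rw [e3] at e2
    exact_mod_cast e2
  refine (sum_le_sum hterm).trans ?_
  refine hA V (near nbr) ((2 * D + 1) ^ 3) (Nat.one_le_pow _ _ (by omega)) (near_card hcard)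
    (fun x y => near_symm hsym x y) root (P.image X) ?_ _ (by positivity) ?_
  · intro Y hY
    obtain ⟨p, hp, rfl⟩ := mem_image.1 hY
    exact conn hsym root p.1 p.2 (Q p.1) (hQ p.1) (hP p hp).2
  · rw [exp_LL]
    push_cast
    apply le_of_eq
    have : (0 : ℝ) < 2 * D + 1 := by positivity
    field_simp
    ring

end Pool.Agent.R966.CP
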