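import Pool.Agent.R966.CP.Stm

/-! CP-LOW: the lower bound in dimension one. -/

set_option autoImplicit false

namespace Pool.Agent.R966.CP.LowAux

open Finset

/-- sign of a letter -/
def sg (b : Bool) : ℤ := if b then 1 else -1

/-- number of visits to `x` at times at least one of the walk starting at `p` -/
def cnt : ℤ → List Bool → ℤ → ℕ
  | _, [], _ => 0
  | p, b :: L, x => (if p + sg b = x then 1 else 0) + cnt (p + sg b) L x

/-- final position -/
def fin : ℤ → List Bool → ℤ
  | p, [] => p
  | p, b :: L => fin (p + sg b) L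

/-- departures from `z` -/
def dep (z : ℤ) : ℤ → List Bool → ℕ
  | _, [] => 0
  | p, b :: L => (if p = z then 1 else 0) + dep z (p + sg b) L

/-- all departures from `z` are upwards -/
def nn (z : ℤ) : ℤ → List Bool → Prop
  | _, [] => True
  | p, b :: L => (p = z → b = true) ∧ nn z (p + sg b) L

/-- insert excursions -/
def ex : ℕ → List Bool → List Bool
  | 0, T => T
  | k + 1, T => false :: true :: ex k T

/-- insert excursions at the visits of `z` -/
def ff (z : ℤ) (e : ℕ → ℕ) : ℤ → ℕ → List Bool → List Bool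
  | _, _, [] => []
  | p, c, b :: L => if p = z then ex (e c) (b :: ff z e (p + sg b) (c + 1) L)
      else b :: ff z e (p + sg b) c L

lemma ex_cnt (z : ℤ) (k : ℕ) (T : List Bool) (x : ℤ) :
    cnt z (ex k T) x = cnt z T x + if x = z ∨ x = z - 1 then k else 0 := by
  induction k with
  | zero => simp [ex]
  | succ k ih =>
    have e1 : z + sg false = z - 1 := by simp [sg]; ring
    have e2 : z - 1 + sg true = z := by simp [sg]
    simp only [ex, cnt]
    rw [e1, e2, ih]
    by_cases h1 : x = z
    · subst h1
      simp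
      ring
    · by_cases h2 : x = z - 1
      · have h5 : ¬ z = z - 1 := by omega
        have h6 : ¬ z - 1 = z := by omega
        subst h2
        simp [h5, h6]
        ring
      · have h3 : ¬ z - 1 = x := fun h => h2 h.symm
        have h4 : ¬ z = x := fun h => h1 h.symm
        simp [h1, h2, h3, h4]

lemma ex_fin (z : ℤ) (k : ℕ) (T : List Bool) : fin z (ex k T) = fin z T := by
  induction k with
  | zero => simp [ex]
  | succ k ih =>
    have e1 : z + sg false = z - 1 := by simp [sg]; ring
    have e2 : z - 1 + sg true = z := by simp [sg]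
    simp only [ex, fin]
    rw [e1, e2, ih]

lemma ex_length (k : ℕ) (T : List Bool) : (ex k T).length = T.length + 2 * k := by
  induction k with
  | zero => simp [ex]
  | succ k ih =>
    simp only [ex, List.length_cons, ih]
    ring

lemma ex_nn (z : ℤ) (k : ℕ) (T : List Bool) (h : nn (z - 1) z T) : nn (z - 1) z (ex k T) := by
  induction k with
  | zero => simpa [ex] using h
  | succ k ih =>
    have e1 : z + sg false = z - 1 := by simp [sg]; ring
    have e2 : z - 1 + sg true = z := by simp [sg]
    simp only [ex, nn]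
    rw [e1, e2]
    refine ⟨fun h => ?_, fun _ => trivial, ih⟩
    omega

lemma ex_inj (k k' : ℕ) (T T' : List Bool) (h : ex k (true :: T) = ex k' (true :: T')) :
    k = k' ∧ T = T' := by
  induction k generalizing k' with
  | zero =>
    cases k' with
    | zero => simpa [ex] using h
    | succ k' => simp [ex] at h
  | succ k ih =>
    cases k' with
    | zero => simp [ex] at h
    | succ k' =>
      simp only [ex, List.cons.injEq, true_and] at h
      obtain ⟨h1, h2⟩ := ih k' h
      exact ⟨by omega, h2⟩

lemma ex_ne_nil (k : ℕ) (b : Bool) (T : List Bool) : ex k (b :: T) ≠ [] := by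
  cases k <;> simp [ex]

lemma ff_cnt (z : ℤ) (e : ℕ → ℕ) (L : List Bool) : ∀ (p : ℤ) (c : ℕ) (x : ℤ),
    cnt p (ff z e p c L) x = cnt p L x +
      if x = z ∨ x = z - 1 then ∑ i ∈ range (dep z p L), e (c + i) else 0 := by
  induction L with
  | nil => intro p c x; simp [ff, cnt, dep]
  | cons b L ih =>
    intro p c x
    by_cases hp : p = z
    · subst hp
      have e0 : ff p e p c (b :: L) = ex (e c) (b :: ff p e (p + sg b) (c + 1) L) := by
        simp [ff]
      rw [e0, ex_cnt]
      simp only [cnt, dep, if_true]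
      rw [ih, add_comm 1 (dep p (p + sg b) L), Finset.sum_range_succ']
      have e1 : ∀ i, e (c + (i + 1)) = e (c + 1 + i) := fun i => by congr 1; ring
      simp only [e1, add_zero]
      split_ifs <;> ring
    · have e0 : ff z e p c (b :: L) = b :: ff z e (p + sg b) c L := by
        simp [ff, hp]
      rw [e0]
      simp only [cnt, dep, if_neg hp, zero_add]
      rw [ih, add_assoc]

lemma ff_fin (z : ℤ) (e : ℕ → ℕ) (L : List Bool) : ∀ (p : ℤ) (c : ℕ),
    fin p (ff z e p c L) = fin p L := by
  induction L with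
  | nil => intro p c; simp [ff, fin]
  | cons b L ih =>
    intro p c
    by_cases hp : p = z
    · subst hp
      have e0 : ff p e p c (b :: L) = ex (e c) (b :: ff p e (p + sg b) (c + 1) L) := by
        simp [ff]
      rw [e0, ex_fin]
      simp only [fin]
      rw [ih]
    · have e0 : ff z e p c (b :: L) = b :: ff z e (p + sg b) c L := by
        simp [ff, hp]
      rw [e0]
      simp only [fin]
      rw [ih]

lemma ff_length (z : ℤ) (e : ℕ → ℕ) (L : List Bool) : ∀ (p : ℤ) (c : ℕ),
    (ff z e p c L).length = L.length + 2 * ∑ i ∈ range (dep z p L), e (c + i) := by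
  induction L with
  | nil => intro p c; simp [ff, dep]
  | cons b L ih =>
    intro p c
    by_cases hp : p = z
    · subst hp
      have e0 : ff p e p c (b :: L) = ex (e c) (b :: ff p e (p + sg b) (c + 1) L) := by
        simp [ff]
      rw [e0, ex_length]
      simp only [List.length_cons, dep, if_true]
      rw [ih, add_comm 1 (dep p (p + sg b) L), Finset.sum_range_succ']
      have e1 : ∀ i, e (c + (i + 1)) = e (c + 1 + i) := fun i => by congr 1; ring
      simp only [e1, add_zero]
      ring
    · have e0 : ff z e p c (b :: L) = b :: ff z e (p + sg b) c L := by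
        simp [ff, hp]
      rw [e0]
      simp only [List.length_cons, dep, if_neg hp, zero_add]
      rw [ih]
      ring

lemma ff_nn (z : ℤ) (e : ℕ → ℕ) (L : List Bool) : ∀ (p : ℤ) (c : ℕ), z ≤ p → nn z p L →
    nn (z - 1) p (ff z e p c L) := by
  induction L with
  | nil => intro p c _ _; simp [ff, nn]
  | cons b L ih =>
    intro p c hzp h
    by_cases hp : p = z
    · subst hp
      have e0 : ff p e p c (b :: L) = ex (e c) (b :: ff p e (p + sg b) (c + 1) L) := by
        simp [ff]
      rw [e0]
      apply ex_nn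
      simp only [nn] at h ⊢
      have hb := h.1 trivial
      subst hb
      refine ⟨fun _ => rfl, ih _ _ ?_ h.2⟩
      simp [sg]
    · have e0 : ff z e p c (b :: L) = b :: ff z e (p + sg b) c L := by
        simp [ff, hp]
      rw [e0]
      simp only [nn] at h ⊢
      refine ⟨fun h' => by omega, ih _ _ ?_ h.2⟩
      unfold sg
      split_ifs <;> omega

lemma dep_rel (z : ℤ) (L : List Bool) : ∀ p : ℤ,
    dep z p L + (if fin p L = z then 1 else 0) = cnt p L z + if p = z then 1 else 0 := by
  induction L with
  | nil =>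
    intro p
    have f1 : fin p [] = p := rfl
    have f2 : dep z p [] = 0 := rfl
    have f3 : cnt p [] z = 0 := rfl
    rw [f1, f2, f3]
  | cons b L ih =>
    intro p
    have := ih (p + sg b)
    have f1 : fin p (b :: L) = fin (p + sg b) L := rfl
    have f2 : dep z p (b :: L) = (if p = z then 1 else 0) + dep z (p + sg b) L := rfl
    have f3 : cnt p (b :: L) z = (if p + sg b = z then 1 else 0) + cnt (p + sg b) L z := rfl
    rw [f1, f2, f3]
    omega

lemma ff_inj (z : ℤ) (e e' : ℕ → ℕ) (L : List Bool) : ∀ (p : ℤ) (c : ℕ) (L' : List Bool),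
    nn z p L → nn z p L' → ff z e p c L = ff z e' p c L' →
      L = L' ∧ ∀ i < dep z p L, e (c + i) = e' (c + i) := by
  induction L with
  | nil =>
    intro p c L' _ _ h
    cases L' with
    | nil => simp [dep]
    | cons b' M' =>
      exfalso
      by_cases hp : p = z
      · simp only [ff, hp, if_true] at h
        exact ex_ne_nil _ _ _ h.symm
      · simp [ff, hp] at h
  | cons b M ih =>
    intro p c L' hL hL' h
    cases L' with
    | nil =>
      exfalso
      by_cases hp : p = z
      · simp only [ff, hp, if_true] at h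
        exact ex_ne_nil _ _ _ h
      · simp [ff, hp] at h
    | cons b' M' =>
      simp only [nn] at hL hL'
      by_cases hp : p = z
      · have hb := hL.1 hp
        have hb' := hL'.1 hp
        subst hb
        subst hb'
        simp only [ff, hp, if_true] at h
        obtain ⟨h1, h2⟩ := ex_inj _ _ _ _ h
        subst hp
        obtain ⟨h3, h4⟩ := ih _ _ _ hL.2 hL'.2 h2
        refine ⟨by rw [h3], fun i hi => ?_⟩
        cases i with
        | zero => simpa using h1
        | succ i =>
          simp only [dep, if_true] at hi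
          have := h4 i (by omega)
          have e1 : c + (i + 1) = c + 1 + i := by ring
          rw [e1]
          exact this
      · simp only [ff, if_neg hp, List.cons.injEq] at h
        obtain ⟨h1, h2⟩ := h
        subst h1
        obtain ⟨h3, h4⟩ := ih _ _ _ hL.2 hL'.2 h2
        refine ⟨by rw [h3], fun i hi => ?_⟩
        simp only [dep, if_neg hp, zero_add] at hi
        exact h4 i hi

/-- the walk `0, 1, 0, 1, ..., 1` -/
def bs : ℕ → List Bool
  | 0 => [true]
  | k + 1 => true :: false :: bs k

/-- profile of the local times -/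
def prof (j k : ℕ) (x : ℤ) : ℕ :=
  if x = -(k : ℤ) then j else if x = 1 then j + 1 else if -(k : ℤ) < x ∧ x < 1 then 2 * j + 1 else 0

lemma bs_cnt (j : ℕ) (x : ℤ) : cnt 0 (bs j) x = prof j 0 x := by
  induction j with
  | zero =>
    simp only [bs, cnt, sg, prof]
    by_cases h1 : x = 0
    · simp [h1]
    · by_cases h2 : x = 1
      · simp [h2]
      · have h3 : ¬ (1 : ℤ) = x := fun h => h2 h.symm
        simp [h1, h2, h3]
        omega
  | succ j ih =>
    have e1 : (0 : ℤ) + sg true = 1 := by simp [sg]
    have e2 : (1 : ℤ) + sg false = 0 := by simp [sg]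
    simp only [bs, cnt]
    rw [e1, e2, ih]
    unfold prof
    simp only [Nat.cast_zero, neg_zero]
    by_cases h1 : x = 0
    · simp [h1]
      ring
    · by_cases h2 : x = 1
      · simp [h2]
        ring
      · have h3 : ¬ (1 : ℤ) = x := fun h => h2 h.symm
        have h4 : ¬ (0 : ℤ) = x := fun h => h1 h.symm
        have h5 : ¬ ((0 : ℤ) < x ∧ x < 1) := by omega
        simp [h1, h2, h3, h4, h5]

/-- invariants -/
structure Inv (j k : ℕ) (L : List Bool) : Prop where
  nn' : nn (-(k : ℤ)) (-(k : ℤ)) L
  fin' : fin (-(k : ℤ)) L = 1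
  len' : L.length = (2 * j + 1) * (k + 1)
  cnt' : ∀ x, cnt (-(k : ℤ)) L x = prof j k x

lemma bs_inv (j : ℕ) : Inv j 0 (bs j) := by
  refine ⟨?_, ?_, ?_, ?_⟩
  · simp only [Nat.cast_zero, neg_zero]
    induction j with
    | zero => simp [bs, nn]
    | succ j ih =>
      have e1 : (0 : ℤ) + sg true = 1 := by simp [sg]
      have e2 : (1 : ℤ) + sg false = 0 := by simp [sg]
      simp only [bs, nn]
      rw [e1, e2]
      exact ⟨fun _ => trivial, fun h => by omega, ih⟩
  · simp only [Nat.cast_zero, neg_zero]
    induction j with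
    | zero => simp [bs, fin, sg]
    | succ j ih =>
      have e1 : (0 : ℤ) + sg true = 1 := by simp [sg]
      have e2 : (1 : ℤ) + sg false = 0 := by simp [sg]
      simp only [bs, fin]
      rw [e1, e2]
      exact ih
  · induction j with
    | zero => simp [bs]
    | succ j ih =>
      simp only [bs, List.length_cons, ih]
      ring
  · intro x
    simp only [Nat.cast_zero, neg_zero]
    exact bs_cnt j x

lemma dep_eq (j k : ℕ) (L : List Bool) (h : Inv j k L) : dep (-(k : ℤ)) (-(k : ℤ)) L = j + 1 := by
  have h1 := dep_rel (-(k : ℤ)) L (-(k : ℤ))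
  rw [h.fin', h.cnt'] at h1
  unfold prof at h1
  have h2 : ¬ (1 : ℤ) = -(k : ℤ) := by omega
  simp only [if_neg h2, if_true] at h1
  omega

lemma step_inv (j k : ℕ) (L : List Bool) (h : Inv j k L) (e : ℕ → ℕ)
    (he : ∑ i ∈ range (j + 1), e i = j) : Inv j (k + 1) (true :: ff (-(k : ℤ)) e (-(k : ℤ)) 0 L) := by
  have e0 : -((k + 1 : ℕ) : ℤ) = -(k : ℤ) - 1 := by push_cast; ring
  have e1 : -(k : ℤ) - 1 + sg true = -(k : ℤ) := by simp [sg]
  have hd := dep_eq j k L h
  refine ⟨?_, ?_, ?_, ?_⟩
  · rw [e0]
    simp only [nn]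
    rw [e1]
    exact ⟨fun _ => trivial, ff_nn _ _ _ _ _ le_rfl h.nn'⟩
  · rw [e0]
    simp only [fin]
    rw [e1, ff_fin]
    exact h.fin'
  · rw [List.length_cons, ff_length, hd, h.len']
    simp only [zero_add]
    rw [he]
    ring
  · intro x
    rw [e0]
    simp only [cnt]
    rw [e1, ff_cnt, hd, h.cnt']
    simp only [zero_add]
    rw [he]
    unfold prof
    rw [e0]
    split_ifs <;> omega

/-- the family of walks -/
noncomputable def AA (j : ℕ) : ℕ → Finset (List Bool)
  | 0 => {bs j}
  | k + 1 => ((AA j k) ×ˢ (Finset.finsuppAntidiag (range (j + 1)) j)).image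
      (fun q : List Bool × (ℕ →₀ ℕ) => true :: ff (-(k : ℤ)) q.2 (-(k : ℤ)) 0 q.1)

lemma AA_inv (j k : ℕ) : ∀ L ∈ AA j k, Inv j k L := by
  induction k with
  | zero =>
    intro L hL
    simp only [AA, Finset.mem_singleton] at hL
    rw [hL]
    exact bs_inv j
  | succ k ih =>
    intro L hL
    simp only [AA, Finset.mem_image, Finset.mem_product] at hL
    obtain ⟨q, ⟨h1, h2⟩, rfl⟩ := hL
    rw [Finset.mem_finsuppAntidiag] at h2
    exact step_inv j k q.1 (ih _ h1) q.2 h2.1

lemma AA_card (j k : ℕ) : (AA j k).card = ((2 * j).choose j) ^ k := by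
  induction k with
  | zero => simp [AA]
  | succ k ih =>
    simp only [AA]
    rw [Finset.card_image_of_injOn, Finset.card_product, ih,
      Finset.card_finsuppAntidiag_nat_eq_choose, Finset.card_range, pow_succ]
    · congr 2
      omega
    · intro q hq q' hq' h
      rw [Finset.mem_coe, Finset.mem_product, Finset.mem_finsuppAntidiag] at hq hq'
      simp only [List.cons.injEq, true_and] at h
      have hi := AA_inv j k _ hq.1
      have hi' := AA_inv j k _ hq'.1
      obtain ⟨h1, h2⟩ := ff_inj _ _ _ _ _ _ _ hi.nn' hi'.nn' h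
      rw [dep_eq j k _ hi] at h2
      refine Prod.ext h1 ?_
      ext i
      by_cases hi : i < j + 1
      · simpa using h2 i hi
      · have e1 : q.2 i = 0 := by
          by_contra hne
          have := hq.2.2 (Finsupp.mem_support_iff.2 hne)
          rw [Finset.mem_range] at this
          exact hi this
        have e2 : q'.2 i = 0 := by
          by_contra hne
          have := hq'.2.2 (Finsupp.mem_support_iff.2 hne)
          rw [Finset.mem_range] at this
          exact hi this
        rw [e1, e2]

/-! ### Translation to functions -/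

/-- the height -/
def hgt (L : List Bool) (i : ℕ) : ℤ := ∑ a ∈ range i, sg (L.getD a true)

lemma cnt_eq (L : List Bool) : ∀ (p x : ℤ),
    cnt p L x = ∑ i ∈ range L.length, if p + hgt L (i + 1) = x then 1 else 0 := by
  induction L with
  | nil => intro p x; simp [cnt]
  | cons b L ih =>
    intro p x
    simp only [cnt, List.length_cons]
    rw [Finset.sum_range_succ', add_comm, ih]
    congr 1
    · refine Finset.sum_congr rfl fun i _ => ?_
      have : hgt (b :: L) (i + 1 + 1) = sg b + hgt L (i + 1) := by
        unfold hgt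
        rw [Finset.sum_range_succ']
        simp [add_comm]
      rw [this, add_assoc]
    · simp [hgt]

/-- the walk of a list -/
def wk (n : ℕ) (L : List Bool) : Fin n → Fin 1 × Bool := fun i => (0, L.getD i true)

lemma wk_inj (n : ℕ) (L L' : List Bool) (h1 : L.length = n) (h2 : L'.length = n)
    (h : wk n L = wk n L') : L = L' := by
  apply List.ext_getElem (by rw [h1, h2])
  intro i hi hi'
  have := congrFun h ⟨i, by omega⟩
  simp only [wk, Prod.mk.injEq, true_and] at this
  rw [List.getD_eq_getElem _ _ hi, List.getD_eq_getElem _ _ hi'] at this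
  exact this

lemma pos_wk (n : ℕ) (L : List Bool) (i : ℕ) (hi : i ≤ n) (a : Fin 1) :
    pos (wk n L) i a = hgt L i := by
  unfold pos
  rw [Finset.sum_apply]
  have h1 : ∀ b : Fin n, (if (b : ℕ) < i then st (wk n L b) else 0) a =
      (fun c : ℕ => if c < i then sg (L.getD c true) else 0) b := by
    intro b
    have ha : a = 0 := Subsingleton.elim _ _
    subst ha
    simp only
    split_ifs with h
    · simp [st, wk, sg]
    · rfl
  rw [Finset.sum_congr rfl fun b _ => h1 b,
    Fin.sum_univ_eq_sum_range (fun c : ℕ => if c < i then sg (L.getD c true) else 0) n,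
    ← Finset.sum_filter]
  unfold hgt
  congr 1
  ext c
  rw [Finset.mem_filter, Finset.mem_range, Finset.mem_range]
  omega

lemma loc_wk (n : ℕ) (L : List Bool) (hL : L.length = n) (z : ℤ) (x : Fin 1 → ℤ) :
    loc (wk n L) x = cnt z L (z + x 0) := by
  rw [cnt_eq, hL]
  unfold loc
  rw [Finset.card_filter, ← Fin.sum_univ_eq_sum_range
    (fun i => if z + hgt L (i + 1) = z + x 0 then 1 else 0) n]
  refine Finset.sum_congr rfl fun i _ => ?_
  have h1 : pos (wk n L) ((i : ℕ) + 1) = x ↔ z + hgt L ((i : ℕ) + 1) = z + x 0 := by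
    constructor
    · intro h
      rw [← h, pos_wk n L _ i.2]
    · intro h
      funext a
      have ha : a = 0 := Subsingleton.elim _ _
      rw [pos_wk n L _ i.2, ha]
      exact add_left_cancel h
  by_cases h : pos (wk n L) ((i : ℕ) + 1) = x
  · rw [if_pos h, if_pos (h1.1 h)]
  · rw [if_neg h, if_neg (fun h' => h (h1.2 h'))]

lemma vis_iff {n : ℕ} (w : Fin n → Fin 1 × Bool) (x : Fin 1 → ℤ) : x ∈ vis w ↔ loc w x ≠ 0 := by
  unfold vis loc
  rw [Finset.mem_image, Finset.card_ne_zero]
  constructor
  · rintro ⟨i, _, hi⟩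
    exact ⟨i, Finset.mem_filter.2 ⟨Finset.mem_univ _, hi⟩⟩
  · rintro ⟨i, hi⟩
    exact ⟨i, Finset.mem_univ _, (Finset.mem_filter.1 hi).2⟩

lemma prod_wk (j k : ℕ) (hj : 1 ≤ j) (g : ℕ → ℝ) (L : List Bool) (h : Inv j k L) (n : ℕ)
    (hn : n = (2 * j + 1) * (k + 1)) :
    ∏ x ∈ vis (wk n L), g (loc (wk n L) x) = g j * g (j + 1) * g (2 * j + 1) ^ k := by
  have hL : L.length = n := by rw [h.len', hn]
  have hloc : ∀ x : Fin 1 → ℤ, loc (wk n L) x = prof j k (-(k : ℤ) + x 0) := by
    intro x
    rw [loc_wk n L hL (-(k : ℤ)), h.cnt']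
  have hvis : vis (wk n L) = (range (k + 2)).image (fun i : ℕ => fun _ : Fin 1 => (i : ℤ)) := by
    ext x
    rw [vis_iff, hloc, Finset.mem_image]
    constructor
    · intro hx
      unfold prof at hx
      refine ⟨(x 0).toNat, ?_, ?_⟩
      · rw [Finset.mem_range]
        split_ifs at hx <;> omega
      · funext a
        have ha : a = 0 := Subsingleton.elim _ _
        rw [ha]
        have : 0 ≤ x 0 := by split_ifs at hx <;> omega
        omega
    · rintro ⟨i, hi, rfl⟩
      rw [Finset.mem_range] at hi
      show prof j k (-(k : ℤ) + (i : ℤ)) ≠ 0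
      unfold prof
      split_ifs <;> omega
  rw [hvis, Finset.prod_image]
  · have e1 : ∀ i : ℕ, g (loc (wk n L) (fun _ => (i : ℤ))) = g (prof j k (-(k : ℤ) + i)) := by
      intro i
      rw [hloc]
    rw [Finset.prod_congr rfl fun i _ => e1 i, Finset.prod_range_succ, Finset.prod_range_succ']
    have e2 : prof j k (-(k : ℤ) + ((k + 1 : ℕ) : ℤ)) = j + 1 := by
      unfold prof
      have h1 : ¬ (-(k : ℤ) + ((k + 1 : ℕ) : ℤ) = -(k : ℤ)) := by push_cast; omega
      have h2 : -(k : ℤ) + ((k + 1 : ℕ) : ℤ) = 1 := by push_cast; ring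
      rw [if_neg h1, if_pos h2]
    have e3 : prof j k (-(k : ℤ) + ((0 : ℕ) : ℤ)) = j := by
      unfold prof
      rw [if_pos (by simp)]
    have e4 : ∏ i ∈ range k, g (prof j k (-(k : ℤ) + ((i + 1 : ℕ) : ℤ))) = g (2 * j + 1) ^ k := by
      rw [Finset.prod_congr rfl (g := fun _ => g (2 * j + 1)), Finset.prod_const, Finset.card_range]
      intro i hi
      rw [Finset.mem_range] at hi
      congr 1
      unfold prof
      have h1 : ¬ (-(k : ℤ) + ((i + 1 : ℕ) : ℤ) = -(k : ℤ)) := by push_cast; omega
      have h2 : ¬ (-(k : ℤ) + ((i + 1 : ℕ) : ℤ) = 1) := by push_cast; omega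
      have h3 : -(k : ℤ) < -(k : ℤ) + ((i + 1 : ℕ) : ℤ) ∧ -(k : ℤ) + ((i + 1 : ℕ) : ℤ) < 1 := by
        push_cast
        constructor <;> omega
      rw [if_neg h1, if_neg h2, if_pos h3]
    rw [e2, e3, e4]
    ring
  · intro i _ i' _ hii
    have := congrFun hii 0
    simpa using this

theorem low : S_LOW := by
  intro g hg j m hj hm
  obtain ⟨k, rfl⟩ := Nat.exists_eq_add_of_le hm
  obtain ⟨n, hn⟩ : ∃ n, n = (2 * j + 1) * (1 + k) := ⟨_, rfl⟩
  rw [← hn]
  unfold ZZ
  have e1 : (2 * ((1 : ℕ) : ℝ)) = 2 := by norm_num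
  rw [e1]
  refine div_le_div_of_nonneg_right ?_ (by positivity : (0 : ℝ) ≤ 2 ^ n)
  have e2 : 1 + k - 1 = k := by omega
  rw [e2]
  have hinj : Set.InjOn (wk n) (AA j k : Set (List Bool)) := by
    intro L hL L' hL' h
    have h1 := (AA_inv j k L hL).len'
    have h2 := (AA_inv j k L' hL').len'
    exact wk_inj n L L' (by rw [h1, hn]; ring) (by rw [h2, hn]; ring) h
  calc g j * g (j + 1) * (g (2 * j + 1) * ((2 * j).choose j : ℝ)) ^ k
      = ∑ L ∈ AA j k, g j * g (j + 1) * g (2 * j + 1) ^ k := by
        rw [Finset.sum_const, AA_card, nsmul_eq_mul, mul_pow]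
        push_cast
        ring
    _ = ∑ L ∈ AA j k, ∏ x ∈ vis (wk n L), g (loc (wk n L) x) := by
        refine Finset.sum_congr rfl fun L hL => ?_
        rw [prod_wk j k hj g L (AA_inv j k L hL) n (by rw [hn]; ring)]
    _ = ∑ w ∈ (AA j k).image (wk n), ∏ x ∈ vis w, g (loc w x) := by
        rw [Finset.sum_image hinj]
    _ ≤ ∑ w : Fin n → Fin 1 × Bool, ∏ x ∈ vis w, g (loc w x) :=
        Finset.sum_le_sum_of_subset_of_nonneg (Finset.subset_univ _)
          (fun w _ _ => Finset.prod_nonneg fun x _ => hg _)

end Pool.Agent.R966.CP.LowAux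

namespace Pool.Agent.R966.CP

theorem low_ : S_LOW := LowAux.low

end Pool.Agent.R966.CP
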