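import Pool.Agent.R966.CP.Stm

/-!
CP-NB (MP_de3d19_pr)
-/

set_option autoImplicit false

namespace Pool.Agent.R966.CP

open Finset

theorem st_inj {d : ℕ} : Function.Injective (st : Fin d × Bool → Fin d → ℤ) := by
  rintro ⟨i, a⟩ ⟨j, b⟩ h
  have h1 := congrFun h i
  simp only [st, Pi.single_eq_same] at h1
  by_cases hij : i = j
  · subst hij
    rw [Pi.single_eq_same] at h1
    cases a <;> cases b <;> simp at h1 <;> rfl
  · rw [Pi.single_eq_of_ne hij] at h1
    cases a <;> simp at h1

theorem st_neg {d : ℕ} (i : Fin d) (a : Bool) : st (i, !a) = - st (i, a) := by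
  unfold st
  rw [← Pi.single_neg]
  cases a <;> simp

theorem nb_ : S_NB := by
  intro d
  refine ⟨fun x => ?_, ?_⟩
  · unfold nb
    rw [card_image_of_injective _ fun s t h => st_inj (add_left_cancel h), card_univ,
      Fintype.card_prod, Fintype.card_fin, Fintype.card_bool, mul_comm]
  · have h : ∀ x y : Fin d → ℤ, y ∈ nb x → x ∈ nb y := by
      intro x y hy
      unfold nb at hy ⊢
      rw [mem_image] at hy ⊢
      obtain ⟨⟨i, a⟩, -, rfl⟩ := hy
      exact ⟨(i, !a), mem_univ _, by rw [st_neg, add_neg_cancel_right]⟩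
    exact fun x y => ⟨h x y, h y x⟩

end Pool.Agent.R966.CP
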