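import Pool.Agent.R966.CP.Stm

/-!
# NUM: three numerical inequalities
-/

set_option autoImplicit false

namespace Pool.Agent.R966.CP

namespace Numaux

theorem LL_le : LL (2 ^ 1000) ≤ 4171 := by
  unfold LL
  have h1 : ((2 ^ 1000 : ℕ) : ℝ) = (2 : ℝ) ^ 1000 := by rw [Nat.cast_pow, Nat.cast_ofNat]
  rw [h1]
  obtain ⟨x, hx⟩ : ∃ x : ℝ, x = (2 : ℝ) ^ 1000 := ⟨_, rfl⟩
  have hx1 : 1 ≤ x := by rw [hx]; exact one_le_pow₀ (by norm_num)
  rw [← hx]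
  have h2 : (16 : ℝ) * (2 * x + 1) ^ 6 ≤ 16 * (4 * x) ^ 6 := by
    gcongr
    linarith only [hx1]
  have h3 : (16 : ℝ) * (4 * x) ^ 6 = 2 ^ 6016 := by
    have e1 : (16 : ℝ) = 2 ^ 4 := by norm_num
    have e2 : (4 : ℝ) * x = 2 ^ 1002 := by
      rw [hx, show (4 : ℝ) = 2 ^ 2 by norm_num, ← pow_add]
    rw [e1, e2, ← pow_mul, ← pow_add]
  have h4 : Real.log (16 * (2 * x + 1) ^ 6) ≤ Real.log ((2 : ℝ) ^ 6016) := by
    apply Real.log_le_log (by positivity)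
    rw [← h3]
    exact h2
  rw [Real.log_pow] at h4
  have h5 := Real.log_two_lt_d9
  push_cast at h4
  linarith

theorem LL_nonneg : 0 ≤ LL (2 ^ 1000) := by
  unfold LL
  apply Real.log_nonneg
  have h1 : (0 : ℝ) ≤ ((2 ^ 1000 : ℕ) : ℝ) := Nat.cast_nonneg _
  obtain ⟨x, hx⟩ : ∃ x : ℝ, x = ((2 ^ 1000 : ℕ) : ℝ) := ⟨_, rfl⟩
  rw [← hx] at h1 ⊢
  have h2 : (1 : ℝ) ≤ (2 * x + 1) ^ 6 := one_le_pow₀ (by linarith)
  linarith

end Numaux

open Numaux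

theorem num_ : S_NUM := by
  have h1 := LL_le
  have h2 := LL_nonneg
  refine ⟨by linarith, ?_, ?_⟩
  · have e1 : ((2 ^ 500 : ℕ) : ℝ) = (2 : ℝ) ^ 500 := by rw [Nat.cast_pow, Nat.cast_ofNat]
    rw [e1]
    obtain ⟨x, hx⟩ : ∃ x : ℝ, x = (2 : ℝ) ^ 500 := ⟨_, rfl⟩
    have hx1 : (2 : ℝ) ^ 50 ≤ x := by
      rw [hx]
      exact pow_le_pow_right₀ (by norm_num) (by norm_num)
    rw [← hx]
    have hx0 : 0 < x := lt_of_lt_of_le (by positivity) hx1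
    have h3 : LL (2 ^ 1000) * (2 / x + 28 / x) = (LL (2 ^ 1000) * 30) / x := by ring
    rw [h3, div_le_div_iff₀ hx0 (by norm_num)]
    have h4 : LL (2 ^ 1000) * 30 * (12 * 100001) ≤ 4171 * 30 * (12 * 100001) := by gcongr
    refine h4.trans ?_
    norm_num at hx1 ⊢
    linarith only [hx1]
  · have e1 : ((2 ^ 1000 : ℕ) : ℝ) = (2 : ℝ) ^ 1000 := by rw [Nat.cast_pow, Nat.cast_ofNat]
    have e2 : ((100001 : ℕ) : ℝ) = 100001 := by norm_num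
    rw [e1, e2]
    have h3 : Real.log (2 * (2 : ℝ) ^ 1000 * 100001) ≤ Real.log ((2 : ℝ) ^ 1018) := by
      apply Real.log_le_log (by positivity)
      have e3 : (2 : ℝ) ^ 1018 = 2 * 2 ^ 1000 * 2 ^ 17 := by
        rw [← pow_succ', ← pow_add]
      rw [e3]
      apply mul_le_mul_of_nonneg_left _ (by positivity)
      norm_num
    rw [Real.log_pow] at h3
    have h5 := Real.log_two_lt_d9
    push_cast at h3
    obtain ⟨x, hx⟩ : ∃ x : ℝ, x = (2 : ℝ) ^ 1000 := ⟨_, rfl⟩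
    have hx1 : (2 : ℝ) ^ 50 ≤ x := by
      rw [hx]
      exact pow_le_pow_right₀ (by norm_num) (by norm_num)
    have hx0 : 0 < x := lt_of_lt_of_le (by positivity) hx1
    rw [← hx] at h3 ⊢
    obtain ⟨y, hy⟩ : ∃ y : ℝ, y = Real.log (2 * x * 100001) := ⟨_, rfl⟩
    rw [← hy] at h3 ⊢
    have h6 : y ≤ 706 := by linarith
    rw [div_le_div_iff₀ (by positivity) (by norm_num)]
    norm_num at hx1 ⊢
    linarith only [hx1, h6]

end Pool.Agent.R966.CP
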