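import Pool.Agent.R966.CP.Stm

/-!
# RHO: from the formula of Stirling
-/

set_option autoImplicit false

namespace Pool.Agent.R966.CP

namespace Rhoaux

theorem log_fact_le (n : ℕ) (hn : 1 ≤ n) : Real.log (n.factorial : ℝ) ≤
    1 + Real.log n / 2 + n * Real.log n - n := by
  obtain ⟨m, rfl⟩ : ∃ m, n = m + 1 := ⟨n - 1, by omega⟩
  have h1 : Real.log (Stirling.stirlingSeq (m + 1)) ≤ Real.log (Stirling.stirlingSeq (0 + 1)) :=
    Stirling.log_stirlingSeq'_antitone (Nat.zero_le m)
  rw [Stirling.log_stirlingSeq_formula, Stirling.log_stirlingSeq_formula] at h1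
  have hm : (0 : ℝ) < ((m + 1 : ℕ) : ℝ) := by positivity
  have h2 : Real.log (2 * ((m + 1 : ℕ) : ℝ)) = Real.log 2 + Real.log ((m + 1 : ℕ) : ℝ) :=
    Real.log_mul (by norm_num) hm.ne'
  have h3 : Real.log (((m + 1 : ℕ) : ℝ) / Real.exp 1) = Real.log ((m + 1 : ℕ) : ℝ) - 1 := by
    rw [Real.log_div hm.ne' (Real.exp_pos 1).ne', Real.log_exp]
  rw [h2, h3] at h1
  simp only [zero_add, Nat.factorial_one, Nat.cast_one, Real.log_one, mul_one, one_div,
    Real.log_inv, Real.log_exp] at h1
  linarith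

end Rhoaux

open Rhoaux

theorem rho_ : S_RHO := by
  intro D k hD hk
  have hDR : (0 : ℝ) < D := by exact_mod_cast hD
  have hkR : (0 : ℝ) < k := by exact_mod_cast hk
  have hN1 : 1 ≤ 2 * D * k := Nat.mul_pos (by omega) hk
  have h1 := log_fact_le (2 * D * k) hN1
  have h2 := Stirling.le_log_factorial_stirling (n := k) (by omega)
  have h3 : ((2 * D * k : ℕ) : ℝ) = 2 * D * k := by push_cast; ring
  have h4 : (k : ℝ) * lf (2 * D * k) = Real.log ((2 * D * k).factorial : ℝ) / (2 * D) := by
    unfold lf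
    rw [h3]
    field_simp
  have h5 : Real.log (2 * D * k : ℝ) = Real.log (2 * D) + Real.log k :=
    Real.log_mul (by positivity) hkR.ne'
  rw [h3] at h1
  have h6 : Real.log ((2 * D * k).factorial : ℝ) / (2 * D) ≤
      (1 + Real.log (2 * D * k) / 2) / (2 * D) + k * Real.log (2 * D * k) - k := by
    rw [div_le_iff₀ (by positivity)]
    have h7 : ((1 + Real.log (2 * D * k) / 2) / (2 * D) + k * Real.log (2 * D * k) - k) * (2 * D) =
        1 + Real.log (2 * D * k) / 2 + 2 * D * k * Real.log (2 * D * k) - 2 * D * k := by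
      field_simp
    rw [h7]
    exact h1
  have h8 : Real.log (2 * Real.pi * k) = Real.log (2 * Real.pi) + Real.log k :=
    Real.log_mul (by positivity) hkR.ne'
  rw [h4]
  have h9 : (k : ℝ) * Real.log (2 * D * k) = k * Real.log (2 * D) + k * Real.log k := by
    rw [h5]
    ring
  linarith

end Pool.Agent.R966.CP
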