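import Pool.Agent.R966.CP.Stm

/-!
# MP_de3d19_pr, piece CP-SAMP: the sampling lemma
-/

set_option autoImplicit false

namespace Pool.Agent.R966.CP

open Finset

namespace Samp

variable {V : Type} [DecidableEq V]

/-- the weight of a subset -/
noncomputable def w (p : ℝ) (G Q : Finset V) : ℝ := (∏ _i ∈ Q, p) * ∏ _i ∈ G \ Q, (1 - p)

theorem w_nonneg {p : ℝ} (h0 : 0 ≤ p) (h1 : p ≤ 1) (G Q : Finset V) : 0 ≤ w p G Q :=
  mul_nonneg (prod_nonneg fun _ _ => h0) (prod_nonneg fun _ _ => by linarith)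

theorem sum_w_sub (p : ℝ) (G T : Finset V) (hT : T ⊆ G) :
    ∑ Q ∈ G.powerset, w p G Q * (if T ⊆ Q then 1 else 0) = p ^ T.card := by
  have h1 : ∀ Q ∈ G.powerset, w p G Q * (if T ⊆ Q then 1 else 0) =
      (∏ _i ∈ Q, p) * ∏ i ∈ G \ Q, (if i ∈ T then 0 else 1 - p) := by
    intro Q hQ
    rw [w, mul_assoc]
    congr 1
    by_cases h : T ⊆ Q
    · rw [if_pos h, mul_one]
      refine prod_congr rfl fun i hi => ?_
      rw [if_neg fun hiT => (mem_sdiff.1 hi).2 (h hiT)]
    · rw [if_neg h, mul_zero]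
      obtain ⟨i, hi1, hi2⟩ := not_subset.1 h
      symm
      exact prod_eq_zero (i := i) (mem_sdiff.2 ⟨hT hi1, hi2⟩) (if_pos hi1)
  rw [sum_congr rfl h1, ← prod_add, ← prod_sdiff hT]
  have h2 : ∏ i ∈ G \ T, (p + if i ∈ T then 0 else 1 - p) = 1 := by
    refine prod_eq_one fun i hi => ?_
    rw [if_neg (mem_sdiff.1 hi).2]
    ring
  have h3 : ∏ i ∈ T, (p + if i ∈ T then 0 else 1 - p) = ∏ _i ∈ T, p := by
    refine prod_congr rfl fun i hi => ?_
    rw [if_pos hi, add_zero]
  rw [h2, h3, one_mul, prod_const]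

theorem sum_w (p : ℝ) (G : Finset V) : ∑ Q ∈ G.powerset, w p G Q = 1 := by
  have := sum_w_sub p G ∅ (empty_subset _)
  simpa using this

theorem card_eq (S Q : Finset V) :
    ((S ∩ Q).card : ℝ) = ∑ x ∈ S, if x ∈ Q then (1 : ℝ) else 0 := by
  rw [← sum_filter, sum_const, nsmul_eq_mul, mul_one, filter_mem_eq_inter]

theorem mean (p : ℝ) (G S : Finset V) (hS : S ⊆ G) :
    ∑ Q ∈ G.powerset, w p G Q * ((S ∩ Q).card : ℝ) = p * S.card := by
  have h1 : ∀ x ∈ S, ∑ Q ∈ G.powerset, w p G Q * (if x ∈ Q then (1 : ℝ) else 0) = p := by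
    intro x hx
    have := sum_w_sub p G {x} (singleton_subset_iff.2 (hS hx))
    simpa [singleton_subset_iff] using this
  calc ∑ Q ∈ G.powerset, w p G Q * ((S ∩ Q).card : ℝ)
      = ∑ Q ∈ G.powerset, ∑ x ∈ S, w p G Q * (if x ∈ Q then (1 : ℝ) else 0) := by
        refine sum_congr rfl fun Q _ => ?_
        rw [card_eq, mul_sum]
    _ = ∑ x ∈ S, ∑ Q ∈ G.powerset, w p G Q * (if x ∈ Q then (1 : ℝ) else 0) := sum_comm
    _ = p * S.card := by
        rw [sum_congr rfl h1, sum_const, nsmul_eq_mul]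
        ring

theorem second (p : ℝ) (G S : Finset V) (hS : S ⊆ G) :
    ∑ Q ∈ G.powerset, w p G Q * ((S ∩ Q).card : ℝ) ^ 2 = p ^ 2 * S.card ^ 2 + (p - p ^ 2) * S.card := by
  have h1 : ∀ x ∈ S, ∀ y ∈ S, ∑ Q ∈ G.powerset, w p G Q *
      ((if x ∈ Q then (1 : ℝ) else 0) * (if y ∈ Q then (1 : ℝ) else 0)) =
        p ^ 2 + if y = x then p - p ^ 2 else 0 := by
    intro x hx y hy
    have h2 := sum_w_sub p G {x, y} (insert_subset (hS hx) (singleton_subset_iff.2 (hS hy)))
    have h3 : ∀ Q : Finset V, (if x ∈ Q then (1 : ℝ) else 0) * (if y ∈ Q then (1 : ℝ) else 0) =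
        if {x, y} ⊆ Q then (1 : ℝ) else 0 := by
      intro Q
      have h4 : ({x, y} : Finset V) ⊆ Q ↔ x ∈ Q ∧ y ∈ Q := by
        rw [insert_subset_iff, singleton_subset_iff]
      by_cases hxQ : x ∈ Q <;> by_cases hyQ : y ∈ Q <;> simp [h4, hxQ, hyQ]
    rw [sum_congr rfl fun Q _ => by rw [h3 Q]]
    rw [h2]
    by_cases hxy : y = x
    · subst hxy
      rw [if_pos rfl]
      simp
    · rw [if_neg hxy, add_zero, card_pair (Ne.symm hxy)]
  calc ∑ Q ∈ G.powerset, w p G Q * ((S ∩ Q).card : ℝ) ^ 2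
      = ∑ Q ∈ G.powerset, ∑ x ∈ S, ∑ y ∈ S, w p G Q *
        ((if x ∈ Q then (1 : ℝ) else 0) * (if y ∈ Q then (1 : ℝ) else 0)) := by
        refine sum_congr rfl fun Q _ => ?_
        rw [card_eq, sq, sum_mul_sum, mul_sum]
        refine sum_congr rfl fun x _ => ?_
        rw [mul_sum]
    _ = ∑ x ∈ S, ∑ y ∈ S, ∑ Q ∈ G.powerset, w p G Q *
        ((if x ∈ Q then (1 : ℝ) else 0) * (if y ∈ Q then (1 : ℝ) else 0)) := by
        rw [sum_comm]
        refine sum_congr rfl fun x _ => ?_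
        rw [sum_comm]
    _ = ∑ x ∈ S, ∑ y ∈ S, (p ^ 2 + if y = x then p - p ^ 2 else 0) :=
        sum_congr rfl fun x hx => sum_congr rfl fun y hy => h1 x hx y hy
    _ = ∑ x ∈ S, (p ^ 2 * S.card + (p - p ^ 2)) := by
        refine sum_congr rfl fun x hx => ?_
        rw [sum_add_distrib, sum_const, nsmul_eq_mul, sum_ite_eq', if_pos hx]
        ring
    _ = _ := by
        rw [sum_const, nsmul_eq_mul]
        ring

theorem var (p : ℝ) (G S : Finset V) (hS : S ⊆ G) :
    ∑ Q ∈ G.powerset, w p G Q * (((S ∩ Q).card : ℝ) - p * S.card) ^ 2 ≤ p * S.card := by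
  have h1 : ∑ Q ∈ G.powerset, w p G Q * (((S ∩ Q).card : ℝ) - p * S.card) ^ 2 =
      ∑ Q ∈ G.powerset, w p G Q * ((S ∩ Q).card : ℝ) ^ 2 -
        2 * (p * S.card) * ∑ Q ∈ G.powerset, w p G Q * ((S ∩ Q).card : ℝ) +
        (p * S.card) ^ 2 * ∑ Q ∈ G.powerset, w p G Q := by
    rw [mul_sum, mul_sum, ← sum_sub_distrib, ← sum_add_distrib]
    refine sum_congr rfl fun Q _ => ?_
    ring
  rw [h1, second p G S hS, mean p G S hS, sum_w]
  have : 0 ≤ p ^ 2 * (S.card : ℝ) := by positivity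
  nlinarith

/-- the lower deviation -/
theorem low {p h : ℝ} (hp0 : 0 ≤ p) (hp1 : p ≤ 1) (hh : 0 < h) {G S : Finset V} (hS : S ⊆ G)
    (hd : 3 * h < 2 * (p * S.card)) :
    h * ∑ Q ∈ G.powerset, w p G Q * (if ((S ∩ Q).card : ℝ) ≤ h then 1 else 0) ≤ 6 := by
  have h1 := var p G S hS
  set m : ℝ := p * S.card with hm
  have hm0 : 0 < m := by nlinarith
  have h2 : (m / 3) ^ 2 * ∑ Q ∈ G.powerset, w p G Q * (if ((S ∩ Q).card : ℝ) ≤ h then 1 else 0) ≤
      ∑ Q ∈ G.powerset, w p G Q * (((S ∩ Q).card : ℝ) - m) ^ 2 := by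
    rw [mul_sum]
    refine sum_le_sum fun Q _ => ?_
    have hw := w_nonneg hp0 hp1 G Q
    split_ifs with hc
    · have h3 : (m / 3) ^ 2 ≤ (((S ∩ Q).card : ℝ) - m) ^ 2 := by
        have h4 : m / 3 ≤ m - ((S ∩ Q).card : ℝ) := by linarith
        have h5 : 0 ≤ m / 3 := by positivity
        nlinarith
      nlinarith
    · rw [mul_zero, mul_zero]
      positivity
  set P : ℝ := ∑ Q ∈ G.powerset, w p G Q * (if ((S ∩ Q).card : ℝ) ≤ h then 1 else 0) with hP
  have hP0 : 0 ≤ P := sum_nonneg fun Q _ => mul_nonneg (w_nonneg hp0 hp1 G Q) (by split_ifs <;> norm_num)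
  have h3 : (m / 3) ^ 2 * P ≤ m := h2.trans h1
  have h4 : m * P ≤ 9 := by
    have : m * (m * P) ≤ m * 9 := by nlinarith
    exact le_of_mul_le_mul_left this hm0
  nlinarith

/-- the upper deviation -/
theorem upp {p h : ℝ} (hp0 : 0 ≤ p) (hp1 : p ≤ 1) (hh : 0 < h) {G S : Finset V} (hS : S ⊆ G)
    (hd : 2 * (p * S.card) < h) :
    h * ∑ Q ∈ G.powerset, w p G Q * (if h < ((S ∩ Q).card : ℝ) then 1 else 0) ≤
      4 * p * S.card / h := by
  have h1 := var p G S hS
  set m : ℝ := p * S.card with hm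
  have hm0 : 0 ≤ m := by positivity
  have h2 : (h / 2) ^ 2 * ∑ Q ∈ G.powerset, w p G Q * (if h < ((S ∩ Q).card : ℝ) then 1 else 0) ≤
      ∑ Q ∈ G.powerset, w p G Q * (((S ∩ Q).card : ℝ) - m) ^ 2 := by
    rw [mul_sum]
    refine sum_le_sum fun Q _ => ?_
    have hw := w_nonneg hp0 hp1 G Q
    split_ifs with hc
    · have h3 : (h / 2) ^ 2 ≤ (((S ∩ Q).card : ℝ) - m) ^ 2 := by
        have h4 : h / 2 ≤ ((S ∩ Q).card : ℝ) - m := by linarith
        have h5 : 0 ≤ h / 2 := by positivity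
        nlinarith
      nlinarith
    · rw [mul_zero, mul_zero]
      positivity
  set P : ℝ := ∑ Q ∈ G.powerset, w p G Q * (if h < ((S ∩ Q).card : ℝ) then 1 else 0) with hP
  have h3 : (h / 2) ^ 2 * P ≤ m := h2.trans h1
  rw [le_div_iff₀ hh, mul_assoc 4 p, ← hm]
  nlinarith

end Samp

open Samp

theorem samp_ : S_SAMP := by
  intro V _ nbr D M h hsym hM hh hD hcard G
  set p : ℝ := 1 / M with hp
  have hMR : (1 : ℝ) ≤ M := by exact_mod_cast hM
  have hM0 : (0 : ℝ) < M := by linarith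
  have hhR : (1 : ℝ) ≤ h := by exact_mod_cast hh
  have hp0 : 0 ≤ p := by positivity
  have hp1 : p ≤ 1 := by
    rw [hp, div_le_one hM0]
    exact hMR
  have hDR : (D : ℝ) = h * M := by exact_mod_cast hD
  have hD0 : (0 : ℝ) < D := by rw [hDR]; positivity
  have hpD : p * D = h := by rw [hp, hDR]; field_simp
  set S : V → Finset V := fun x => nbr x ∩ G with hS
  have hSG : ∀ x, S x ⊆ G := fun x => inter_subset_right
  have hSQ : ∀ x, ∀ Q ∈ G.powerset, nbr x ∩ Q = S x ∩ Q := by
    intro x Q hQ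
    rw [hS]
    simp only
    rw [inter_assoc, inter_eq_right.2 (mem_powerset.1 hQ)]
  set N : Finset V := G.biUnion nbr with hN
  set E : Finset V → Finset V := fun Q =>
    (G.filter fun x => 3 * D < 2 * (S x).card ∧ (nbr x ∩ Q).card ≤ h) ∪
      (N.filter fun x => 2 * (S x).card < D ∧ h < (nbr x ∩ Q).card) with hE
  -- the mean of E
  have hEle : ∀ Q ∈ G.powerset, ((E Q).card : ℝ) ≤
      ∑ x ∈ G.filter (fun x => 3 * D < 2 * (S x).card),
        (if ((S x ∩ Q).card : ℝ) ≤ h then (1 : ℝ) else 0) +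
      ∑ x ∈ N.filter (fun x => 2 * (S x).card < D),
        (if (h : ℝ) < ((S x ∩ Q).card : ℝ) then (1 : ℝ) else 0) := by
    intro Q hQ
    have h1 : ((E Q).card : ℝ) ≤
        ((G.filter fun x => 3 * D < 2 * (S x).card ∧ (nbr x ∩ Q).card ≤ h).card : ℝ) +
        ((N.filter fun x => 2 * (S x).card < D ∧ h < (nbr x ∩ Q).card).card : ℝ) := by
      exact_mod_cast card_union_le _ _
    refine h1.trans (le_of_eq ?_)
    congr 1
    · rw [← filter_filter, card_filter, Nat.cast_sum]
      refine sum_congr rfl fun x _ => ?_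
      rw [hSQ x Q hQ]
      simp only [Nat.cast_ite, Nat.cast_one, Nat.cast_zero, Nat.cast_le]
    · rw [← filter_filter, card_filter, Nat.cast_sum]
      refine sum_congr rfl fun x _ => ?_
      rw [hSQ x Q hQ]
      simp only [Nat.cast_ite, Nat.cast_one, Nat.cast_zero, Nat.cast_lt]
  have hsumS : ∑ x ∈ N, ((S x).card : ℝ) ≤ 2 * D * G.card := by
    have h1 : ∑ x ∈ N, (S x).card ≤ ∑ y ∈ G, (nbr y).card := by
      have h2 : ∀ x ∈ N, (S x).card = ∑ y ∈ G, if y ∈ nbr x then 1 else 0 := by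
        intro x _
        rw [← card_filter, hS]
        simp only
        rw [inter_comm, filter_mem_eq_inter]
      rw [sum_congr rfl h2, sum_comm]
      refine sum_le_sum fun y _ => ?_
      rw [← card_filter]
      refine card_le_card fun x hx => ?_
      exact (hsym _ _).1 (mem_filter.1 hx).2
    have h3 : ∑ y ∈ G, (nbr y).card = G.card * (2 * D) := by
      rw [sum_congr rfl fun y _ => hcard y, sum_const, smul_eq_mul]
    rw [h3] at h1
    have h4 : ((∑ x ∈ N, (S x).card : ℕ) : ℝ) ≤ ((G.card * (2 * D) : ℕ) : ℝ) := by exact_mod_cast h1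
    push_cast at h4
    linarith
  have hmean : ∑ Q ∈ G.powerset, w p G Q * ((M : ℝ) * Q.card + (h : ℝ) / 14 * (E Q).card) ≤
      2 * G.card := by
    have h1 : ∑ Q ∈ G.powerset, w p G Q * (Q.card : ℝ) = p * G.card := by
      rw [← mean p G G (Subset.refl _)]
      refine sum_congr rfl fun Q hQ => ?_
      rw [inter_eq_right.2 (mem_powerset.1 hQ)]
    have h2 : (h : ℝ) * ∑ Q ∈ G.powerset, w p G Q * ((E Q).card : ℝ) ≤ 14 * G.card := by
      calc (h : ℝ) * ∑ Q ∈ G.powerset, w p G Q * ((E Q).card : ℝ)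
          ≤ (h : ℝ) * ∑ Q ∈ G.powerset, w p G Q *
            (∑ x ∈ G.filter (fun x => 3 * D < 2 * (S x).card),
              (if ((S x ∩ Q).card : ℝ) ≤ h then (1 : ℝ) else 0) +
            ∑ x ∈ N.filter (fun x => 2 * (S x).card < D),
              (if (h : ℝ) < ((S x ∩ Q).card : ℝ) then (1 : ℝ) else 0)) := by
            refine mul_le_mul_of_nonneg_left ?_ (by positivity)
            exact sum_le_sum fun Q hQ =>
              mul_le_mul_of_nonneg_left (hEle Q hQ) (w_nonneg hp0 hp1 G Q)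
        _ = ∑ x ∈ G.filter (fun x => 3 * D < 2 * (S x).card),
              ((h : ℝ) * ∑ Q ∈ G.powerset, w p G Q * (if ((S x ∩ Q).card : ℝ) ≤ h then (1 : ℝ) else 0)) +
            ∑ x ∈ N.filter (fun x => 2 * (S x).card < D),
              ((h : ℝ) * ∑ Q ∈ G.powerset, w p G Q *
                (if (h : ℝ) < ((S x ∩ Q).card : ℝ) then (1 : ℝ) else 0)) := by
            simp only [mul_add, sum_add_distrib]
            congr 1
            · rw [← mul_sum, sum_comm' (t' := G.powerset)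
                (s' := fun _ => G.filter (fun x => 3 * D < 2 * (S x).card))]
              · simp only [mul_sum]
              · intro x y
                exact Iff.rfl
            · rw [← mul_sum, sum_comm' (t' := G.powerset)
                (s' := fun _ => N.filter (fun x => 2 * (S x).card < D))]
              · simp only [mul_sum]
              · intro x y
                exact Iff.rfl
        _ ≤ ∑ x ∈ G.filter (fun x => 3 * D < 2 * (S x).card), (6 : ℝ) +
            ∑ x ∈ N.filter (fun x => 2 * (S x).card < D), 4 * p * (S x).card / h := by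
            refine add_le_add (sum_le_sum fun x hx => ?_) (sum_le_sum fun x hx => ?_)
            · refine low hp0 hp1 (by linarith) (hSG x) ?_
              have h3 : ((3 * D : ℕ) : ℝ) < ((2 * (S x).card : ℕ) : ℝ) := by
                exact_mod_cast (mem_filter.1 hx).2
              push_cast at h3
              have h4 : p * (3 * D) < p * (2 * (S x).card) :=
                mul_lt_mul_of_pos_left h3 (by positivity)
              nlinarith
            · refine upp hp0 hp1 (by linarith) (hSG x) ?_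
              have h3 : ((2 * (S x).card : ℕ) : ℝ) < ((D : ℕ) : ℝ) := by
                exact_mod_cast (mem_filter.1 hx).2
              push_cast at h3
              have h4 : p * (2 * (S x).card) < p * D :=
                mul_lt_mul_of_pos_left h3 (by positivity)
              nlinarith
        _ ≤ ∑ x ∈ G, (6 : ℝ) + ∑ x ∈ N, 4 * p * (S x).card / h := by
            refine add_le_add ?_ ?_
            · exact sum_le_sum_of_subset_of_nonneg (filter_subset _ _) fun _ _ _ => by norm_num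
            · exact sum_le_sum_of_subset_of_nonneg (filter_subset _ _) fun _ _ _ => by positivity
        _ ≤ 14 * G.card := by
            rw [sum_const, nsmul_eq_mul]
            have h3 : ∑ x ∈ N, 4 * p * ((S x).card : ℝ) / h = 4 * p / h * ∑ x ∈ N, ((S x).card : ℝ) := by
              rw [mul_sum]
              refine sum_congr rfl fun x _ => ?_
              ring
            rw [h3]
            have h4 : 4 * p / h * ∑ x ∈ N, ((S x).card : ℝ) ≤ 4 * p / h * (2 * D * G.card) :=
              mul_le_mul_of_nonneg_left hsumS (by positivity)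
            have h5 : 4 * p / h * (2 * D * G.card) = 8 * G.card := by
              have : (4 * p / h * (2 * D * G.card) : ℝ) = 8 * (p * D) / h * G.card := by ring
              rw [this, hpD]
              field_simp
            linarith
    have h3 : ∑ Q ∈ G.powerset, w p G Q * ((M : ℝ) * Q.card + (h : ℝ) / 14 * (E Q).card) =
        M * ∑ Q ∈ G.powerset, w p G Q * (Q.card : ℝ) +
          1 / 14 * ((h : ℝ) * ∑ Q ∈ G.powerset, w p G Q * ((E Q).card : ℝ)) := by
      rw [mul_sum, mul_sum, mul_sum, ← sum_add_distrib]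
      refine sum_congr rfl fun Q _ => ?_
      ring
    rw [h3, h1]
    have h4 : (M : ℝ) * (p * G.card) = G.card := by rw [hp]; field_simp
    rw [h4]
    linarith
  obtain ⟨Q, hQ, hval⟩ : ∃ Q ∈ G.powerset,
      (M : ℝ) * Q.card + (h : ℝ) / 14 * (E Q).card ≤ 2 * G.card := by
    by_contra hcon
    push Not at hcon
    obtain ⟨Q0, hQ0, hw0⟩ : ∃ Q ∈ G.powerset, w p G Q ≠ 0 := by
      by_contra hc
      push Not at hc
      have := sum_w p G
      rw [sum_eq_zero hc] at this
      norm_num at this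
    have h1 : 0 < ∑ Q ∈ G.powerset, w p G Q *
        (((M : ℝ) * Q.card + (h : ℝ) / 14 * (E Q).card) - 2 * G.card) := by
      refine sum_pos' (fun Q hQ => mul_nonneg (w_nonneg hp0 hp1 G Q)
        (sub_nonneg.2 (hcon Q hQ).le)) ⟨Q0, hQ0, mul_pos ?_ (sub_pos.2 (hcon Q0 hQ0))⟩
      exact lt_of_le_of_ne (w_nonneg hp0 hp1 G Q0) (Ne.symm hw0)
    have h2 : ∑ Q ∈ G.powerset, w p G Q *
        (((M : ℝ) * Q.card + (h : ℝ) / 14 * (E Q).card) - 2 * G.card) =
        ∑ Q ∈ G.powerset, w p G Q * ((M : ℝ) * Q.card + (h : ℝ) / 14 * (E Q).card) -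
          2 * G.card * ∑ Q ∈ G.powerset, w p G Q := by
      rw [mul_sum, ← sum_sub_distrib]
      refine sum_congr rfl fun Q _ => ?_
      ring
    rw [h2, sum_w] at h1
    linarith
  refine ⟨Q, mem_powerset.1 hQ, E Q, ?_, ?_, hval⟩
  · intro x hx h1 h2
    exact mem_union_left _ (mem_filter.2 ⟨hx, h1, h2⟩)
  · intro x hx h1 h2
    refine mem_union_right _ (mem_filter.2 ⟨?_, h1, h2⟩)
    obtain ⟨y, hy⟩ : (nbr x ∩ Q).Nonempty := card_pos.1 (by omega)
    rw [mem_inter] at hy
    exact mem_biUnion.2 ⟨y, mem_powerset.1 hQ hy.2, (hsym _ _).1 hy.1⟩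

end Pool.Agent.R966.CP
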