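import Pool.Agent.R966.CP.Stm

/-!
# CP-UP (helper451): the upper bound in high dimension
-/

set_option autoImplicit false

noncomputable section

namespace Pool.Agent.R966.CP

open Finset MeasureTheory

namespace UpAux

variable {d n : ℕ}

lemma pos_zero (w : Fin n → Fin d × Bool) : pos w 0 = 0 := by simp [pos]

lemma pos_succ (w : Fin n → Fin d × Bool) (i : Fin n) :
    pos w ((i : ℕ) + 1) = pos w i + st (w i) := by
  have h : ∀ j : Fin n, (if (j : ℕ) < (i : ℕ) + 1 then st (w j) else 0) =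
      (if (j : ℕ) < i then st (w j) else 0) + (if j = i then st (w j) else 0) := by
    intro j
    rcases lt_trichotomy (j : ℕ) i with h | h | h
    · have h1 : j ≠ i := fun e => by rw [e] at h; omega
      rw [if_pos (by omega), if_pos h, if_neg h1, add_zero]
    · have h1 : j = i := Fin.ext h
      rw [if_pos (by omega), if_neg (by omega), if_pos h1, zero_add]
    · have h1 : j ≠ i := fun e => by rw [e] at h; omega
      rw [if_neg (by omega), if_neg (by omega), if_neg h1, add_zero]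
  unfold pos
  simp only [h, sum_add_distrib]
  congr 1
  rw [Finset.sum_ite_eq' univ i (fun j => st (w j))]
  simp

lemma mem_vis {w : Fin n → Fin d × Bool} {x : Fin d → ℤ} :
    x ∈ vis w ↔ ∃ i : Fin n, pos w ((i : ℕ) + 1) = x := by
  simp [vis]

lemma loc_ne_zero {w : Fin n → Fin d × Bool} {x : Fin d → ℤ} : loc w x ≠ 0 ↔ x ∈ vis w := by
  unfold loc
  rw [Finset.card_ne_zero, mem_vis]
  constructor
  · rintro ⟨i, hi⟩
    exact ⟨i, (mem_filter.1 hi).2⟩
  · rintro ⟨i, hi⟩
    exact ⟨i, mem_filter.2 ⟨mem_univ i, hi⟩⟩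

lemma sum_loc (w : Fin n → Fin d × Bool) : ∑ x ∈ vis w, loc w x = n := by
  have h := Finset.card_eq_sum_card_image (fun i : Fin n => pos w ((i : ℕ) + 1)) univ
  rw [Finset.card_univ, Fintype.card_fin] at h
  exact h.symm

lemma loc_le (w : Fin n → Fin d × Bool) (x : Fin d → ℤ) : loc w x ≤ n := by
  have h := card_filter_le (univ : Finset (Fin n)) fun i : Fin n => pos w ((i : ℕ) + 1) = x
  rw [Finset.card_univ, Fintype.card_fin] at h
  exact h

lemma reach (w : Fin n → Fin d × Bool) (S : Finset (Fin d → ℤ)) (hS : vis w ⊆ S) (i : ℕ)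
    (hi : i ≤ n) : Relation.ReflTransGen (fun a b => b ∈ S ∧ b ∈ nb a) 0 (pos w i) := by
  induction i with
  | zero => rw [pos_zero]
  | succ i ih =>
    refine (ih (by omega)).tail ⟨hS (mem_vis.2 ⟨⟨i, by omega⟩, rfl⟩), ?_⟩
    have h := pos_succ w ⟨i, by omega⟩
    simp only at h
    rw [h]
    unfold nb
    exact mem_image.2 ⟨w ⟨i, by omega⟩, mem_univ _, rfl⟩

/-- sum over the functions with given sets -/
lemma fib_sum {V : Type} [DecidableEq V] (F : Finset (V → ℕ)) (G B : Finset V) (k n : ℕ)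
    (a : ℕ → ℝ) (ha : ∀ j, 0 ≤ a j) (ε : ℝ)
    (hε : ∑ j ∈ (Icc 1 n).filter (fun l => l ≠ k), a j ≤ ε)
    (h1 : ∀ l ∈ F, ∀ x ∈ G, l x = k) (h2 : ∀ l ∈ F, ∀ x ∈ B, l x ∈ (Icc 1 n).filter (fun l => l ≠ k))
    (h3 : ∀ l ∈ F, ∀ x, x ∉ G → x ∉ B → l x = 0) :
    ∑ l ∈ F, ∏ x ∈ B, a (l x) ≤ ε ^ B.card := by
  classical
  have h0 : 0 ≤ ∑ j ∈ (Icc 1 n).filter (fun l => l ≠ k), a j := sum_nonneg fun j _ => ha j
  refine le_trans ?_ (pow_le_pow_left₀ h0 hε _)
  rw [← Finset.prod_const, Finset.prod_sum]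
  have h4 : ∑ l ∈ F, ∏ x ∈ B, a (l x) =
      ∑ p ∈ F.image (fun l => fun (x : V) (_ : x ∈ B) => l x),
        ∏ x ∈ B.attach, a (p x.1 x.2) := by
    rw [Finset.sum_image]
    · refine sum_congr rfl fun l _ => ?_
      exact (Finset.prod_attach B fun x => a (l x)).symm
    · intro l hl l' hl' hll
      funext x
      by_cases hx : x ∈ G
      · rw [h1 l hl x hx, h1 l' hl' x hx]
      · by_cases hx' : x ∈ B
        · exact congrFun (congrFun hll x) hx'
        · rw [h3 l hl x hx hx', h3 l' hl' x hx hx']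
  rw [h4]
  refine sum_le_sum_of_subset_of_nonneg ?_ fun p _ _ => prod_nonneg fun x _ => ha _
  intro p hp
  obtain ⟨l, hl, rfl⟩ := mem_image.1 hp
  rw [Finset.mem_pi]
  intro x hx
  exact h2 l hl x hx

/-- algebra of the weights -/
lemma weight {V : Type} (R G B : Finset V) (l : V → ℕ) (hd : Disjoint G B)
    (hu : ∀ f : V → ℝ, ∏ x ∈ R, f x = (∏ x ∈ G, f x) * ∏ x ∈ B, f x)
    (k n : ℕ) (hG : ∀ x ∈ G, l x = k) (hn : ∑ x ∈ R, l x = n) (Λ η c0 pb : ℝ) (hΛ : 0 < Λ)
    (g : ℕ → ℝ) (heq : Real.exp (c0 + η) * g k = Λ ^ k) :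
    Real.exp (2 + G.card * c0 - pb + ∑ x ∈ B, ((k : ℝ) + 2 * l x)) * ∏ x ∈ R, g (l x) =
      Real.exp 2 * Λ ^ n * (Real.exp (-(η * G.card) - pb) *
        ∏ x ∈ B, (Real.exp ((k : ℝ) + 2 * l x) * g (l x) / Λ ^ l x)) := by
  have e1 : ∏ x ∈ R, g (l x) = g k ^ G.card * ∏ x ∈ B, g (l x) := by
    rw [hu fun x => g (l x), ← Finset.prod_const]
    congr 1
    exact prod_congr rfl fun x hx => by rw [hG x hx]
  have e2 : Λ ^ n = (Real.exp (c0 + η) * g k) ^ G.card * ∏ x ∈ B, Λ ^ l x := by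
    rw [heq, ← hn, ← Finset.prod_pow_eq_pow_sum, hu fun x => Λ ^ l x, ← Finset.prod_const]
    congr 1
    exact prod_congr rfl fun x hx => by rw [hG x hx]
  have e3 : ∏ x ∈ B, (Real.exp ((k : ℝ) + 2 * l x) * g (l x) / Λ ^ l x) =
      (Real.exp (∑ x ∈ B, ((k : ℝ) + 2 * l x)) * ∏ x ∈ B, g (l x)) / ∏ x ∈ B, Λ ^ l x := by
    rw [Finset.prod_div_distrib, Finset.prod_mul_distrib, Real.exp_sum]
  have e4 : Real.exp (2 + G.card * c0 - pb + ∑ x ∈ B, ((k : ℝ) + 2 * l x)) =
      Real.exp 2 * (Real.exp (c0 + η)) ^ G.card * Real.exp (-(η * G.card) - pb) *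
        Real.exp (∑ x ∈ B, ((k : ℝ) + 2 * l x)) := by
    rw [← Real.exp_nat_mul, ← Real.exp_add, ← Real.exp_add, ← Real.exp_add]
    congr 1
    ring
  have h0 : (∏ x ∈ B, Λ ^ l x) ≠ 0 := (prod_pos fun x _ => pow_pos hΛ _).ne'
  rw [e1, e2, e3, e4, mul_pow]
  field_simp

end UpAux

open UpAux in
/-- the upper bound in high dimension -/
theorem up_ (hNB : S_NB) (hW : S_WALK) (hC : S_CONF) (hL : S_LM) : S_UP := by
  intro D M h k hM hh hDM hk h3 h16 η Λ hη hΛ g hg hg0 heq hsum n hn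
  classical
  have hD1 : 1 ≤ D := by
    rw [hDM]
    exact Nat.mul_pos hh hM
  have hDr : (0 : ℝ) < D := by exact_mod_cast hD1
  have h2D : (0 : ℝ) < 2 * D := by positivity
  -- the family of local times
  set V0 : Finset (Fin D → ℤ) := univ.biUnion fun w : Fin n → Fin D × Bool => vis w with hV0
  set F : Finset ((Fin D → ℤ) → ℕ) := univ.image fun w : Fin n → Fin D × Bool => loc w with hF
  set R : ((Fin D → ℤ) → ℕ) → Finset (Fin D → ℤ) := fun l => V0.filter fun x => l x ≠ 0 with hRdef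
  set G : ((Fin D → ℤ) → ℕ) → Finset (Fin D → ℤ) := fun l => (R l).filter fun x => l x = k
    with hGdef
  set B : ((Fin D → ℤ) → ℕ) → Finset (Fin D → ℤ) := fun l => (R l).filter fun x => l x ≠ k
    with hBdef
  have hRvis : ∀ w : Fin n → Fin D × Bool, R (loc w) = vis w := by
    intro w
    ext x
    simp only [hRdef, mem_filter, loc_ne_zero]
    constructor
    · exact fun h => h.2
    · exact fun h => ⟨mem_biUnion.2 ⟨w, mem_univ _, h⟩, h⟩
  have hRmem : ∀ w : Fin n → Fin D × Bool, ∀ x, x ∈ R (loc w) ↔ loc w x ≠ 0 := by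
    intro w x
    rw [hRvis, loc_ne_zero]
  set pen : ℝ := (k : ℝ) / (4 * D) with hpen
  set a : ℕ → ℝ := fun j => Real.exp ((k : ℝ) + 2 * j) * g j / Λ ^ j with hadef
  have ha : ∀ j, 0 ≤ a j := fun j => by
    have := hg j
    simp only [hadef]
    positivity
  -- the bound of one term
  have hterm : ∀ l ∈ F, ((univ.filter fun w : Fin n → Fin D × Bool => loc w = l).card : ℝ) *
      (∏ x ∈ R l, g (l x)) / (2 * D : ℝ) ^ n ≤
      n * (Real.exp 2 * Λ ^ n * (Real.exp (-(η * (G l).card) - pen * bd nb (G l)) *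
        ∏ x ∈ B l, a (l x))) := by
    intro l hl
    obtain ⟨w0, -, rfl⟩ := mem_image.1 hl
    set l := loc w0 with hl0
    have hsumR : ∑ x ∈ R l, l x = n := by rw [hl0, hRvis, sum_loc]
    have hW1 := hW D n hD1 hn l (R l) (hRmem w0)
    have hC1 := hC D k hD1 h3 l (R l) (hRmem w0) (G l) (B l) rfl rfl
    have hfil : (univ.filter fun w : Fin n → Fin D × Bool => loc w = l) =
        univ.filter fun w : Fin n → Fin D × Bool => ∀ x, loc w x = l x := by
      ext w
      simp only [mem_filter, mem_univ, true_and]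
      exact funext_iff
    rw [hfil]
    have hcardR : ((R l).card : ℝ) ≤ n := by
      have h1 : (R l).card ≤ ∑ x ∈ R l, l x := by
        rw [Finset.card_eq_sum_ones]
        refine sum_le_sum fun x hx => ?_
        have := (hRmem w0 x).1 hx
        have h2 : l x ≠ 0 := this
        omega
      rw [hsumR] at h1
      exact_mod_cast h1
    have hfac : ∏ y ∈ R l, ((l y).factorial : ℝ) =
        Real.exp (∑ y ∈ R l, Real.log ((l y).factorial : ℝ)) := by
      rw [Real.exp_sum]
      refine prod_congr rfl fun y _ => ?_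
      rw [Real.exp_log (by exact_mod_cast Nat.factorial_pos _)]
    have hpow : (2 * D : ℝ) ^ n = Real.exp (∑ y ∈ R l, (l y : ℝ) * Real.log (2 * D)) := by
      rw [← Finset.sum_mul, ← Nat.cast_sum, hsumR, ← Real.log_pow, Real.exp_log (by positivity)]
    set S1 : ℝ := ∑ y ∈ R l, (l y : ℝ) * lf ((∑ x ∈ nb y, l x) + if y ∈ nb 0 then 1 else 0)
      with hS1
    set cc : ℝ := ((univ.filter fun w : Fin n → Fin D × Bool => ∀ x, loc w x = l x).card : ℝ)
      with hcc
    set c0 : ℝ := k * lf (2 * D * k) - Real.log (k.factorial : ℝ) - k * Real.log (2 * D) with hc0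
    have hb1 : cc / (2 * D : ℝ) ^ n ≤ n * Real.exp (2 + (G l).card * c0 - pen * bd nb (G l) +
        ∑ x ∈ B l, ((k : ℝ) + 2 * l x)) := by
      have e1 : cc ≤ n * Real.exp (S1 - ∑ y ∈ R l, Real.log ((l y).factorial : ℝ)) := by
        rw [hfac] at hW1
        rw [Real.exp_sub, ← mul_div_assoc, le_div_iff₀ (Real.exp_pos _)]
        refine hW1.trans ?_
        exact mul_le_mul_of_nonneg_right hcardR (Real.exp_pos _).le
      rw [hpow, div_le_iff₀ (Real.exp_pos _), mul_assoc, ← Real.exp_add]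
      refine e1.trans ?_
      refine mul_le_mul_of_nonneg_left ?_ (Nat.cast_nonneg n)
      apply Real.exp_le_exp.2
      have e2 : ∑ y ∈ R l, ((l y : ℝ) * lf ((∑ x ∈ nb y, l x) + if y ∈ nb 0 then 1 else 0) -
          Real.log ((l y).factorial : ℝ) - l y * Real.log (2 * D)) =
          S1 - ∑ y ∈ R l, Real.log ((l y).factorial : ℝ) -
            ∑ y ∈ R l, (l y : ℝ) * Real.log (2 * D) := by
        rw [Finset.sum_sub_distrib, Finset.sum_sub_distrib]
      rw [e2] at hC1
      linarith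
    have hw := weight (R l) (G l) (B l) l (by
        rw [Finset.disjoint_left]
        intro x hx hx'
        exact (mem_filter.1 hx').2 (mem_filter.1 hx).2) (fun f => by
        rw [← Finset.prod_filter_mul_prod_filter_not (R l) (fun x => l x = k)]) k n
        (fun x hx => (mem_filter.1 hx).2) hsumR Λ η c0 (pen * bd nb (G l)) hΛ g heq
    have hg1 : 0 ≤ ∏ x ∈ R l, g (l x) := prod_nonneg fun x _ => hg _
    calc cc * (∏ x ∈ R l, g (l x)) / (2 * D : ℝ) ^ n
        = cc / (2 * D : ℝ) ^ n * ∏ x ∈ R l, g (l x) := by ring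
      _ ≤ n * Real.exp (2 + (G l).card * c0 - pen * bd nb (G l) +
          ∑ x ∈ B l, ((k : ℝ) + 2 * l x)) * ∏ x ∈ R l, g (l x) :=
          mul_le_mul_of_nonneg_right hb1 hg1
      _ = _ := by rw [mul_assoc, hw]
  -- the partition function
  have hZ : ZZ D g n = ∑ l ∈ F, ((univ.filter fun w : Fin n → Fin D × Bool =>
      loc w = l).card : ℝ) * (∏ x ∈ R l, g (l x)) / (2 * D : ℝ) ^ n := by
    unfold ZZ
    rw [Finset.sum_div, ← Finset.sum_fiberwise_of_maps_to (t := F)
      (g := fun w : Fin n → Fin D × Bool => loc w) (fun w _ => mem_image_of_mem _ (mem_univ w))]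
    refine sum_congr rfl fun l _ => ?_
    have h1 : ∀ w ∈ univ.filter fun w : Fin n → Fin D × Bool => loc w = l,
        (∏ x ∈ vis w, g (loc w x)) / (2 * D : ℝ) ^ n =
          (∏ x ∈ R l, g (l x)) / (2 * D : ℝ) ^ n := by
      intro w hw
      have h2 := (mem_filter.1 hw).2
      rw [← h2, hRvis]
    rw [Finset.sum_congr rfl h1, Finset.sum_const, nsmul_eq_mul]
    ring
  -- grouping by the pairs
  set P : Finset (Finset (Fin D → ℤ) × Finset (Fin D → ℤ)) := F.image fun l => (G l, B l) with hP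
  have hsum2 : ∑ l ∈ F, Real.exp (-(η * (G l).card) - pen * bd nb (G l)) * ∏ x ∈ B l, a (l x) ≤
      ∑ p ∈ P, Real.exp (-(η * p.1.card) - pen * bd nb p.1) *
        Real.exp (-LL D) ^ p.2.card := by
    rw [← Finset.sum_fiberwise_of_maps_to (t := P)
      (g := fun l => (G l, B l)) (fun l hl => mem_image_of_mem _ hl)]
    refine sum_le_sum fun p _ => ?_
    have h1 : ∀ l ∈ F.filter fun l => (G l, B l) = p,
        Real.exp (-(η * (G l).card) - pen * bd nb (G l)) * ∏ x ∈ B l, a (l x) =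
          Real.exp (-(η * p.1.card) - pen * bd nb p.1) * ∏ x ∈ p.2, a (l x) := by
      intro l hl
      have h2 := (mem_filter.1 hl).2
      rw [← h2]
    rw [Finset.sum_congr rfl h1, ← Finset.mul_sum]
    refine mul_le_mul_of_nonneg_left ?_ (Real.exp_pos _).le
    refine fib_sum (F.filter fun l => (G l, B l) = p) p.1 p.2 k n a ha _ (hsum n) ?_ ?_ ?_
    · intro l hl x hx
      have h2 := (mem_filter.1 hl).2
      rw [← h2] at hx
      exact (mem_filter.1 hx).2
    · intro l hl x hx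
      have h2 := (mem_filter.1 hl).2
      rw [← h2] at hx
      have h3 := (mem_filter.1 hx).2
      have h4 := (mem_filter.1 (mem_filter.1 hx).1).2
      obtain ⟨w, -, rfl⟩ := mem_image.1 (mem_filter.1 hl).1
      have h5 := loc_le w x
      refine mem_filter.2 ⟨mem_Icc.2 ⟨?_, h5⟩, h3⟩
      have h6 : loc w x ≠ 0 := h4
      omega
    · intro l hl x hx hx'
      have h2 := (mem_filter.1 hl).2
      rw [← h2] at hx hx'
      obtain ⟨w, -, rfl⟩ := mem_image.1 (mem_filter.1 hl).1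
      by_contra hcon
      have h6 := (hRmem w x).2 hcon
      by_cases h7 : loc w x = k
      · exact hx (mem_filter.2 ⟨h6, h7⟩)
      · exact hx' (mem_filter.2 ⟨h6, h7⟩)
  have hLM := hL (Fin D → ℤ) nb D M h (hNB D).2 hM hh hDM (hNB D).1 η pen (Real.exp (-LL D)) hη
    (by
      have : pen * D = k / 4 := by
        rw [hpen]
        field_simp
      rw [this]
      linarith) (Real.exp_pos _).le le_rfl 0 P (by
      intro p hp
      obtain ⟨l, hl, rfl⟩ := mem_image.1 hp
      obtain ⟨w, -, rfl⟩ := mem_image.1 hl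
      refine ⟨?_, ?_⟩
      · rw [Finset.disjoint_left]
        intro x hx hx'
        exact (mem_filter.1 hx').2 (mem_filter.1 hx).2
      · have hU : G (loc w) ∪ B (loc w) = vis w := by
          rw [← hRvis w]
          exact filter_union_filter_not_eq _ _
        intro x hx
        have hx1 : x ∈ vis w := by
          rw [← hU]
          exact hx
        obtain ⟨i, hi⟩ := mem_vis.1 hx1
        rw [← hi]
        exact reach w _ (by rw [hU]) _ i.2)
  rw [hZ]
  calc ∑ l ∈ F, ((univ.filter fun w : Fin n → Fin D × Bool => loc w = l).card : ℝ) *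
        (∏ x ∈ R l, g (l x)) / (2 * D : ℝ) ^ n
      ≤ ∑ l ∈ F, n * (Real.exp 2 * Λ ^ n * (Real.exp (-(η * (G l).card) - pen * bd nb (G l)) *
        ∏ x ∈ B l, a (l x))) := sum_le_sum hterm
    _ = n * Real.exp 2 * Λ ^ n * ∑ l ∈ F, (Real.exp (-(η * (G l).card) - pen * bd nb (G l)) *
        ∏ x ∈ B l, a (l x)) := by
        rw [Finset.mul_sum]
        refine sum_congr rfl fun l _ => ?_
        ring
    _ ≤ n * Real.exp 2 * Λ ^ n * 4 := by
        refine mul_le_mul_of_nonneg_left (hsum2.trans hLM) ?_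
        positivity
    _ = Real.exp 2 * 4 * n * Λ ^ n := by ring

end Pool.Agent.R966.CP
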