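import Pool.Agent.R859.BM.Main
import Pool.Agent.R966.CP.Stm

/-!
# WALK: the number of walks with given local times, from the inequality of Brègman
-/

set_option autoImplicit false

open Finset Pool.Agent.Y372.PC Pool.Agent.R859.BM

namespace Pool.Agent.R966.CP

namespace Walk

variable {d n : ℕ}

theorem st_inj : Function.Injective (st : Fin d × Bool → Fin d → ℤ) := by
  rintro ⟨i, b⟩ ⟨i', b'⟩ h
  have h1 := congrFun h i
  simp only [st] at h1
  rw [Pi.single_eq_same] at h1
  by_cases hi : i = i'
  · subst hi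
    rw [Pi.single_eq_same] at h1
    cases b <;> cases b' <;> simp_all
  · rw [Pi.single_eq_of_ne hi] at h1
    cases b <;> simp at h1

theorem st_not (i : Fin d) (b : Bool) : st (i, !b) = - st (i, b) := by
  simp only [st]
  rw [← Pi.single_neg]
  cases b <;> simp

theorem nb_symm (x y : Fin d → ℤ) : y ∈ nb x ↔ x ∈ nb y := by
  have key : ∀ x y : Fin d → ℤ, y ∈ nb x → x ∈ nb y := by
    intro x y h
    obtain ⟨⟨i, b⟩, -, rfl⟩ := mem_image.1 h
    refine mem_image.2 ⟨(i, !b), mem_univ _, ?_⟩
    rw [st_not]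
    abel
  exact ⟨key x y, key y x⟩

theorem pos_zero (w : Fin n → Fin d × Bool) : pos w 0 = 0 := by simp [pos]

theorem pos_succ (w : Fin n → Fin d × Bool) (i : Fin n) :
    pos w ((i : ℕ) + 1) = pos w i + st (w i) := by
  simp only [pos]
  have h : ∀ j : Fin n, (if (j : ℕ) < (i : ℕ) + 1 then st (w j) else 0) =
      (if (j : ℕ) < i then st (w j) else 0) + (if j = i then st (w j) else 0) := by
    intro j
    rcases lt_trichotomy (j : ℕ) i with h | h | h
    · rw [if_pos (by omega), if_pos h, if_neg (by intro h'; rw [h'] at h; omega), add_zero]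
    · rw [if_pos (by omega), if_neg (by omega), if_pos (Fin.ext h), zero_add]
    · rw [if_neg (by omega), if_neg (by omega), if_neg (by intro h'; rw [h'] at h; omega),
        add_zero]
  rw [sum_congr rfl fun j _ => h j, sum_add_distrib]
  simp

theorem pos_succ_mem (w : Fin n → Fin d × Bool) (i : Fin n) :
    pos w ((i : ℕ) + 1) ∈ nb (pos w i) := by
  rw [pos_succ]
  exact mem_image.2 ⟨w i, mem_univ _, rfl⟩

/-- number of departures -/
def dep (w : Fin n → Fin d × Bool) (x : Fin d → ℤ) : ℕ :=
  (univ.filter fun i : Fin n => pos w i = x).card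

theorem dep_add (w : Fin n → Fin d × Bool) (x : Fin d → ℤ) :
    dep w x + (if pos w n = x then 1 else 0) = loc w x + (if 0 = x then 1 else 0) := by
  have h1 : dep w x = ∑ i ∈ range n, if pos w i = x then 1 else 0 := by
    rw [dep, card_filter, Fin.sum_univ_eq_sum_range (fun i => if pos w i = x then 1 else 0) n]
  have h2 : loc w x = ∑ i ∈ range n, if pos w (i + 1) = x then 1 else 0 := by
    rw [loc, card_filter,
      Fin.sum_univ_eq_sum_range (fun i => if pos w (i + 1) = x then 1 else 0) n]
  rw [h1, h2, ← sum_range_succ (fun i => if pos w i = x then 1 else 0),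
    sum_range_succ' (fun i => if pos w i = x then 1 else 0), pos_zero]

theorem pos_mem_of_loc (w : Fin n → Fin d × Bool) (i : Fin n) : loc w (pos w ((i : ℕ) + 1)) ≠ 0 := by
  have : i ∈ univ.filter fun j : Fin n => pos w ((j : ℕ) + 1) = pos w ((i : ℕ) + 1) :=
    mem_filter.2 ⟨mem_univ _, rfl⟩
  exact (card_pos.2 ⟨i, this⟩).ne'

/-! ### Ranks -/

section rank

variable {X : Type} [DecidableEq X]

/-- the number of earlier indices with the same value -/
def rk (a : Fin n → X) (i : Fin n) : ℕ := (univ.filter fun k : Fin n => k < i ∧ a k = a i).card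

theorem rk_lt_rk (a : Fin n → X) {i i' : Fin n} (h : i < i') (ha : a i = a i') :
    rk a i < rk a i' := by
  apply card_lt_card
  rw [Finset.ssubset_iff_of_subset]
  · refine ⟨i, mem_filter.2 ⟨mem_univ _, h, ha⟩, ?_⟩
    intro h2
    exact absurd (mem_filter.1 h2).2.1 (lt_irrefl _)
  · intro k hk
    have := (mem_filter.1 hk).2
    exact mem_filter.2 ⟨mem_univ _, this.1.trans h, this.2.trans ha⟩

theorem rk_lt_card (a : Fin n → X) (i : Fin n) :
    rk a i < (univ.filter fun k : Fin n => a k = a i).card := by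
  apply card_lt_card
  rw [Finset.ssubset_iff_of_subset]
  · refine ⟨i, mem_filter.2 ⟨mem_univ _, rfl⟩, ?_⟩
    intro h2
    exact absurd (mem_filter.1 h2).2.1 (lt_irrefl _)
  · intro k hk
    exact mem_filter.2 ⟨mem_univ _, (mem_filter.1 hk).2.2⟩

theorem rk_inj (a : Fin n → X) {i i' : Fin n} (ha : a i = a i') (h : rk a i = rk a i') :
    i = i' := by
  rcases lt_trichotomy i i' with h1 | h1 | h1
  · exact absurd h (rk_lt_rk a h1 ha).ne
  · exact h1
  · exact absurd h.symm (rk_lt_rk a h1 ha.symm).ne

theorem exists_rk (b : Fin n → X) (x : X) (j : ℕ)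
    (hj : j < (univ.filter fun k : Fin n => b k = x).card) : ∃ k, b k = x ∧ rk b k = j := by
  classical
  set F := univ.filter fun k : Fin n => b k = x with hF
  have h1 : F.image (rk b) ⊆ range F.card := by
    intro m hm
    obtain ⟨k, hk, rfl⟩ := mem_image.1 hm
    have hk' := (mem_filter.1 hk).2
    have := rk_lt_card b k
    rw [hk'] at this
    exact mem_range.2 this
  have h2 : (F.image (rk b)).card = F.card := by
    apply card_image_of_injOn
    intro k hk k' hk' h
    exact rk_inj b ((mem_filter.1 hk).2.trans (mem_filter.1 hk').2.symm) h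
  have h3 := eq_of_subset_of_card_le h1 (by rw [h2, card_range])
  have h4 : j ∈ F.image (rk b) := by
    rw [h3]
    exact mem_range.2 hj
  obtain ⟨k, hk, h5⟩ := mem_image.1 h4
  exact ⟨k, (mem_filter.1 hk).2, h5⟩

theorem exists_perm (a b : Fin n → X)
    (h : ∀ x, (univ.filter fun k : Fin n => a k = x).card =
      (univ.filter fun k : Fin n => b k = x).card) :
    ∃ σ : Equiv.Perm (Fin n), ∀ i, b (σ i) = a i ∧ rk b (σ i) = rk a i := by
  have h1 : ∀ i, ∃ k, b k = a i ∧ rk b k = rk a i := by
    intro i
    apply exists_rk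
    rw [← h]
    exact rk_lt_card a i
  choose s hs using h1
  have hinj : Function.Injective s := by
    intro i i' hii
    have e1 := hs i
    have e2 := hs i'
    rw [hii] at e1
    exact rk_inj a (e1.1.symm.trans e2.1) (e1.2.symm.trans e2.2)
  exact ⟨Equiv.ofBijective s (Finite.injective_iff_bijective.1 hinj), hs⟩

end rank

/-- positions determine the walk -/
theorem walk_ext (w w' : Fin n → Fin d × Bool) (h : ∀ i, i ≤ n → pos w i = pos w' i) : w = w' := by
  funext i
  have h1 := h i i.2.le
  have h2 := h (i + 1) i.2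
  rw [pos_succ, pos_succ, h1] at h2
  exact st_inj (add_left_cancel h2)

theorem main_e (hLF : S_LF) (l : (Fin d → ℤ) → ℕ) (R : Finset (Fin d → ℤ))
    (hR : ∀ x, x ∈ R ↔ l x ≠ 0) (W : Finset (Fin n → Fin d × Bool)) (e : Fin d → ℤ)
    (hW : ∀ w ∈ W, (∀ x, loc w x = l x) ∧ pos w n = e) :
    (W.card : ℝ) * ∏ y ∈ R, ((l y).factorial : ℝ) ≤
      Real.exp (∑ y ∈ R, l y * lf ((∑ x ∈ nb y, l x) + if y ∈ nb 0 then 1 else 0)) := by
  classical
  rcases W.eq_empty_or_nonempty with hne | ⟨w0, hw0⟩
  · rw [hne, card_empty, Nat.cast_zero, zero_mul]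
    exact (Real.exp_pos _).le
  obtain ⟨hl0, he0⟩ := hW w0 hw0
  have hmem : ∀ w ∈ W, ∀ i : Fin n, pos w ((i : ℕ) + 1) ∈ R := by
    intro w hw i
    rw [hR, ← (hW w hw).1]
    exact pos_mem_of_loc w i
  set r := R.card with hr
  let φ : R ≃ Fin r := R.equivFin
  let A : Fin n → Finset (Fin r) := fun i => univ.filter fun j => ((φ.symm j : R) : Fin d → ℤ) ∈
    nb (pos w0 i)
  let α : Fin r → ℕ := fun j => l (φ.symm j : R)
  let f0 : Fin n → Fin r := fun i => φ ⟨pos w0 ((i : ℕ) + 1), hmem w0 hw0 i⟩
  -- fibres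
  have hfib : ∀ w (hw : w ∈ W), ∀ j : Fin r,
      (univ.filter fun i : Fin n => φ ⟨pos w ((i : ℕ) + 1), hmem w hw i⟩ = j).card = α j := by
    intro w hw j
    show _ = l _
    rw [← (hW w hw).1, loc]
    congr 1
    ext i
    simp only [mem_filter, mem_univ, true_and]
    rw [← Equiv.eq_symm_apply]
    exact Subtype.ext_iff
  have hdep : ∀ w ∈ W, ∀ x, dep w x = dep w0 x := by
    intro w hw x
    have h1 := dep_add w x
    have h2 := dep_add w0 x
    rw [(hW w hw).1, (hW w hw).2] at h1
    rw [hl0, he0] at h2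
    omega
  have hperm : ∀ w ∈ W, ∃ σ : Equiv.Perm (Fin n), ∀ i : Fin n,
      pos w ((σ i : Fin n) : ℕ) = pos w0 i ∧
        rk (fun k : Fin n => pos w k) (σ i) = rk (fun k : Fin n => pos w0 k) i := by
    intro w hw
    exact exists_perm (fun k : Fin n => pos w0 k) (fun k : Fin n => pos w k)
      fun x => (hdep w hw x).symm
  choose! σ hσ using hperm
  -- the code of a walk
  let F : (Fin n → Fin d × Bool) → (Fin n → Fin r) := fun w i =>
    if hw : w ∈ W then φ ⟨pos w (((σ w i : Fin n) : ℕ) + 1), hmem w hw (σ w i)⟩ else f0 i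
  have hF : ∀ w (hw : w ∈ W) i, F w i = φ ⟨pos w (((σ w i : Fin n) : ℕ) + 1), hmem w hw (σ w i)⟩ :=
    fun w hw i => dif_pos hw
  have hcard : W.card ≤ (ch A α).card := by
    apply card_le_card_of_injOn F
    · intro w hw
      rw [mem_coe] at hw
      rw [mem_coe, ch, mem_filter, Fintype.mem_piFinset]
      refine ⟨?_, ?_⟩
      · intro i
        rw [hF w hw]
        refine mem_filter.2 ⟨mem_univ _, ?_⟩
        rw [Equiv.symm_apply_apply, ← (hσ w hw i).1]
        exact pos_succ_mem w (σ w i)
      · intro j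
        rw [← hfib w hw j]
        refine card_bij (fun i _ => σ w i) ?_ ?_ ?_
        · intro i hi
          refine mem_filter.2 ⟨mem_univ _, ?_⟩
          rw [← (mem_filter.1 hi).2, hF w hw]
        · intro i _ i' _ h
          exact (σ w).injective h
        · intro k hk
          refine ⟨(σ w).symm k, mem_filter.2 ⟨mem_univ _, ?_⟩, Equiv.apply_symm_apply _ _⟩
          rw [hF w hw, ← (mem_filter.1 hk).2]
          simp only [Equiv.apply_symm_apply]
    · intro w hw w' hw' hww
      rw [mem_coe] at hw hw'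
      have hpos : ∀ m, m ≤ n → ∀ i, i ≤ m → pos w i = pos w' i := by
        intro m
        induction m with
        | zero =>
          intro _ i hi
          rw [Nat.le_zero.1 hi, pos_zero, pos_zero]
        | succ m ih =>
          intro hm i hi
          rcases Nat.lt_or_ge i (m + 1) with hi' | hi'
          · exact ih (by omega) i (by omega)
          · have him : i = m + 1 := le_antisymm hi hi'
            subst him
            have ihm := ih (by omega)
            let mm : Fin n := ⟨m, hm⟩
            have hx : pos w m = pos w' m := ihm m le_rfl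
            -- the index of the departure
            set i1 := (σ w).symm mm with hi1
            set i2 := (σ w').symm mm with hi2
            have e1 := hσ w hw i1
            have e2 := hσ w' hw' i2
            rw [hi1, Equiv.apply_symm_apply, ← hi1] at e1
            rw [hi2, Equiv.apply_symm_apply, ← hi2] at e2
            have hrk : rk (fun k : Fin n => pos w k) mm = rk (fun k : Fin n => pos w' k) mm := by
              unfold rk
              congr 1
              ext k
              simp only [mem_filter, mem_univ, true_and]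
              refine and_congr_right fun hk => ?_
              have hk' : (k : ℕ) < m := hk
              rw [ihm k hk'.le]
              show pos w' k = pos w m ↔ pos w' k = pos w' m
              rw [hx]
            have e3 : i1 = i2 := by
              apply rk_inj (fun k : Fin n => pos w0 k)
              · show pos w0 i1 = pos w0 i2
                rw [← e1.1, ← e2.1]
                exact hx
              · rw [← e1.2, ← e2.2, hrk]
            have e4 := congrFun hww i1
            rw [hF w hw, hF w' hw'] at e4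
            have e5 := Subtype.ext_iff.1 (φ.injective e4)
            simp only at e5
            rw [hi1, Equiv.apply_symm_apply, ← hi1, e3, hi2, Equiv.apply_symm_apply] at e5
            exact e5
      exact walk_ext w w' fun i hi => hpos n le_rfl i hi
  have h1 := mul_le_adm A α f0 (hfib w0 hw0)
  have hprod : ∏ y ∈ R, ((l y).factorial : ℝ) = ∏ j, ((α j).factorial : ℝ) := by
    rw [← prod_coe_sort R (fun y => ((l y).factorial : ℝ))]
    exact (Equiv.prod_comp φ.symm (fun y : R => ((l y).factorial : ℝ))).symm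
  have h2 : (W.card : ℝ) * ∏ y ∈ R, ((l y).factorial : ℝ) ≤
      ((adm fun t => univ.filter fun i => f0 t ∈ A i).card : ℝ) := by
    refine le_trans ?_ (Nat.cast_le.2 h1)
    rw [hprod]
    push_cast
    refine mul_le_mul_of_nonneg_right (Nat.cast_le.2 hcard) ?_
    positivity
  refine h2.trans ((bregman _).trans ?_)
  apply Real.exp_le_exp.2
  have hS : ∀ t : Fin n, (univ.filter fun i => f0 t ∈ A i).card ≤
      (∑ x ∈ nb (pos w0 ((t : ℕ) + 1)), l x) + if pos w0 ((t : ℕ) + 1) ∈ nb 0 then 1 else 0 := by
    intro t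
    set y := pos w0 ((t : ℕ) + 1) with hy
    have hsub : (univ.filter fun i => f0 t ∈ A i) ⊆ (nb y).biUnion
        (fun x => univ.filter fun i : Fin n => pos w0 i = x) := by
      intro i hi
      have hi' := (mem_filter.1 (mem_filter.1 hi).2).2
      have hi2 : y ∈ nb (pos w0 i) := by
        have : ((φ.symm (f0 t) : R) : Fin d → ℤ) = y := by
          show ((φ.symm (φ _) : R) : Fin d → ℤ) = y
          rw [Equiv.symm_apply_apply]
        rw [← this]
        exact hi'
      exact mem_biUnion.2 ⟨pos w0 i, (nb_symm _ _).1 hi2, mem_filter.2 ⟨mem_univ _, rfl⟩⟩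
    refine (card_le_card hsub).trans (card_biUnion_le.trans ?_)
    have hle : ∀ x ∈ nb y, (univ.filter fun i : Fin n => pos w0 i = x).card ≤
        l x + if 0 = x then 1 else 0 := by
      intro x _
      have := dep_add w0 x
      rw [hl0] at this
      unfold dep at this
      omega
    refine (sum_le_sum hle).trans ?_
    rw [sum_add_distrib, sum_ite_eq]
    apply le_of_eq
    congr 1
    by_cases h0 : (0 : Fin d → ℤ) ∈ nb y
    · rw [if_pos h0, if_pos ((nb_symm _ _).1 h0)]
    · rw [if_neg h0, if_neg fun h => h0 ((nb_symm _ _).1 h)]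
  have hstep : ∀ t : Fin n, Real.log (((univ.filter fun i => f0 t ∈ A i).card).factorial : ℝ) /
      ((univ.filter fun i => f0 t ∈ A i).card : ℝ) ≤
      lf ((∑ x ∈ nb ((φ.symm (f0 t) : R) : Fin d → ℤ), l x) +
        if ((φ.symm (f0 t) : R) : Fin d → ℤ) ∈ nb 0 then 1 else 0) := by
    intro t
    have h3 := hLF.1 (hS t)
    have : ((φ.symm (f0 t) : R) : Fin d → ℤ) = pos w0 ((t : ℕ) + 1) := by
      show ((φ.symm (φ _) : R) : Fin d → ℤ) = _
      rw [Equiv.symm_apply_apply]
    rw [this]
    exact h3
  refine (sum_le_sum fun t _ => hstep t).trans ?_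
  apply le_of_eq
  let G : Fin r → ℝ := fun j => lf ((∑ x ∈ nb ((φ.symm j : R) : Fin d → ℤ), l x) +
        if ((φ.symm j : R) : Fin d → ℤ) ∈ nb 0 then 1 else 0)
  have hG1 : ∑ t : Fin n, G (f0 t) = ∑ j : Fin r, (α j : ℝ) * G j := by
    rw [← sum_fiberwise_of_maps_to (g := f0) (t := univ) (fun _ _ => mem_univ _)]
    refine sum_congr rfl fun j _ => ?_
    rw [← hfib w0 hw0 j, ← nsmul_eq_mul]
    apply sum_eq_card_nsmul
    intro t ht
    rw [(mem_filter.1 ht).2]
  refine hG1.trans ?_
  rw [← sum_coe_sort R (fun y => (l y : ℝ) * lf ((∑ x ∈ nb y, l x) + if y ∈ nb 0 then 1 else 0))]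
  exact Equiv.sum_comp φ.symm (fun y : R => (l y : ℝ) * lf ((∑ x ∈ nb (y : Fin d → ℤ), l x) +
    if (y : Fin d → ℤ) ∈ nb 0 then 1 else 0))

end Walk

open Walk in
/-- WALK -/
theorem walk_ (hLF : S_LF) : S_WALK := by
  intro d n hd hn l R hR
  classical
  have hcard : (univ.filter fun w : Fin n → Fin d × Bool => ∀ x, loc w x = l x) ⊆
      R.biUnion fun e => univ.filter fun w : Fin n → Fin d × Bool =>
        (∀ x, loc w x = l x) ∧ pos w n = e := by
    intro w hw
    have hw' := (mem_filter.1 hw).2
    refine mem_biUnion.2 ⟨pos w n, ?_, mem_filter.2 ⟨mem_univ _, hw', rfl⟩⟩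
    rw [hR, ← hw']
    have := pos_mem_of_loc w ⟨n - 1, by omega⟩
    simp only at this
    rw [Nat.sub_add_cancel hn] at this
    exact this
  have h1 : ((univ.filter fun w : Fin n → Fin d × Bool => ∀ x, loc w x = l x).card : ℝ) ≤
      ∑ e ∈ R, ((univ.filter fun w : Fin n → Fin d × Bool =>
        (∀ x, loc w x = l x) ∧ pos w n = e).card : ℝ) := by
    have := (card_le_card hcard).trans card_biUnion_le
    exact_mod_cast this
  have hP : (0 : ℝ) ≤ ∏ y ∈ R, ((l y).factorial : ℝ) := by positivity
  calc ((univ.filter fun w : Fin n → Fin d × Bool => ∀ x, loc w x = l x).card : ℝ) *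
      ∏ y ∈ R, ((l y).factorial : ℝ) 
      ≤ (∑ e ∈ R, ((univ.filter fun w : Fin n → Fin d × Bool =>
        (∀ x, loc w x = l x) ∧ pos w n = e).card : ℝ)) * ∏ y ∈ R, ((l y).factorial : ℝ) :=
        mul_le_mul_of_nonneg_right h1 hP
    _ = ∑ e ∈ R, ((univ.filter fun w : Fin n → Fin d × Bool =>
        (∀ x, loc w x = l x) ∧ pos w n = e).card : ℝ) * ∏ y ∈ R, ((l y).factorial : ℝ) :=
        sum_mul _ _ _
    _ ≤ ∑ e ∈ R, Real.exp (∑ y ∈ R, l y * lf ((∑ x ∈ nb y, l x) + if y ∈ nb 0 then 1 else 0)) := by
        refine sum_le_sum fun e _ => ?_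
        exact main_e hLF l R hR _ e fun w hw => (mem_filter.1 hw).2
    _ = _ := by rw [sum_const, nsmul_eq_mul]

end Pool.Agent.R966.CP
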